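import Pool.Agent.E14.RE.Tree2

/-!
# Balanced groups
-/

set_option autoImplicit false

namespace Pool.Agent.E14.RE

open SimpleGraph
open scoped commutatorElement
open Pool.Agent.Y110.FJ
open Pool.Agent.N509.TK
open Pool.Agent.R941.FJ (C_equiv C_le C_cyc mem_sup_normal)
open Pool.Agent.N431.CE (Es mem_Es)
open Pool.Agent.N509.TX (AcylF C_edge cylF_fg of_fg of_fg_mem fg_subtree finedge STree)
open Pool.Agent.Helper270.Tree (TreeAct IsAxis IsLine)

variable {C : ∀ (G : Type) [Group G], Prop}

/-- the weaker conditions on the vertex groups -/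
structure TB (C : ∀ (G : Type) [Group G], Prop) (G : Type) [Group G] : Prop where
  mem : C G
  cen : ∀ e : G, Io e → Cen C e

/-- balanced -/
def Bal {G : Type} [Group G] (e : G) : Prop :=
  ∀ (g : G) (p q : ℤ), p ≠ 0 → q ≠ 0 → g * e ^ p * g⁻¹ = e ^ q → q = p ∨ q = -p

theorem Bal.index {G : Type} [Group G] {e : G} (hb : Bal e) :
    ((Vz e).subgroupOf (Kom e)).FiniteIndex := by
  classical
  have key : ∀ a b : Kom e, (a : G) ∉ Vz e → (b : G) ∉ Vz e → ((a⁻¹ * b : Kom e) : G) ∈ Vz e := by
    intro a b ha hb'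
    obtain ⟨p, q, hp, hq, h1⟩ := a.2
    obtain ⟨r, s, hr, hs, h2⟩ := b.2
    have h3 : q = -p := by
      rcases hb (a : G) p q hp hq h1 with h | h
      · rw [h] at h1
        exact absurd ⟨p, hp, mul_inv_eq_iff_eq_mul.1 h1⟩ ha
      · exact h
    have h4 : s = -r := by
      rcases hb (b : G) r s hr hs h2 with h | h
      · rw [h] at h2
        exact absurd ⟨r, hr, mul_inv_eq_iff_eq_mul.1 h2⟩ hb'
      · exact h
    rw [h3] at h1
    rw [h4] at h2
    have h5 : (a : G) * e ^ (p * r) * (a : G)⁻¹ = e ^ (-(p * r)) := by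
      rw [zpow_mul, ← cj_zpow, h1, ← zpow_mul]
      congr 1
      ring
    have h6 : (b : G) * e ^ (p * r) * (b : G)⁻¹ = e ^ (-(p * r)) := by
      rw [mul_comm, zpow_mul, ← cj_zpow, h2, ← zpow_mul]
      congr 1
      ring
    refine ⟨p * r, mul_ne_zero hp hr, ?_⟩
    show (a : G)⁻¹ * (b : G) * e ^ (p * r) = e ^ (p * r) * ((a : G)⁻¹ * (b : G))
    have h7 : (b : G) * e ^ (p * r) = (a : G) * e ^ (p * r) * (a : G)⁻¹ * (b : G) := by
      rw [h5, ← h6, inv_mul_cancel_right]
    rw [mul_assoc, h7]
    group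
  rw [Subgroup.finiteIndex_iff_finite_quotient]
  refine Finite.of_injective (β := Bool)
    (fun q : Kom e ⧸ (Vz e).subgroupOf (Kom e) => decide ((q.out : G) ∈ Vz e)) ?_
  intro q q' hqq
  have hqq : decide ((q.out : G) ∈ Vz e) = decide ((q'.out : G) ∈ Vz e) := hqq
  have h2 : ∀ q : Kom e ⧸ (Vz e).subgroupOf (Kom e),
      (QuotientGroup.mk q.out : Kom e ⧸ (Vz e).subgroupOf (Kom e)) = q := fun q =>
    QuotientGroup.out_eq' _
  rw [← h2 q, ← h2 q']
  refine QuotientGroup.eq.2 ?_
  rw [Subgroup.mem_subgroupOf]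
  by_cases h : (q.out : G) ∈ Vz e
  · have h' : (q'.out : G) ∈ Vz e := by
      have : decide ((q'.out : G) ∈ Vz e) = true := by rw [← hqq]; exact decide_eq_true h
      exact of_decide_eq_true this
    exact mul_mem (inv_mem h) h'
  · have h' : (q'.out : G) ∉ Vz e := by
      intro h'
      have : decide ((q.out : G) ∈ Vz e) = true := by rw [hqq]; exact decide_eq_true h'
      exact h (of_decide_eq_true this)
    exact key _ _ h h'

variable {G V : Type} [Group G] [MulAction G V] {T : SimpleGraph V}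

/-- **groups acting on trees with virtually cyclic edge groups**: the elements of the edge groups are
balanced or satisfy the conditions in the vertex groups -/
theorem tb_tree (hC : ClosedE C) (hM : ∀ (G : Type) [Group G], derivedSeries G 2 = ⊥ → C G)
    (hA : AcylF C) (h : TreeAct G T) (hV : ∀ v : V, TB C (MulAction.stabilizer G v))
    (hE : ∀ u v, T.Adj u v → Vcy (Es G u v))
    (hb : ∀ v u, T.Adj v u → ∀ x ∈ Es G v u, Io x → Bal x ∨
      ∀ (w : V) (m : ℤ) (hw : x ^ m • w = w), m ≠ 0 →
        Qe C (⟨x ^ m, hw⟩ : MulAction.stabilizer G w) ∧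
          Ht (⟨x ^ m, hw⟩ : MulAction.stabilizer G w)) : TB C G := by
  refine ⟨mem_tree3 hC hA h (fun v => (hV v).mem) hE fun x v u hvu hio hx => ?_, fun e he => ?_⟩
  · rcases hb v u hvu x hx hio with hb | hb
    swap
    · exact (ell3 hC hM hA h x hio (v0 := v) ⟨1, one_ne_zero, by
        rw [zpow_one]
        exact hx.1⟩ (fun v => (hV v).mem) (fun v => (hV v).cen) hb hE).1
    have hx := hx.1
    have hVz : C (Vz x) := by
      refine of_fg hC fun H hH => ?_
      have hH' : (H.map (Vz x).subtype).FG := by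
        classical
        rw [Group.fg_iff_subgroup_fg] at hH
        obtain ⟨S, hS⟩ := hH
        refine ⟨S.image (Vz x).subtype, ?_⟩
        rw [Finset.coe_image, ← MonoidHom.map_closure, hS]
      obtain ⟨N, hN, hHN⟩ := exists_pow_comm hH' (fun y hy => by
        obtain ⟨z, -, rfl⟩ := hy
        exact z.2)
      have hw : x ^ N • v = v := by
        have h3 : x ∈ MulAction.stabilizer G v := hx
        exact zpow_mem h3 N
      have h2 := (cen_ell hC hM hA h.isTree h.adj (x ^ N) (hio.pow hN) hw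
        (fun v => (hV v).cen) hE).2
      refine hC.base.of_injective _ _ (((Vz x).subtype.comp H.subtype).codRestrict
        (Subgroup.centralizer {x ^ N}) fun y => hHN ⟨y, y.2, rfl⟩) ?_ h2
      intro a b hab
      have h1 := congrArg Subtype.val hab
      exact Subtype.ext (Subtype.ext h1)
    refine hC.base.finiteIndex _ ((Vz x).subgroupOf (Kom x)) hb.index ?_
    exact C_equiv hC.base (Subgroup.subgroupOfEquivOfLe (Vz_le_Kom x)) hVz
  · by_cases hv : ∃ v : V, v ∈ We V e
    · obtain ⟨v0, m, hm, hmv⟩ := hv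
      obtain ⟨w, hw⟩ := fix_of_pow h hm hmv
      exact (cen_ell hC hM hA h.isTree h.adj e he hw (fun v => (hV v).cen) hE).1
    · push_neg at hv
      obtain ⟨L, l, hax⟩ := h.exists_axis (g := e) fun v hev => hv v
        ⟨1, one_ne_zero, by rw [zpow_one]; exact hev⟩
      exact (hyp_all hC hM h hax hE).2

section base

variable {G : Type} [Group G]

/-- virtually solvable -/
def VSo (G : Type) [Group G] : Prop := ∃ A : Subgroup G, A.FiniteIndex ∧ Group.IsSolvable A

theorem C_VSo (hC : ClosedE C) (hM : ∀ (G : Type) [Group G], derivedSeries G 2 = ⊥ → C G)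
    (h : VSo G) : C G := by
  obtain ⟨A, hA, ⟨n, hn⟩⟩ := h
  exact hC.base.finiteIndex G A hA (C_solv hC hM n A hn)

theorem VSo.sub {A : Type} [Group A] (h : VSo G) (f : A →* G) (hf : Function.Injective f) :
    VSo A := by
  obtain ⟨B, hB, hs⟩ := h
  refine ⟨B.comap f, ⟨?_⟩, ?_⟩
  · rw [Subgroup.index_comap]
    exact (Subgroup.instFiniteIndex_subgroupOf B f.range).index_ne_zero
  · exact solvable_of_solvable_injective (f := (f.comp (B.comap f).subtype).codRestrict B
      fun x => x.2) fun a b hab => Subtype.ext (hf (congrArg Subtype.val hab))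

theorem VSo.quot {A : Type} [Group A] (h : VSo G) (f : G →* A) (hf : Function.Surjective f) :
    VSo A := by
  obtain ⟨B, hB, hs⟩ := h
  refine ⟨B.map f, ⟨fun h0 => hB.index_ne_zero ?_⟩, ?_⟩
  · have h1 : (B.map f).index ∣ B.index := Subgroup.index_map_dvd B hf
    rw [h0] at h1
    exact Nat.eq_zero_of_zero_dvd h1
  · exact solvable_of_surjective (MonoidHom.subgroupMap_surjective f B)

/-- virtually solvable groups -/
theorem tb_vso (hC : ClosedE C) (hM : ∀ (G : Type) [Group G], derivedSeries G 2 = ⊥ → C G)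
    (h : VSo G) : TB C G := by
  refine ⟨C_VSo hC hM h, fun e he => ⟨Zq e, inferInstance, QuotientGroup.mk' _,
    C_VSo hC hM ((h.sub (Subgroup.subtype _) (Subgroup.subtype_injective _)).quot _
      (QuotientGroup.mk'_surjective _)), fun x => ?_⟩⟩
  exact (QuotientGroup.eq_one_iff x).trans Subgroup.mem_subgroupOf

end base

end Pool.Agent.E14.RE
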