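import Pool.Agent.E14.RE.Vab

/-!
# Groups with virtually abelian commensurators
-/

set_option autoImplicit false

namespace Pool.Agent.E14.RE

open scoped commutatorElement
open Pool.Agent.Y110.FJ

variable {C : ∀ (G : Type) [Group G], Prop}

/-- the centralizer of `e` modulo `⟨e⟩` is in the class -/
def Cen (C : ∀ (G : Type) [Group G], Prop) {G : Type} [Group G] (e : G) : Prop :=
  ∃ (P : Type) (_ : Group P) (f : Subgroup.centralizer {e} →* P), C P ∧
    ∀ x, f x = 1 ↔ (x : G) ∈ Subgroup.zpowers e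

/-- the conditions on the vertex groups -/
structure TV (C : ∀ (G : Type) [Group G], Prop) (G : Type) [Group G] : Prop where
  tame : Tame C G
  cen : ∀ e : G, Io e → Cen C e

variable {G : Type} [Group G]

theorem mem_cen {e x : G} : x ∈ Subgroup.centralizer {e} ↔ x * e = e * x := by
  rw [Subgroup.mem_centralizer_singleton_iff]

theorem cen_le_Kom (e : G) : Subgroup.centralizer {e} ≤ Kom e := by
  intro x hx
  rw [mem_cen] at hx
  refine ⟨1, 1, one_ne_zero, one_ne_zero, ?_⟩
  rw [zpow_one, hx, mul_inv_cancel_right]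

/-- the centralizer acts on `⟨e⟩` -/
instance zp_normal (e : G) : ((Subgroup.zpowers e).subgroupOf (Subgroup.centralizer {e})).Normal := by
  refine ⟨?_⟩
  rintro ⟨x, hx⟩ hxe ⟨g, hg⟩
  rw [Subgroup.mem_subgroupOf] at hxe ⊢
  obtain ⟨i, hi⟩ := Subgroup.mem_zpowers_iff.1 hxe
  have hi : e ^ i = x := hi
  have hg' : Commute g e := mem_cen.1 hg
  refine Subgroup.mem_zpowers_iff.2 ⟨i, ?_⟩
  show e ^ i = g * x * g⁻¹
  rw [← hi, (hg'.zpow_right i).eq, mul_inv_cancel_right]

/-- a power of `e` is central in a subgroup of the virtual centralizer which is virtually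
abelian -/
theorem exists_central {R : Subgroup G} {e : G} (hR : R ≤ Vz e) (he : e ∈ R) {A : Subgroup R}
    (hA : A.FiniteIndex) (hcomm : ∀ x ∈ A, ∀ y ∈ A, x * y = y * x) :
    ∃ M : ℤ, M ≠ 0 ∧ (⟨e, he⟩ : R) ^ M ∈ A ∧ ∀ x : R, Commute x ((⟨e, he⟩ : R) ^ M) := by
  classical
  obtain ⟨m, hm, -, hme⟩ := Subgroup.exists_pow_mem_of_index_ne_zero hA.index_ne_zero
    (⟨e, he⟩ : R)
  choose N hN hNc using fun x : R => (hR x.2 : ∃ p : ℤ, p ≠ 0 ∧ (x : G) * e ^ p = e ^ p * x)
  have : Fintype (R ⧸ A) := Fintype.ofFinite _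
  refine ⟨m * ∏ q : R ⧸ A, N q.out, mul_ne_zero (by exact_mod_cast hm.ne')
    (Finset.prod_ne_zero_iff.2 fun q _ => hN _), ?_, fun x => ?_⟩
  · rw [zpow_mul, zpow_natCast]
    exact zpow_mem hme _
  · obtain ⟨a, ha, hax⟩ : ∃ a ∈ A, x = (QuotientGroup.mk x : R ⧸ A).out * a := by
      refine ⟨(QuotientGroup.mk x : R ⧸ A).out⁻¹ * x, ?_, by group⟩
      rw [← QuotientGroup.eq]
      exact QuotientGroup.out_eq' _
    rw [hax]
    refine Commute.mul_left ?_ ?_
    · have h1 : Commute (QuotientGroup.mk x : R ⧸ A).out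
          ((⟨e, he⟩ : R) ^ (N (QuotientGroup.mk x : R ⧸ A).out)) := Subtype.ext (hNc _)
      obtain ⟨c, hc⟩ : N (QuotientGroup.mk x : R ⧸ A).out ∣ ∏ q : R ⧸ A, N q.out :=
        Finset.dvd_prod_of_mem (fun q : R ⧸ A => N q.out) (Finset.mem_univ _)
      rw [hc, ← mul_assoc, mul_comm (m : ℤ), mul_assoc, zpow_mul]
      exact h1.zpow_right _
    · rw [zpow_mul, zpow_natCast]
      exact Commute.zpow_right (hcomm a ha _ hme) _

/-- the transfer -/
theorem Ht.of_vab {e : G} (he : Io e) (h : VAb (Rad e)) : Ht e := by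
  obtain ⟨A, hA, hcomm⟩ := h
  obtain ⟨M, hM, hMA, hMc⟩ := exists_central (Rad_le_Vz e) (self_mem_Rad e) hA hcomm
  let _ : CommGroup A := { (inferInstance : Group A) with
    mul_comm := fun x y => Subtype.ext (hcomm x x.2 y y.2) }
  let τ : Rad e →* A := MonoidHom.transfer (MonoidHom.id A)
  have h1 : ∀ x : Rad e, (∀ y : Rad e, Commute y x) → ((τ x : A) : Rad e) = x ^ A.index := by
    intro x hx
    have h2 := MonoidHom.transfer_eq_pow (MonoidHom.id A) x (fun k g₀ _ => by
      have h3 : Commute g₀ (x ^ k) := (hx g₀).pow_right k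
      rw [mul_assoc, ← h3.eq, inv_mul_cancel_left])
    show ((MonoidHom.transfer (MonoidHom.id A) x : A) : Rad e) = _
    rw [h2]
    rfl
  refine Ht.of_notMem fun N hN hcon => ?_
  have h2 : (⟨e, self_mem_Rad e⟩ : Rad e) ^ N ∈ commutator (Rad e) := by
    have h2 : (e ^ N : G) ∈ (commutator (Rad e)).map (Rad e).subtype := by
      rw [Subgroup.map_subtype_commutator]
      exact hcon
    obtain ⟨y, hy, hye⟩ := h2
    have h3 : y = (⟨e, self_mem_Rad e⟩ : Rad e) ^ N := Subtype.ext hye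
    rwa [← h3]
  have h3 : commutator (Rad e) ≤ τ.ker := Abelianization.commutator_subset_ker _
  have h4 := h3 h2
  rw [MonoidHom.mem_ker] at h4
  have h5 := h1 ((⟨e, self_mem_Rad e⟩ : Rad e) ^ M) hMc
  have h6 : τ ((⟨e, self_mem_Rad e⟩ : Rad e) ^ M) ^ N = 1 := by
    rw [← map_zpow, ← zpow_mul, mul_comm, zpow_mul, map_zpow, h4, one_zpow]
  have h7 : (((⟨e, self_mem_Rad e⟩ : Rad e) ^ M) ^ A.index) ^ N = 1 := by
    rw [← h5]
    have := congrArg Subtype.val h6
    simpa using this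
  refine he (M * A.index * N) (mul_ne_zero (mul_ne_zero hM
    (by exact_mod_cast hA.index_ne_zero)) hN) ?_
  rw [zpow_mul, zpow_mul, zpow_natCast]
  have := congrArg Subtype.val h7
  simpa using this

/-- **groups in the class with virtually abelian commensurators** -/
theorem tv_vab (hC : ClosedE C) (hM : ∀ (G : Type) [Group G], derivedSeries G 2 = ⊥ → C G)
    (hG : C G) (h : ∀ e : G, Io e → VAb (Kom e)) : TV C G := by
  refine ⟨⟨hG, fun e he => ?_, fun e he => ?_⟩, fun e he => ?_⟩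
  · have hn : ((Rad e).subgroupOf (Kom e)).Normal :=
      ⟨fun x hx k => Rad_conj k.2 hx⟩
    refine ⟨Kom e ⧸ (Rad e).subgroupOf (Kom e), inferInstance, QuotientGroup.mk' _,
      C_VAb hC hM ((h e he).quot _ (QuotientGroup.mk'_surjective _)), fun x => ?_⟩
    exact (QuotientGroup.eq_one_iff x).trans Subgroup.mem_subgroupOf
  · exact Ht.of_vab he ((h e he).sub (Subgroup.inclusion (Rad_le_Kom e))
      (Subgroup.inclusion_injective _))
  · refine ⟨Subgroup.centralizer {e} ⧸ (Subgroup.zpowers e).subgroupOf (Subgroup.centralizer {e}),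
      inferInstance, QuotientGroup.mk' _, C_VAb hC hM (((h e he).sub
        (Subgroup.inclusion (cen_le_Kom e)) (Subgroup.inclusion_injective _)).quot _
        (QuotientGroup.mk'_surjective _)), fun x => ?_⟩
    exact (QuotientGroup.eq_one_iff x).trans Subgroup.mem_subgroupOf

end Pool.Agent.E14.RE
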