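import Pool.Agent.E14.RE.Hyp2

/-!
# The normalized characters
-/

set_option autoImplicit false

namespace Pool.Agent.E14.RE

open SimpleGraph
open scoped commutatorElement
open Pool.Agent.Y110.FJ
open Pool.Agent.N509.TK
open Pool.Agent.R941.FJ (C_equiv C_le C_cyc mem_sup_normal)
open Pool.Agent.N431.CE (Es mem_Es)
open Pool.Agent.Helper270.Tree (TreeAct IsAxis IsLine)

variable {C : ∀ (G : Type) [Group G], Prop}

section rv

variable {G V : Type} [Group G] [MulAction G V]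

/-- the elements of an edge group in the virtual centralizer are in the radical -/
theorem rv_edge {e x : G} {u w : V} (hx : x ∈ Es G u w) (hxV : x ∈ Vz e) {t : ℤ}
    (ht : t ≠ 0) (het : e ^ t ∈ Es G u w) (hio : Io e) (hE : Vcy (Es G u w)) : x ∈ Rv e u := by
  obtain ⟨i, s, hi, his⟩ := Vcy.pow (hE.index het (hio.pow ht)) hx
  by_cases hs : s = 0
  · rw [hs, zpow_zero] at his
    obtain ⟨r, hr, hxr⟩ := hxV
    have hxr : Commute x (e ^ r) := hxr
    have h1 : Commute x (e ^ (r * t)) := by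
      rw [zpow_mul]
      exact hxr.zpow_right t
    have h2 : e ^ (r * t) • u = u := by
      rw [mul_comm, zpow_mul]
      have h3 : e ^ t ∈ MulAction.stabilizer G u := het.1
      exact zpow_mem h3 r
    have h3 : x * e ^ (r * t) ∈ Rv e u := by
      refine Subgroup.subset_closure ⟨?_, i, r * t * i, hi, mul_ne_zero (mul_ne_zero hr ht) hi, ?_⟩
      · rw [mul_smul, h2]
        exact hx.1
      · rw [h1.mul_zpow, his, one_mul, ← zpow_mul]
    have h4 : e ^ (r * t) ∈ Rv e u :=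
      Subgroup.subset_closure ⟨h2, Cm.pow e (mul_ne_zero hr ht)⟩
    have h5 := mul_mem h3 (inv_mem h4)
    rwa [mul_inv_cancel_right] at h5
  · refine Subgroup.subset_closure ⟨hx.1, i, t * s, hi, mul_ne_zero ht hs, ?_⟩
    rw [his, ← zpow_mul]

open Classical in
/-- **the normalized character** -/
theorem exists_canon {e : G} {v : V} {m : ℤ} (hm : m ≠ 0) (hv : e ^ m • v = v)
    (hH : Ht (⟨e ^ m, hv⟩ : MulAction.stabilizer G v)) :
    ∃ χ : G → QQ, Ph (Rv e v) χ ∧ ∀ x ∈ Rv e v, ∀ p q : ℤ, x ^ p = e ^ q →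
      χ x ^ p = (Multiplicative.ofAdd (1 : ℚ)) ^ q := by
  obtain ⟨θ, hθ⟩ := hH
  obtain ⟨c, hc⟩ : ∃ c : ℚ, c = (θ ⟨_, self_mem_Rad _⟩).toAdd := ⟨_, rfl⟩
  have hc0 : c ≠ 0 := by
    rw [hc]
    exact fun h => hθ (congrArg Multiplicative.ofAdd h)
  let σ : QQ →* QQ := AddMonoidHom.toMultiplicative (AddMonoidHom.mulLeft ((m : ℚ) / c))
  have hmem : ∀ x, ∀ h : x ∈ Rv e v, (⟨x, Rv_fix h⟩ : MulAction.stabilizer G v) ∈
      Rad (⟨e ^ m, hv⟩ : MulAction.stabilizer G v) := fun x h =>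
    (mem_Rad_iff hm hv (Rv_fix h)).2 h
  let χ : G → QQ := fun x => if h : x ∈ Rv e v then σ (θ ⟨⟨x, Rv_fix h⟩, hmem x h⟩) else 1
  have hχ : ∀ x (h : x ∈ Rv e v), χ x = σ (θ ⟨⟨x, Rv_fix h⟩, hmem x h⟩) := fun x h => dif_pos h
  refine ⟨χ, ?_, ?_⟩
  · intro x hx y hy
    rw [hχ x hx, hχ y hy, hχ _ (mul_mem hx hy), ← map_mul, ← map_mul]
    rfl
  · intro x hx p q hpq
    rw [hχ x hx, ← map_zpow]
    obtain ⟨X, hX⟩ : ∃ X : Rad (⟨e ^ m, hv⟩ : MulAction.stabilizer G v),
        X = ⟨⟨x, Rv_fix hx⟩, hmem x hx⟩ := ⟨_, rfl⟩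
    rw [← hX]
    have h1 : (θ X) ^ (p * m) = (θ ⟨_, self_mem_Rad _⟩) ^ q := by
      rw [← map_zpow, ← map_zpow]
      congr 1
      apply Subtype.ext
      apply Subtype.ext
      have h2 : (((X ^ (p * m) : Rad (⟨e ^ m, hv⟩ : MulAction.stabilizer G v)) :
          MulAction.stabilizer G v) : G) = x ^ (p * m) := by
        rw [Subgroup.coe_zpow, Subgroup.coe_zpow, hX]
      rw [h2, Subgroup.coe_zpow, Subgroup.coe_zpow, zpow_mul, hpq, ← zpow_mul, ← zpow_mul,
        mul_comm]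
    have h2 : ((p * m : ℤ) : ℚ) * (θ X).toAdd = (q : ℚ) * c := by
      have h3 := congrArg Multiplicative.toAdd h1
      rw [toAdd_zpow, toAdd_zpow, zsmul_eq_mul, zsmul_eq_mul] at h3
      rw [hc]
      exact h3
    apply Multiplicative.toAdd.injective
    show ((m : ℚ) / c) * ((θ X) ^ p).toAdd = _
    rw [toAdd_zpow, toAdd_zpow, zsmul_eq_mul, zsmul_eq_mul, toAdd_ofAdd]
    push_cast at h2
    field_simp
    linear_combination h2

end rv

section th

variable {G : Type} [Group G]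

/-- conjugation by the elements of the commensurator multiplies the values of the characters by
a rational number -/
theorem th_scale {e : G} (θ : Rad e →* QQ) {k : G} (hk : k ∈ Kom e) {p q : ℤ}
    (hpq : k * e ^ p * k⁻¹ = e ^ q) {x : G} (hx : x ∈ Rad e) :
    θ ⟨k * x * k⁻¹, Rad_conj hk hx⟩ ^ p = θ ⟨x, hx⟩ ^ q := by
  let θ' : Rad e →* QQ :=
    { toFun := fun y => θ ⟨k * y * k⁻¹, Rad_conj hk y.2⟩
      map_one' := by
        rw [← map_one θ]
        congr 1
        apply Subtype.ext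
        show k * 1 * k⁻¹ = 1
        group
      map_mul' := by
        intro a b
        rw [← map_mul]
        congr 1
        apply Subtype.ext
        show k * (a * b) * k⁻¹ = k * a * k⁻¹ * (k * b * k⁻¹)
        group }
  have key : ∀ y (hy : y ∈ Rad e), θ' ⟨y, hy⟩ ^ p = θ ⟨y, hy⟩ ^ q := by
    intro y hy
    induction hy using Subgroup.closure_induction with
    | mem y hy =>
      obtain ⟨a, b, ha, hb, h⟩ := hy
      apply QQ.eq ha
      rw [← zpow_mul, ← zpow_mul, ← map_zpow, ← map_zpow]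
      show θ _ = θ _
      congr 1
      apply Subtype.ext
      show k * (y ^ (p * a)) * k⁻¹ = y ^ (q * a)
      rw [mul_comm p, mul_comm q, zpow_mul, zpow_mul, h, ← zpow_mul, ← zpow_mul, mul_comm b p,
        mul_comm b q, zpow_mul, zpow_mul, ← cj_zpow, hpq]
    | one =>
      have e1 : θ' ⟨1, one_mem _⟩ = 1 := map_one θ'
      have e2 : θ ⟨1, one_mem _⟩ = 1 := map_one θ
      rw [e1, e2, one_zpow, one_zpow]
    | mul a b ha hb iha ihb =>
      have e1 : (⟨a * b, mul_mem ha hb⟩ : Rad e) = ⟨a, ha⟩ * ⟨b, hb⟩ := rfl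
      show θ' ⟨a * b, mul_mem ha hb⟩ ^ p = θ ⟨a * b, mul_mem ha hb⟩ ^ q
      rw [e1, map_mul, map_mul, mul_zpow, mul_zpow]
      exact congrArg₂ _ iha ihb
    | inv a ha iha =>
      have e1 : (⟨a⁻¹, inv_mem ha⟩ : Rad e) = (⟨a, ha⟩ : Rad e)⁻¹ := rfl
      show θ' ⟨a⁻¹, inv_mem ha⟩ ^ p = θ ⟨a⁻¹, inv_mem ha⟩ ^ q
      rw [e1, map_inv, map_inv, inv_zpow, inv_zpow]
      exact congrArg _ iha
  exact key x hx

/-- finitely many elements of the virtual centralizer commute with a common power -/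
theorem exists_pow_comm {e : G} {H : Subgroup G} (hfg : H.FG) (hH : H ≤ Vz e) :
    ∃ N : ℤ, N ≠ 0 ∧ H ≤ Subgroup.centralizer {e ^ N} := by
  classical
  obtain ⟨S, rfl⟩ := hfg
  have h1 : ∀ F : Finset G, (∀ x ∈ F, x ∈ Vz e) → ∃ N : ℤ, N ≠ 0 ∧ ∀ x ∈ F, Commute x (e ^ N) := by
    intro F
    induction F using Finset.induction_on with
    | empty => exact fun _ => ⟨1, one_ne_zero, fun x hx => absurd hx (Finset.notMem_empty x)⟩
    | insert a F ha ih =>
      intro hF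
      obtain ⟨N, hN, h2⟩ := ih fun x hx => hF x (Finset.mem_insert_of_mem hx)
      obtain ⟨M, hM, h3⟩ := hF a (Finset.mem_insert_self a F)
      have h3 : Commute a (e ^ M) := h3
      refine ⟨M * N, mul_ne_zero hM hN, fun x hx => ?_⟩
      rcases Finset.mem_insert.1 hx with rfl | hx
      · rw [zpow_mul]
        exact h3.zpow_right N
      · rw [mul_comm, zpow_mul]
        exact (h2 x hx).zpow_right M
  obtain ⟨N, hN, h2⟩ := h1 S fun x hx => hH (Subgroup.subset_closure hx)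
  refine ⟨N, hN, ?_⟩
  rw [Subgroup.closure_le]
  intro x hx
  exact mem_cen.2 (h2 x hx)

/-- a quotient by a smaller subgroup with abelian quotient -/
theorem C_quot_ab (hC : ClosedE C) (hM : ∀ (G : Type) [Group G], derivedSeries G 2 = ⊥ → C G)
    (D S : Subgroup G) [D.Normal] [S.Normal] (hDS : D ≤ S)
    (hab : ∀ a ∈ S, ∀ b ∈ S, (a * b)⁻¹ * (b * a) ∈ D) (hQ : C (G ⧸ S)) : C (G ⧸ D) := by
  have hNn : (S.map (QuotientGroup.mk' D)).Normal :=
    Subgroup.Normal.map inferInstance _ (QuotientGroup.mk'_surjective _)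
  obtain ⟨N, hN⟩ : ∃ N : Subgroup (G ⧸ D), N = S.map (QuotientGroup.mk' D) := ⟨_, rfl⟩
  rw [← hN] at hNn
  have hQN : C ((G ⧸ D) ⧸ N) := by
    subst hN
    exact C_equiv hC.base (QuotientGroup.quotientQuotientEquivQuotient D S hDS) hQ
  refine ab_ext hC hM N ?_ hQN
  rw [hN]
  rintro _ ⟨a, ha, rfl⟩ _ ⟨b, hb, rfl⟩
  rw [← map_mul, ← map_mul]
  exact QuotientGroup.eq.2 (hab a ha b hb)

end th

end Pool.Agent.E14.RE
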