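import Pool.Agent.E14.RE.Base

/-!
# Centralizers of elliptic elements
-/

set_option autoImplicit false

namespace Pool.Agent.E14.RE

open SimpleGraph
open scoped commutatorElement
open Pool.Agent.Y110.FJ
open Pool.Agent.N509.TK
open Pool.Agent.R941.FJ (C_equiv C_le C_cyc mem_sup_normal)
open Pool.Agent.N431.CE (Es mem_Es)
open Pool.Agent.N509.TX (AcylF C_edge of_fg of_fg_mem fg_subtree finedge STree)
open Pool.Agent.Helper270.Tree (TreeAct IsAxis IsLine)

variable {C : ∀ (G : Type) [Group G], Prop}
variable {G V : Type} [Group G] [MulAction G V] {T : SimpleGraph V}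

/-- the fixed vertices -/
def Fx (V : Type) {G : Type} [Group G] [MulAction G V] (x : G) : Set V := {v | x • v = v}

theorem Fx_smul {x z : G} (hz : z ∈ Subgroup.centralizer {x}) {v : V} (hv : v ∈ Fx V x) :
    z • v ∈ Fx V x := by
  have hz := mem_cen.1 hz
  have hv : x • v = v := hv
  show x • z • v = z • v
  rw [← mul_smul, ← hz, mul_smul, hv]

/-- the action of the centralizer -/
@[instance_reducible] def actZ (x : G) : MulAction (Subgroup.centralizer {x}) (Fx V x) where
  smul k v := ⟨(k : G) • (v : V), Fx_smul k.2 v.2⟩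
  one_smul v := Subtype.ext (one_smul G (v : V))
  mul_smul k l v := Subtype.ext (mul_smul (k : G) (l : G) (v : V))

theorem Fx_tree (hT : T.IsTree) (hact : ∀ (g : G) (u v : V), T.Adj u v → T.Adj (g • u) (g • v))
    (x : G) {v0 : V} (hv0 : v0 ∈ Fx V x) : (T.induce (Fx V x)).IsTree := by
  refine ⟨?_, hT.isAcyclic.induce _⟩
  have : Nonempty (Fx V x) := ⟨⟨v0, hv0⟩⟩
  refine ⟨fun u v => ?_⟩
  have hu' : x • (u : V) = u := u.2
  have hv' : x • (v : V) = v := v.2
  obtain ⟨p, hp, hpu⟩ := hT.existsUnique_path (u : V) (v : V)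
  -- the path is fixed
  have hfix : ∀ z ∈ p.support, x • z = z := by
    intro z hz
    let φ : T →g T := ⟨fun w => x • w, fun {a b} h => hact _ _ _ h⟩
    have hφ : Function.Injective φ := fun a b hab => smul_left_cancel _ hab
    have h1 : ((p.map φ).copy hu' hv').IsPath := by
      rw [Walk.isPath_copy]
      exact Walk.map_isPath_of_injective hφ hp
    have h2 : (p.map φ).copy hu' hv' = p := hpu _ h1
    obtain ⟨i, rfl, hi⟩ := Walk.mem_support_iff_exists_getVert.1 hz
    have h3 : ((p.map φ).copy hu' hv').getVert i = p.getVert i := by rw [h2]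
    rw [Walk.getVert_copy, Walk.getVert_map] at h3
    exact h3
  exact ⟨p.induce _ hfix⟩

/-- the quotient of the centralizer by `⟨x⟩` -/
abbrev Zq (x : G) : Type :=
  Subgroup.centralizer {x} ⧸ (Subgroup.zpowers x).subgroupOf (Subgroup.centralizer {x})

/-- the homomorphism to the permutations of the fixed vertices -/
def pq (V : Type) {G : Type} [Group G] [MulAction G V] (x : G) : Zq x →* Equiv.Perm (Fx V x) :=
  QuotientGroup.lift _ (@MulAction.toPermHom (Subgroup.centralizer {x}) (Fx V x) _ (actZ x)) (by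
    rintro ⟨z, hz⟩ hzx
    obtain ⟨i, hi⟩ := Subgroup.mem_zpowers_iff.1 (Subgroup.mem_subgroupOf.1 hzx)
    have hi : x ^ i = z := hi
    ext v
    show z • (v : V) = v
    rw [← hi]
    have h3 : x ∈ MulAction.stabilizer G (v : V) := v.2
    exact zpow_mem h3 i)

/-- the action of the quotient -/
@[instance_reducible] def actq (V : Type) {G : Type} [Group G] [MulAction G V] (x : G) :
    MulAction (Zq x) (Fx V x) :=
  MulAction.compHom _ (pq V x)

/-- **centralizers of elliptic elements** -/
theorem cen_ell (hC : ClosedE C) (hM : ∀ (G : Type) [Group G], derivedSeries G 2 = ⊥ → C G)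
    (hA : AcylF C) (hT : T.IsTree)
    (hact : ∀ (g : G) (u v : V), T.Adj u v → T.Adj (g • u) (g • v)) (x : G) (hx : Io x)
    {v0 : V} (hv0 : x • v0 = v0)
    (hV : ∀ v : V, ∀ y : MulAction.stabilizer G v, Io y → Cen C y)
    (hE : ∀ u v, T.Adj u v → Vcy (Es G u v)) : Cen C x ∧ C (Subgroup.centralizer {x}) := by
  let _ := actq V x
  have hsm : ∀ (z : Subgroup.centralizer {x}) (v : Fx V x),
      (((QuotientGroup.mk z : Zq x) • v : Fx V x) : V) = (z : G) • (v : V) := fun _ _ => rfl
  have hfix : ∀ (z : Subgroup.centralizer {x}) (v : Fx V x),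
      (QuotientGroup.mk z : Zq x) • v = v ↔ (z : G) • (v : V) = v := fun z v =>
    ⟨fun h => (hsm z v).symm.trans (congrArg Subtype.val h), fun h => Subtype.ext ((hsm z v).trans h)⟩
  have hQ : C (Zq x) := by
    refine fin_edges hC hA (T := T.induce (Fx V x)) (V := Fx V x) (Fx_tree hT hact x hv0) ?_ ?_ ?_
    · intro q u v huv
      obtain ⟨z, rfl⟩ := QuotientGroup.mk_surjective q
      exact hact (z : G) _ _ huv
    · intro u v huv
      have huv : T.Adj (u : V) (v : V) := huv
      have hxE : x ∈ Es G (u : V) (v : V) := ⟨u.2, v.2⟩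
      have hidx := (hE _ _ huv).index hxE hx
      have hfi : ((Subgroup.zpowers x).subgroupOf (Es G (u : V) (v : V))).FiniteIndex := ⟨hidx⟩
      have hout : ∀ q : Es (Zq x) u v, (((q : Zq x).out : Subgroup.centralizer {x}) : G) ∈
          Es G (u : V) (v : V) := by
        intro q
        have h1 : (QuotientGroup.mk (q : Zq x).out : Zq x) = q := QuotientGroup.out_eq' _
        obtain ⟨h2, h3⟩ := mem_Es.1 q.2
        rw [← h1] at h2 h3
        exact mem_Es.2 ⟨(hfix _ _).1 h2, (hfix _ _).1 h3⟩
      refine Finite.of_injective (β := Es G (u : V) (v : V) ⧸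
        (Subgroup.zpowers x).subgroupOf (Es G (u : V) (v : V)))
        (fun q => QuotientGroup.mk ⟨_, hout q⟩) ?_
      intro q q' hqq
      have h1 := QuotientGroup.eq.1 hqq
      rw [Subgroup.mem_subgroupOf] at h1
      have h2 : (QuotientGroup.mk (q : Zq x).out : Zq x) = QuotientGroup.mk (q' : Zq x).out := by
        refine QuotientGroup.eq.2 ?_
        rw [Subgroup.mem_subgroupOf]
        exact h1
      have h3 : ∀ q : Zq x, (QuotientGroup.mk q.out : Zq x) = q := fun q => QuotientGroup.out_eq' _
      rw [h3, h3] at h2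
      exact Subtype.ext h2
    · intro v
      have hxv : x • (v : V) = v := v.2
      obtain ⟨P, _, f, hP, hf⟩ := hV (v : V) ⟨x, hxv⟩ (by
        intro N hN h1
        have h2 := congrArg Subtype.val h1
        exact hx N hN (by simpa using h2))
      let _ := actZ (V := V) x
      let A : Subgroup (Subgroup.centralizer {x}) := MulAction.stabilizer (Subgroup.centralizer {x}) v
      let ψ : A →* MulAction.stabilizer (Zq x) v :=
        { toFun := fun z => ⟨(QuotientGroup.mk (z : Subgroup.centralizer {x}) : Zq x),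
            (hfix _ _).2 (congrArg Subtype.val z.2)⟩
          map_one' := rfl
          map_mul' := fun _ _ => rfl }
      let j : A →* Subgroup.centralizer {(⟨x, hxv⟩ : MulAction.stabilizer G (v : V))} :=
        { toFun := fun z => ⟨⟨((z : Subgroup.centralizer {x}) : G), congrArg Subtype.val z.2⟩, by
            rw [mem_cen]
            exact Subtype.ext (mem_cen.1 (z : Subgroup.centralizer {x}).2)⟩
          map_one' := rfl
          map_mul' := fun _ _ => rfl }
      refine C_of_ker hC ψ ?_ (f.comp j) hP ?_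
      · rintro ⟨q, hq⟩
        obtain ⟨z, rfl⟩ := QuotientGroup.mk_surjective q
        exact ⟨⟨z, Subtype.ext ((hfix z v).1 hq)⟩, rfl⟩
      · intro z
        show f (j z) = 1 ↔ _
        rw [hf]
        constructor
        · intro h1
          obtain ⟨i, hi⟩ := Subgroup.mem_zpowers_iff.1 h1
          refine Subtype.ext ((QuotientGroup.eq_one_iff _).2 ?_)
          rw [Subgroup.mem_subgroupOf]
          refine Subgroup.mem_zpowers_iff.2 ⟨i, ?_⟩
          exact (Subgroup.coe_zpow _ _ _).symm.trans (congrArg Subtype.val hi)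
        · intro h1
          have h2 := congrArg Subtype.val h1
          have h3 := (QuotientGroup.eq_one_iff _).1 h2
          rw [Subgroup.mem_subgroupOf] at h3
          obtain ⟨i, hi⟩ := Subgroup.mem_zpowers_iff.1 h3
          refine Subgroup.mem_zpowers_iff.2 ⟨i, Subtype.ext ?_⟩
          exact (Subgroup.coe_zpow _ _ _).trans hi
  refine ⟨⟨Zq x, inferInstance, QuotientGroup.mk' _, hQ, fun z => ?_⟩, ?_⟩
  · exact (QuotientGroup.eq_one_iff z).trans Subgroup.mem_subgroupOf
  · refine ab_ext hC hM ((Subgroup.zpowers x).subgroupOf (Subgroup.centralizer {x})) ?_ hQ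
    intro a ha b hb
    rw [Subgroup.mem_subgroupOf] at ha hb
    obtain ⟨i, hi⟩ := Subgroup.mem_zpowers_iff.1 ha
    obtain ⟨k, hk⟩ := Subgroup.mem_zpowers_iff.1 hb
    apply Subtype.ext
    show (a : G) * (b : G) = (b : G) * (a : G)
    rw [← hi, ← hk, ← zpow_add, ← zpow_add, add_comm]

end Pool.Agent.E14.RE
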