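import Pool.Agent.E14.RE.Nil

/-!
# Groups acting on trees with commensurable edge groups of rank one
-/

set_option autoImplicit false

namespace Pool.Agent.E14.RE

open SimpleGraph
open scoped commutatorElement
open Pool.Agent.Y110.FJ
open Pool.Agent.N509.TK
open Pool.Agent.R941.FJ (C_equiv C_le C_cyc mem_sup_normal)
open Pool.Agent.N431.CE (Es mem_Es)
open Pool.Agent.Helper270.Tree (TreeAct IsAxis IsLine)

variable {C : ∀ (G : Type) [Group G], Prop}
variable {G V : Type} [Group G] [MulAction G V] {T : SimpleGraph V}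

theorem tame_comm (hC : ClosedE C) (hM : ∀ (G : Type) [Group G], derivedSeries G 2 = ⊥ → C G)
    (h : TreeAct G T) (hV : ∀ v : V, Tame C (MulAction.stabilizer G v)) (hne : ∃ u v, T.Adj u v)
    (e : G) (he : Io e) (hE : ∀ u v, T.Adj u v → (∃ m : ℤ, m ≠ 0 ∧ e ^ m ∈ Es G u v) ∧
      ∃ ι : Es G u v →* QQ, Function.Injective ι) : Tame C G := by
  have hSm : ∀ u v, T.Adj u v → Sm 1 (Es G u v) := fun u v huv => Or.inr (hE u v huv).2
  have hEc : ∀ u v, T.Adj u v → ∀ a ∈ Es G u v, Io a → ∀ b ∈ Es G u v, b ≠ 1 → Cm a b :=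
    fun u v huv a ha hioa b hb hb1 => (hSm u v huv).cm ha hioa hb hb1
  have key : ∀ e : G, Io e → Qe C e ∧ Ht e := by
    intro e he
    by_cases hv : ∃ v : V, v ∈ We V e
    · obtain ⟨v0, hv0⟩ := hv
      exact (ell hC hM h e he hv0 (fun v _ => hV v) hEc).2
    · push_neg at hv
      obtain ⟨L, l, hax⟩ := h.exists_axis (g := e) fun v hev => hv v
        ⟨1, one_ne_zero, by rw [zpow_one]; exact hev⟩
      exact ⟨qe_hyp hC hM h hax (hSm _ _ (by simpa using hax.line.adj 0)), ht_hyp h hax⟩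
  refine ⟨?_, fun e he => (key e he).1, fun e he => (key e he).2⟩
  obtain ⟨u, v, huv⟩ := hne
  obtain ⟨⟨m, hm, hme⟩, -⟩ := hE u v huv
  have h1 := (ell hC hM h e he (v0 := u) ⟨m, hm, hme.1⟩ (fun v _ => hV v) hEc).1
  have h2 : ∀ g : G, g ∈ Kom e := by
    intro g
    have h3 : g * e ^ m * g⁻¹ ∈ Es G (g • u) (g • v) := Es_conj hme
    have huv' := h.adj g u v huv
    obtain ⟨⟨m', hm', hme'⟩, -⟩ := hE _ _ huv'
    have h4 : g * e ^ m * g⁻¹ ≠ 1 := by
      rw [← cj_zpow]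
      exact (he.conj g) m hm
    obtain ⟨p, q, hp, hq, h5⟩ := hEc _ _ huv' _ hme' (he.pow hm') _ h3 h4
    refine ⟨m * p, m' * q, mul_ne_zero hm hp, mul_ne_zero hm' hq, ?_⟩
    rw [zpow_mul, ← cj_zpow, h5, ← zpow_mul]
  exact hC.base.of_injective G (Kom e) ((MonoidHom.id G).codRestrict (Kom e) h2)
    (fun a b hab => congrArg Subtype.val hab) h1

end Pool.Agent.E14.RE
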