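import Pool.Agent.E14.RE.Th
import Pool.Agent.N431.CE.IsoF
import Pool.Agent.Helper270.Tree

/-!
# The commensurator of an elliptic element
-/

set_option autoImplicit false

namespace Pool.Agent.E14.RE

open SimpleGraph
open scoped commutatorElement
open Pool.Agent.Y110.FJ
open Pool.Agent.N509.TK
open Pool.Agent.R941.FJ (C_equiv C_le C_cyc mem_sup_normal)
open Pool.Agent.N431.CE (Es mem_Es)
open Pool.Agent.Helper270.Tree (TreeAct IsAxis IsLine)

variable {C : ∀ (G : Type) [Group G], Prop}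

/-- the quotient of the commensurator by the radical is in the class -/
def Qe (C : ∀ (G : Type) [Group G], Prop) {G : Type} [Group G] (e : G) : Prop :=
  ∃ (P : Type) (_ : Group P) (f : Kom e →* P), C P ∧ ∀ x, f x = 1 ↔ (x : G) ∈ Rad e

/-- `e` has infinite order -/
def Io {G : Type} [Group G] (e : G) : Prop := ∀ N : ℤ, N ≠ 0 → e ^ N ≠ 1

/-- the conditions on the vertex groups -/
structure Tame (C : ∀ (G : Type) [Group G], Prop) (G : Type) [Group G] : Prop where
  mem : C G
  quot : ∀ e : G, Io e → Qe C e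
  char : ∀ e : G, Io e → Ht e

theorem Io.pow {G : Type} [Group G] {e : G} (h : Io e) {m : ℤ} (hm : m ≠ 0) : Io (e ^ m) := by
  intro N hN h1
  rw [← zpow_mul] at h1
  exact h _ (mul_ne_zero hm hN) h1

theorem Io.congr {G : Type} [Group G] {e x : G} (h : Io e) (h' : Cm e x) : Io x := by
  obtain ⟨p, q, hp, hq, hx⟩ := h'
  intro N hN h1
  refine h (q * N) (mul_ne_zero hq hN) ?_
  rw [zpow_mul, ← hx, ← zpow_mul, mul_comm, zpow_mul, h1, one_zpow]

theorem Qe.congr {G : Type} [Group G] {e x : G} (h : Cm e x) (he : Qe C e) : Qe C x := by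
  obtain ⟨P, _, f, hP, hf⟩ := he
  refine ⟨P, _, f.comp (MulEquiv.subgroupCongr (Kom_congr h).symm).toMonoidHom, hP, fun y => ?_⟩
  rw [← Rad_congr h]
  exact hf _

/-- an element of a group acting without inversions on a tree fixes a vertex if one of its powers
does -/
theorem fix_of_pow {G V : Type} [Group G] [MulAction G V] {T : SimpleGraph V} (h : TreeAct G T)
    {x : G} {n : ℤ} (hn : n ≠ 0) {v : V} (hv : x ^ n • v = v) : ∃ w : V, x • w = w := by
  by_contra hcon
  push_neg at hcon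
  obtain ⟨L, l, hax⟩ := h.exists_axis hcon
  obtain ⟨k, hk⟩ : ∃ k : ℕ, k = n.natAbs := ⟨_, rfl⟩
  have hk0 : k ≠ 0 := by
    rw [hk]
    exact Int.natAbs_ne_zero.2 hn
  have hkv : x ^ (k : ℤ) • v = v := by
    rcases Int.natAbs_eq n with h1 | h1
    · rw [h1, ← hk] at hv
      exact hv
    · rw [h1, ← hk, zpow_neg, inv_smul_eq_iff] at hv
      exact hv.symm
  have hax' : IsAxis T (x ^ (k : ℤ)) L (k * l) := by
    refine ⟨hax.line, Nat.mul_pos (Nat.pos_of_ne_zero hk0) hax.pos, fun i => ?_⟩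
    rw [hax.smul_zpow]
    push_cast
    rfl
  obtain ⟨i, -, h2⟩ := h.proj_between hax' v
  rw [hkv, SimpleGraph.dist_self] at h2
  have := Nat.mul_pos (Nat.pos_of_ne_zero hk0) hax.pos
  omega

section rv

variable {G V : Type} [Group G] [MulAction G V]

/-- the subgroup of the stabilizer of `v` generated by the elements commensurable with `e` -/
def Rv (e : G) (v : V) : Subgroup G := Subgroup.closure {x | x • v = v ∧ Cm e x}

theorem Rv_fix {e x : G} {v : V} (h : x ∈ Rv e v) : x • v = v := by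
  have h1 : Rv e v ≤ MulAction.stabilizer G v := by
    rw [Rv, Subgroup.closure_le]
    exact fun x hx => hx.1
  exact h1 h

theorem Rv_le_Rad (e : G) (v : V) : Rv e v ≤ Rad e := by
  rw [Rv, Subgroup.closure_le]
  exact fun x hx => Subgroup.subset_closure hx.2

theorem Rv_conj {e k x : G} {v : V} (hk : k ∈ Kom e) (hx : x ∈ Rv e v) :
    k * x * k⁻¹ ∈ Rv e (k • v) := by
  have h1 : Rv e v ≤ (Rv e (k • v)).comap (MulAut.conj k).toMonoidHom := by
    rw [Rv, Subgroup.closure_le]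
    rintro x ⟨hx1, hx2⟩
    refine Subgroup.subset_closure ⟨?_, hx2.conj hk⟩
    show (k * x * k⁻¹) • k • v = k • v
    rw [mul_smul, inv_smul_smul, mul_smul, hx1]
  exact h1 hx

/-- commensurability in a subgroup -/
theorem Cm_sub {A : Subgroup G} {e x : A} : Cm e x ↔ Cm (e : G) (x : G) := by
  constructor
  · rintro ⟨p, q, hp, hq, h⟩
    exact ⟨p, q, hp, hq, by
      have := congrArg Subtype.val h
      rwa [Subgroup.coe_zpow, Subgroup.coe_zpow] at this⟩
  · rintro ⟨p, q, hp, hq, h⟩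
    exact ⟨p, q, hp, hq, Subtype.ext (by rw [Subgroup.coe_zpow, Subgroup.coe_zpow, h])⟩

/-- the radical in the stabilizer of `v` -/
theorem Rad_map {e : G} {v : V} {m : ℤ} (hm : m ≠ 0) (hv : e ^ m • v = v) :
    (Rad (⟨e ^ m, hv⟩ : MulAction.stabilizer G v)).map (MulAction.stabilizer G v).subtype =
      Rv e v := by
  rw [Rad, Rv, MonoidHom.map_closure]
  congr 1
  ext x
  constructor
  · rintro ⟨y, hy, rfl⟩
    refine ⟨y.2, ?_⟩
    have h1 : Cm (e ^ m) (y : G) := Cm_sub.1 hy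
    exact (Cm.pow e hm).trans h1
  · rintro ⟨h1, h2⟩
    refine ⟨⟨x, h1⟩, ?_, rfl⟩
    have h3 : Cm (e ^ m) x := (Cm.pow e hm).symm.trans h2
    exact Cm_sub.2 h3

theorem Vz_sub {A : Subgroup G} {e x : A} : x ∈ Vz e ↔ (x : G) ∈ Vz (e : G) := by
  constructor
  · rintro ⟨p, hp, h⟩
    refine ⟨p, hp, ?_⟩
    have := congrArg Subtype.val h
    simpa using this
  · rintro ⟨p, hp, h⟩
    refine ⟨p, hp, Subtype.ext ?_⟩
    simpa using h

theorem Kom_sub {A : Subgroup G} {e x : A} : x ∈ Kom e ↔ (x : G) ∈ Kom (e : G) := by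
  constructor
  · rintro ⟨p, q, hp, hq, h⟩
    refine ⟨p, q, hp, hq, ?_⟩
    have := congrArg Subtype.val h
    simpa using this
  · rintro ⟨p, q, hp, hq, h⟩
    refine ⟨p, q, hp, hq, Subtype.ext ?_⟩
    simpa using h

theorem Vz_congr {e x : G} (h : Cm e x) : Vz e = Vz x := by
  have key : ∀ e x : G, Cm e x → Vz e ≤ Vz x := by
    rintro e x ⟨p, q, hp, hq, h⟩ k ⟨r, hr, hk⟩
    have hk : Commute k (e ^ r) := hk
    refine ⟨p * r, mul_ne_zero hp hr, ?_⟩
    rw [zpow_mul, h, ← zpow_mul, mul_comm, zpow_mul]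
    exact hk.zpow_right q
  exact le_antisymm (key e x h) (key x e h.symm)

theorem mem_Rad_iff {e x : G} {v : V} {m : ℤ} (hm : m ≠ 0) (hv : e ^ m • v = v) (hx : x • v = v) :
    (⟨x, hx⟩ : MulAction.stabilizer G v) ∈ Rad (⟨e ^ m, hv⟩ : MulAction.stabilizer G v) ↔
      x ∈ Rv e v := by
  rw [← Rad_map hm hv]
  constructor
  · intro h
    exact ⟨_, h, rfl⟩
  · rintro ⟨y, hy, hyx⟩
    have : y = ⟨x, hx⟩ := Subtype.ext hyx
    rwa [← this]

end rv

section ell

variable {G V : Type} [Group G] [MulAction G V] {T : SimpleGraph V}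

/-- the vertices fixed by nontrivial powers of `e` -/
def We (V : Type) {G : Type} [Group G] [MulAction G V] (e : G) : Set V :=
  {v | ∃ m : ℤ, m ≠ 0 ∧ e ^ m • v = v}

theorem We_smul {e k : G} (hk : k ∈ Kom e) {v : V} (hv : v ∈ We V e) : k • v ∈ We V e := by
  obtain ⟨m, hm, hv⟩ := hv
  obtain ⟨p, q, hp, hq, hk⟩ := hk
  refine ⟨q * m, mul_ne_zero hq hm, ?_⟩
  have h1 : e ^ (q * m) = k * e ^ (m * p) * k⁻¹ := by
    rw [zpow_mul, ← hk, cj_zpow, ← zpow_mul, mul_comm m p]
  have h2 : e ^ (m * p) • v = v := by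
    rw [zpow_mul]
    have h3 : e ^ m ∈ MulAction.stabilizer G v := hv
    exact zpow_mem h3 p
  rw [h1, mul_smul, inv_smul_smul, mul_smul, h2]

/-- the action of the commensurator -/
@[instance_reducible] def actW (e : G) : MulAction (Kom e) (We V e) where
  smul k v := ⟨(k : G) • (v : V), We_smul k.2 v.2⟩
  one_smul v := Subtype.ext (one_smul G (v : V))
  mul_smul k l v := Subtype.ext (mul_smul (k : G) (l : G) (v : V))

theorem We_tree (hT : T.IsTree) (hact : ∀ (g : G) (u v : V), T.Adj u v → T.Adj (g • u) (g • v))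
    (e : G) {v0 : V} (hv0 : v0 ∈ We V e) : (T.induce (We V e)).IsTree := by
  refine ⟨?_, hT.isAcyclic.induce _⟩
  have : Nonempty (We V e) := ⟨⟨v0, hv0⟩⟩
  refine ⟨fun u v => ?_⟩
  obtain ⟨m, hm, hu⟩ := u.2
  obtain ⟨n, hn, hv⟩ := v.2
  have hu' : e ^ (m * n) • (u : V) = u := by
    rw [zpow_mul]
    have h3 : e ^ m ∈ MulAction.stabilizer G (u : V) := hu
    exact zpow_mem h3 n
  have hv' : e ^ (m * n) • (v : V) = v := by
    rw [mul_comm, zpow_mul]
    have h3 : e ^ n ∈ MulAction.stabilizer G (v : V) := hv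
    exact zpow_mem h3 m
  obtain ⟨p, hp, hpu⟩ := hT.existsUnique_path (u : V) (v : V)
  -- the path is fixed
  have hfix : ∀ z ∈ p.support, e ^ (m * n) • z = z := by
    intro z hz
    let φ : T →g T := ⟨fun w => e ^ (m * n) • w, fun {a b} h => hact _ _ _ h⟩
    have hφ : Function.Injective φ := fun a b hab => smul_left_cancel _ hab
    have h1 : ((p.map φ).copy hu' hv').IsPath := by
      rw [Walk.isPath_copy]
      exact Walk.map_isPath_of_injective hφ hp
    have h2 : (p.map φ).copy hu' hv' = p := hpu _ h1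
    obtain ⟨i, rfl, hi⟩ := Walk.mem_support_iff_exists_getVert.1 hz
    have h3 : ((p.map φ).copy hu' hv').getVert i = p.getVert i := by rw [h2]
    rw [Walk.getVert_copy, Walk.getVert_map] at h3
    exact h3
  have hmem : ∀ z ∈ p.support, z ∈ We V e := fun z hz => ⟨m * n, mul_ne_zero hm hn, hfix z hz⟩
  exact ⟨p.induce _ hmem⟩

end ell

end Pool.Agent.E14.RE
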