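import Pool.Agent.E14.RE.Ell

/-!
# The commensurator of an elliptic element: the theorem
-/

set_option autoImplicit false

namespace Pool.Agent.E14.RE

open SimpleGraph
open scoped commutatorElement
open Pool.Agent.Y110.FJ
open Pool.Agent.N509.TK
open Pool.Agent.R941.FJ (C_equiv C_le C_cyc mem_sup_normal)
open Pool.Agent.N431.CE (Es mem_Es)
open Pool.Agent.Helper270.Tree (TreeAct IsAxis IsLine)

variable {C : ∀ (G : Type) [Group G], Prop}
variable {G V : Type} [Group G] [MulAction G V] {T : SimpleGraph V}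

theorem C_comm (hM : ∀ (G : Type) [Group G], derivedSeries G 2 = ⊥ → C G) {Q : Type} [Group Q]
    (h : ∀ x y : Q, ⁅x, y⁆ = 1) : C Q := by
  refine hM Q (metab (⊥ : Subgroup Q) ?_ ?_)
  · intro x hx y hy
    rw [Subgroup.mem_bot] at hx hy
    rw [hx, hy]
  · intro x y
    rw [h x y]
    exact one_mem _

/-- the contradiction: `x` is commensurable with `e` and a product of commutators -/
theorem no_comm {e : G} {v : V} {m : ℤ} (hm : m ≠ 0) (hv : e ^ m • v = v)
    (hH : Ht (⟨e ^ m, hv⟩ : MulAction.stabilizer G v)) {x : G} (hx : Cm e x)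
    (hxc : x ∈ ⁅Rv e v, MulAction.stabilizer G v ⊓ Vz e⁆) : False := by
  obtain ⟨θ, hθ⟩ := hH
  have h1 : Rv e v = (Rad (⟨e ^ m, hv⟩ : MulAction.stabilizer G v)).map
      (MulAction.stabilizer G v).subtype := (Rad_map hm hv).symm
  have h2 : MulAction.stabilizer G v ⊓ Vz e =
      (Vz (⟨e ^ m, hv⟩ : MulAction.stabilizer G v)).map (MulAction.stabilizer G v).subtype := by
    ext y
    constructor
    · rintro ⟨hy1, hy2⟩
      refine ⟨⟨y, hy1⟩, ?_, rfl⟩
      show (⟨y, hy1⟩ : MulAction.stabilizer G v) ∈ Vz _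
      rw [Vz_sub]
      show y ∈ Vz (e ^ m)
      rw [← Vz_congr (Cm.pow e hm)]
      exact hy2
    · rintro ⟨y, hy, rfl⟩
      refine ⟨y.2, ?_⟩
      have h3 : (y : G) ∈ Vz (e ^ m) := Vz_sub.1 hy
      rw [← Vz_congr (Cm.pow e hm)] at h3
      exact h3
  rw [h1, h2, ← Subgroup.map_commutator] at hxc
  obtain ⟨y, hy, rfl⟩ := hxc
  have h3 : Cm (⟨e ^ m, hv⟩ : MulAction.stabilizer G v) y := by
    rw [Cm_sub]
    exact (Cm.pow e hm).symm.trans hx
  have h4 : y ∈ Rad (⟨e ^ m, hv⟩ : MulAction.stabilizer G v) := Subgroup.subset_closure h3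
  exact th_ne θ hθ h3 h4 (th_comm θ hy h4)

/-- **the commensurator of an elliptic element** -/
theorem ell (hC : ClosedE C) (hM : ∀ (G : Type) [Group G], derivedSeries G 2 = ⊥ → C G)
    (h : TreeAct G T) (e : G) (he : Io e) {v0 : V} (hv0 : v0 ∈ We V e)
    (hV : ∀ v ∈ We V e, Tame C (MulAction.stabilizer G v))
    (hE : ∀ u v, T.Adj u v → ∀ a ∈ Es G u v, Io a → ∀ b ∈ Es G u v, b ≠ 1 → Cm a b) :
    C (Kom e) ∧ Qe C e ∧ Ht e := by
  let _ := actW (V := V) e
  have hsm : ∀ (k : Kom e) (w : We V e), ((k • w : We V e) : V) = (k : G) • (w : V) :=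
    fun _ _ => rfl
  obtain ⟨L, hL⟩ : ∃ L : Subgroup (Kom e), L = (Vz e).subgroupOf (Kom e) := ⟨_, rfl⟩
  have memL : ∀ k : Kom e, k ∈ L ↔ (k : G) ∈ Vz e := by
    intro k
    rw [hL, Subgroup.mem_subgroupOf]
  obtain ⟨M, hMd⟩ : ∃ M : We V e → Subgroup (Kom e), M = fun w : We V e => (Rv e (w : V)).subgroupOf (Kom e) :=
    ⟨_, rfl⟩
  have memM : ∀ (w : We V e) (k : Kom e), k ∈ M w ↔ (k : G) ∈ Rv e (w : V) := by
    intro w k
    rw [hMd, Subgroup.mem_subgroupOf]
  have hLn : L.Normal := ⟨fun x hx k => (memL _).2 (Vz_conj k.2 ((memL _).1 hx))⟩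
  have hQ : C (Kom e ⧸ L) := by
    refine C_comm hM fun x y => ?_
    obtain ⟨a, rfl⟩ := QuotientGroup.mk_surjective x
    obtain ⟨b, rfl⟩ := QuotientGroup.mk_surjective y
    refine (QuotientGroup.eq_one_iff ⁅a, b⁆).2 ?_
    rw [memL]
    exact comm_Vz a.2 b.2
  have hT := We_tree h.isTree h.adj e hv0
  have hact : ∀ (k : Kom e) (u v : We V e), (T.induce (We V e)).Adj u v →
      (T.induce (We V e)).Adj (k • u) (k • v) := fun k u v huv => h.adj (k : G) _ _ huv
  have hSb : ∀ (w : We V e) (k : Kom e), k ∈ Sb L w ↔ (k : G) • (w : V) = w ∧ (k : G) ∈ Vz e := by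
    intro w k
    rw [mem_Sb, memL]
    exact and_congr_left fun _ => ⟨fun h => congrArg Subtype.val h, fun h => Subtype.ext h⟩
  have hR : Rd (T.induce (We V e)) L M := by
    refine ⟨fun w k hk => ?_, fun k w x hx => ?_, fun u w huw x hxu hxw => ?_⟩
    · rw [memM] at hk
      rw [hSb]
      exact ⟨Rv_fix hk, Rad_le_Vz e (Rv_le_Rad e _ hk)⟩
    · rw [memM] at hx ⊢
      exact Rv_conj k.2 hx
    · rw [hSb] at hxu hxw
      rw [memM]
      have huw : T.Adj (u : V) (w : V) := huw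
      obtain ⟨m, hm, hu⟩ := u.2
      obtain ⟨n, hn, hw⟩ := w.2
      have h1 : e ^ (m * n) ∈ Es G (u : V) (w : V) := by
        rw [mem_Es]
        constructor
        · rw [zpow_mul]
          have h3 : e ^ m ∈ MulAction.stabilizer G (u : V) := hu
          exact zpow_mem h3 n
        · rw [mul_comm, zpow_mul]
          have h3 : e ^ n ∈ MulAction.stabilizer G (w : V) := hw
          exact zpow_mem h3 m
      by_cases hx1 : (x : G) = 1
      · rw [hx1]
        exact one_mem _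
      · have h2 := hE _ _ huw _ h1 (he.pow (mul_ne_zero hm hn)) x ⟨hxu.1, hxw.1⟩ hx1
        exact Subgroup.subset_closure ⟨hxu.1, (Cm.pow e (mul_ne_zero hm hn)).trans h2⟩
  have hsup : (⨆ w, M w).map (Kom e).subtype = Rad e := by
    apply le_antisymm
    · rw [Subgroup.map_iSup]
      refine iSup_le fun w => ?_
      rintro _ ⟨k, hk, rfl⟩
      exact Rv_le_Rad e _ ((memM w k).1 hk)
    · rw [Rad, Subgroup.closure_le]
      intro x hx
      have hx : Cm e x := hx
      obtain ⟨m0, hm0, hv0'⟩ := hv0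
      obtain ⟨p, q, hp, hq, hpq⟩ := id hx
      have h1 : x ^ (p * m0) • v0 = v0 := by
        rw [zpow_mul, hpq, ← zpow_mul, mul_comm, zpow_mul]
        have h3 : e ^ m0 ∈ MulAction.stabilizer G v0 := hv0'
        exact zpow_mem h3 q
      obtain ⟨v1, hv1⟩ := fix_of_pow h (mul_ne_zero hp hm0) h1
      have h2 : v1 ∈ We V e := by
        refine ⟨q, hq, ?_⟩
        rw [← hpq]
        have h3 : x ∈ MulAction.stabilizer G v1 := hv1
        exact zpow_mem h3 p
      refine ⟨⟨x, hx.mem_Kom⟩, ?_, rfl⟩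
      have h3 : (⟨x, hx.mem_Kom⟩ : Kom e) ∈ M ⟨v1, h2⟩ := by
        rw [memM]
        exact Subgroup.subset_closure ⟨hv1, hx⟩
      exact le_iSup M _ h3
  have memS : ∀ k : Kom e, k ∈ ⨆ w, M w ↔ (k : G) ∈ Rad e := by
    intro k
    rw [← hsup]
    constructor
    · intro hk
      exact ⟨k, hk, rfl⟩
    · rintro ⟨y, hy, hyk⟩
      have : y = k := Subtype.ext hyk
      rwa [← this]
  have hio : ∀ (v : V) (m : ℤ) (hm : m ≠ 0) (hv : e ^ m • v = v),
      Io (⟨e ^ m, hv⟩ : MulAction.stabilizer G v) := by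
    intro v m hm hv N hN h1
    have h2 := congrArg Subtype.val h1
    exact he.pow hm N hN (by simpa using h2)
  have hQV : QV C M := by
    intro w
    obtain ⟨m, hm, hw⟩ := id w.2
    obtain ⟨P, _, f, hP, hf⟩ := (hV w w.2).quot ⟨e ^ m, hw⟩ (hio _ m hm hw)
    let j : MulAction.stabilizer (Kom e) w →* Kom (⟨e ^ m, hw⟩ : MulAction.stabilizer G (w : V)) :=
      { toFun := fun x => ⟨⟨((x : Kom e) : G), congrArg Subtype.val x.2⟩, by
          rw [Kom_sub]
          show ((x : Kom e) : G) ∈ Kom (e ^ m)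
          rw [← Kom_congr (Cm.pow e hm)]
          exact (x : Kom e).2⟩
        map_one' := rfl
        map_mul' := fun _ _ => rfl }
    refine ⟨P, _, f.comp j, hP, fun x => ?_⟩
    show f (j x) = 1 ↔ _
    rw [hf, memM]
    exact mem_Rad_iff hm hw (congrArg Subtype.val x.2)
  have hnc : ∀ (w : We V e) (x : Kom e), Cm e (x : G) → x ∉ ⁅M w, Sb L w⁆ := by
    intro w x hx hxc
    obtain ⟨m, hm, hw⟩ := id w.2
    refine no_comm hm hw ((hV w w.2).char _ (hio _ m hm hw)) hx ?_
    have h1 : (⁅M w, Sb L w⁆).map (Kom e).subtype ≤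
        ⁅Rv e (w : V), MulAction.stabilizer G (w : V) ⊓ Vz e⁆ := by
      rw [Subgroup.map_commutator]
      refine Subgroup.commutator_mono ?_ ?_
      · rintro _ ⟨y, hy, rfl⟩
        exact (memM w y).1 hy
      · rintro _ ⟨y, hy, rfl⟩
        exact (hSb w y).1 hy
    exact h1 ⟨x, hxc, rfl⟩
  have hE' : ∀ v u, (T.induce (We V e)).Adj v u → ∀ x ∈ Sb L v, x ∈ Sb L u → x ∈ ⁅M v, Sb L v⁆ →
      x = 1 := by
    intro v u hvu x hxv hxu hxc
    by_contra hx1
    have hx1' : (x : G) ≠ 1 := fun h1 => hx1 (Subtype.ext h1)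
    have hvu : T.Adj (v : V) (u : V) := hvu
    rw [hSb] at hxv hxu
    obtain ⟨m, hm, hu⟩ := v.2
    obtain ⟨n, hn, hw⟩ := u.2
    have h1 : e ^ (m * n) ∈ Es G (v : V) (u : V) := by
      rw [mem_Es]
      constructor
      · rw [zpow_mul]
        have h3 : e ^ m ∈ MulAction.stabilizer G (v : V) := hu
        exact zpow_mem h3 n
      · rw [mul_comm, zpow_mul]
        have h3 : e ^ n ∈ MulAction.stabilizer G (u : V) := hw
        exact zpow_mem h3 m
    have h2 := hE _ _ hvu _ h1 (he.pow (mul_ne_zero hm hn)) x ⟨hxv.1, hxu.1⟩ hx1'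
    exact hnc v x ((Cm.pow e (mul_ne_zero hm hn)).trans h2) hxc
  have hVs : ∀ (v : We V e) (g : Kom e), g • v = v → C ↥(Sb L v ⊔ Subgroup.zpowers g) := by
    intro v g hg
    refine hC.base.of_injective _ _ (((Kom e).subtype.comp (Subgroup.subtype
      (Sb L v ⊔ Subgroup.zpowers g))).codRestrict (MulAction.stabilizer G (v : V)) ?_) ?_
      (hV v v.2).mem
    · rintro ⟨z, hz⟩
      have h1 : Sb L v ⊔ Subgroup.zpowers g ≤
          (MulAction.stabilizer G (v : V)).comap (Kom e).subtype := by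
        refine sup_le ?_ ?_
        · intro z hz
          exact ((hSb v z).1 hz).1
        · rw [Subgroup.zpowers_le]
          exact congrArg Subtype.val hg
      exact h1 hz
    · intro a b hab
      have h1 := congrArg Subtype.val hab
      exact Subtype.ext (Subtype.ext h1)
  refine ⟨hR.main hC hM hT hact hQ hQV hE' hVs, ?_, ?_⟩
  · have hn := hR.normal
    refine ⟨Kom e ⧸ ⨆ w, M w, inferInstance, QuotientGroup.mk' _,
      hR.quot hC hT hact hQ hQV, fun x => ?_⟩
    rw [← memS]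
    exact QuotientGroup.eq_one_iff x
  · refine Ht.of_notMem fun N hN hcon => ?_
    obtain ⟨m, hm, hw⟩ := id hv0
    have h1 : e ^ (m * N) ∈ ⁅Rad e, Rad e⁆ := by
      rw [mul_comm, zpow_mul]
      exact zpow_mem hcon m
    rw [← hsup, ← Subgroup.map_commutator] at h1
    obtain ⟨y, hy, hye⟩ := h1
    have hye : (y : G) = e ^ (m * N) := hye
    have hy2 : y ∈ M ⟨v0, hv0⟩ := by
      rw [memM, hye]
      refine Subgroup.subset_closure ⟨?_, Cm.pow e (mul_ne_zero hm hN)⟩
      rw [zpow_mul]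
      have h3 : e ^ m ∈ MulAction.stabilizer G v0 := hw
      exact zpow_mem h3 N
    have h2 := hR.h1 hT hact hE' ⟨v0, hv0⟩ hy2
      (Subgroup.commutator_mono le_rfl hR.sup_le hy)
    refine hnc ⟨v0, hv0⟩ y ?_ h2
    rw [hye]
    exact Cm.pow e (mul_ne_zero hm hN)

end Pool.Agent.E14.RE
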