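import Pool.Agent.E14.RE.Canon

/-!
# The commensurator of an elliptic element: virtually cyclic edge groups
-/

set_option autoImplicit false

namespace Pool.Agent.E14.RE

open SimpleGraph
open scoped commutatorElement
open Pool.Agent.Y110.FJ
open Pool.Agent.N509.TK
open Pool.Agent.R941.FJ (C_equiv C_le C_cyc mem_sup_normal)
open Pool.Agent.N431.CE (Es mem_Es)
open Pool.Agent.N509.TX (AcylF C_edge of_fg of_fg_mem fg_subtree finedge STree)
open Pool.Agent.Helper270.Tree (TreeAct IsAxis IsLine)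

variable {C : ∀ (G : Type) [Group G], Prop}
variable {G V : Type} [Group G] [MulAction G V] {T : SimpleGraph V}

theorem We_two {e : G} (u w : We V e) : ∃ t : ℤ, t ≠ 0 ∧ e ^ t ∈ Es G (u : V) (w : V) := by
  obtain ⟨m, hm, hu⟩ := u.2
  obtain ⟨n, hn, hw⟩ := w.2
  refine ⟨m * n, mul_ne_zero hm hn, ?_, ?_⟩
  · rw [zpow_mul]
    have h3 : e ^ m ∈ MulAction.stabilizer G (u : V) := hu
    exact zpow_mem h3 n
  · rw [mul_comm, zpow_mul]
    have h3 : e ^ n ∈ MulAction.stabilizer G (w : V) := hw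
    exact zpow_mem h3 m

/-- subgroups `Γ` of the commensurator whose commutators are in the kernel of a normalized
character -/
theorem sub_ell (hC : ClosedE C) (hM : ∀ (G : Type) [Group G], derivedSeries G 2 = ⊥ → C G)
    (hA : AcylF C) (h : TreeAct G T) (e : G) (he : Io e) {v0 : V} (hv0 : v0 ∈ We V e)
    (hV : ∀ v : V, C (MulAction.stabilizer G v))
    (hVc : ∀ v : V, ∀ y : MulAction.stabilizer G v, Io y → Cen C y)
    (hE : ∀ u v, T.Adj u v → Vcy (Es G u v)) (θ : Rad e →* QQ)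
    (hθ : θ ⟨e, self_mem_Rad e⟩ ≠ 1) (Γ : Subgroup G) (hΓ : Γ ≤ Kom e)
    (hc : ∀ a ∈ Γ, ∀ b ∈ Γ, ∃ hab : ⁅a, b⁆ ∈ Rad e, θ ⟨⁅a, b⁆, hab⟩ = 1) : C Γ := by
  by_cases hcase : ∃ x ∈ Γ, Cm e x
  · -- a power of `e`
    obtain ⟨x, hxΓ, p, q, hp, hq, hxe⟩ := hcase
    have heΓ : e ^ q ∈ Γ := by
      rw [← hxe]
      exact zpow_mem hxΓ p
    have hVz : Γ ≤ Vz e := by
      intro γ hγ
      obtain ⟨r, s, hr, hs, hrs⟩ := hΓ hγ
      obtain ⟨hab, h1⟩ := hc γ hγ ((e ^ q) ^ r) (zpow_mem heΓ r)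
      have h2 : ⁅γ, (e ^ q) ^ r⁆ = e ^ (s * q - r * q) := by
        rw [commutatorElement_def, ← zpow_mul, mul_comm q r, zpow_mul e r q, ← cj_zpow, hrs,
          ← zpow_mul, ← zpow_mul, ← zpow_neg, ← zpow_add, sub_eq_add_neg]
      have h3 := th_val θ hab (p := 1) (q := s * q - r * q) (by rw [zpow_one, h2])
      rw [h1, one_zpow] at h3
      have h4 : s * q - r * q = 0 := by
        by_contra hne
        exact hθ (QQ.eq_one hne h3.symm)
      have h5 : s = r := by
        have h6 : (s - r) * q = 0 := by linarith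
        rcases mul_eq_zero.1 h6 with h7 | h7
        · omega
        · exact absurd h7 hq
      refine ⟨r, hr, ?_⟩
      rw [h5] at hrs
      exact mul_inv_eq_iff_eq_mul.1 hrs
    refine of_fg hC fun H hH => ?_
    have hH' : (H.map Γ.subtype).FG := by
      classical
      rw [Group.fg_iff_subgroup_fg] at hH
      obtain ⟨S, hS⟩ := hH
      refine ⟨S.image Γ.subtype, ?_⟩
      rw [Finset.coe_image, ← MonoidHom.map_closure, hS]
    obtain ⟨N, hN, hHN⟩ := exists_pow_comm hH' (fun y hy => by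
      obtain ⟨z, -, rfl⟩ := hy
      exact hVz z.2)
    obtain ⟨m, hm, hmv⟩ := hv0
    have h1 : (e ^ N) ^ m • v0 = v0 := by
      rw [← zpow_mul, mul_comm, zpow_mul]
      have h3 : e ^ m ∈ MulAction.stabilizer G v0 := hmv
      exact zpow_mem h3 N
    obtain ⟨w, hw⟩ := fix_of_pow h hm h1
    have h2 := (cen_ell hC hM hA h.isTree h.adj (e ^ N) (he.pow hN) hw
      hVc hE).2
    refine hC.base.of_injective _ _ ((Γ.subtype.comp H.subtype).codRestrict
      (Subgroup.centralizer {e ^ N}) fun y => hHN ⟨y, y.2, rfl⟩) ?_ h2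
    intro a b hab
    have h1 := congrArg Subtype.val hab
    exact Subtype.ext (Subtype.ext h1)
  · -- finite edge groups
    push_neg at hcase
    let _ : MulAction Γ (We V e) :=
      { smul := fun k v => ⟨(k : G) • (v : V), We_smul (hΓ k.2) v.2⟩
        one_smul := fun v => Subtype.ext (one_smul G (v : V))
        mul_smul := fun k l v => Subtype.ext (mul_smul (k : G) (l : G) (v : V)) }
    have hfx : ∀ (k : Γ) (w : We V e), k • w = w ↔ (k : G) • (w : V) = w := fun k w =>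
      ⟨fun h => congrArg Subtype.val h, fun h => Subtype.ext h⟩
    refine fin_edges hC hA (T := T.induce (We V e)) (We_tree h.isTree h.adj e hv0) ?_ ?_ ?_
    · intro k u v huv
      exact h.adj (k : G) _ _ huv
    · intro u w huw
      have huw : T.Adj (u : V) (w : V) := huw
      obtain ⟨t, ht, het⟩ := We_two u w
      have hfin : Finite (Γ ⊓ Es G (u : V) (w : V) : Subgroup G) := by
        refine (hE _ _ huw).finite inf_le_right fun x hx hio => ?_
        exact hcase x hx.1 ((Cm.pow e ht).trans ((hE _ _ huw).cm het (he.pow ht) hx.2 hio))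
      refine Finite.of_injective (β := (Γ ⊓ Es G (u : V) (w : V) : Subgroup G))
        (fun k => ⟨((k : Γ) : G), (k : Γ).2, (hfx _ _).1 k.2.1, (hfx _ _).1 k.2.2⟩) ?_
      intro a b hab
      have h1 : ((a : Γ) : G) = ((b : Γ) : G) :=
        congrArg (fun x : (Γ ⊓ Es G (u : V) (w : V) : Subgroup G) => (x : G)) hab
      exact Subtype.ext (Subtype.ext h1)
    · intro w
      refine hC.base.of_injective _ _ ((Γ.subtype.comp (Subgroup.subtype
        (MulAction.stabilizer Γ w))).codRestrict (MulAction.stabilizer G (w : V)) ?_) ?_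
        (hV (w : V))
      · rintro ⟨k, hk⟩
        exact (hfx k w).1 hk
      · intro a b hab
        have h1 := congrArg Subtype.val hab
        exact Subtype.ext (Subtype.ext h1)

/-- **the commensurator of an elliptic element** -/
theorem ell3 (hC : ClosedE C) (hM : ∀ (G : Type) [Group G], derivedSeries G 2 = ⊥ → C G)
    (hA : AcylF C) (h : TreeAct G T) (e : G) (he : Io e) {v0 : V} (hv0 : v0 ∈ We V e)
    (hV : ∀ v : V, C (MulAction.stabilizer G v))
    (hVc : ∀ v : V, ∀ y : MulAction.stabilizer G v, Io y → Cen C y)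
    (hVt : ∀ (v : V) (m : ℤ) (hv : e ^ m • v = v), m ≠ 0 →
      Qe C (⟨e ^ m, hv⟩ : MulAction.stabilizer G v) ∧ Ht (⟨e ^ m, hv⟩ : MulAction.stabilizer G v))
    (hE : ∀ u v, T.Adj u v → Vcy (Es G u v)) : C (Kom e) ∧ Qe C e ∧ Ht e := by
  let _ := actW (V := V) e
  have hsm : ∀ (k : Kom e) (w : We V e), ((k • w : We V e) : V) = (k : G) • (w : V) :=
    fun _ _ => rfl
  obtain ⟨L, hL⟩ : ∃ L : Subgroup (Kom e), L = (Vz e).subgroupOf (Kom e) := ⟨_, rfl⟩
  have memL : ∀ k : Kom e, k ∈ L ↔ (k : G) ∈ Vz e := by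
    intro k
    rw [hL, Subgroup.mem_subgroupOf]
  obtain ⟨M, hMd⟩ : ∃ M : We V e → Subgroup (Kom e), M = fun w : We V e =>
      (Rv e (w : V)).subgroupOf (Kom e) := ⟨_, rfl⟩
  have memM : ∀ (w : We V e) (k : Kom e), k ∈ M w ↔ (k : G) ∈ Rv e (w : V) := by
    intro w k
    rw [hMd, Subgroup.mem_subgroupOf]
  have hLn : L.Normal := ⟨fun x hx k => (memL _).2 (Vz_conj k.2 ((memL _).1 hx))⟩
  have hQ : C (Kom e ⧸ L) := by
    refine C_comm hM fun x y => ?_
    obtain ⟨a, rfl⟩ := QuotientGroup.mk_surjective x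
    obtain ⟨b, rfl⟩ := QuotientGroup.mk_surjective y
    refine (QuotientGroup.eq_one_iff ⁅a, b⁆).2 ?_
    rw [memL]
    exact comm_Vz a.2 b.2
  have hT := We_tree h.isTree h.adj e hv0
  have hact : ∀ (k : Kom e) (u v : We V e), (T.induce (We V e)).Adj u v →
      (T.induce (We V e)).Adj (k • u) (k • v) := fun k u v huv => h.adj (k : G) _ _ huv
  have hSb : ∀ (w : We V e) (k : Kom e), k ∈ Sb L w ↔ (k : G) • (w : V) = w ∧ (k : G) ∈ Vz e := by
    intro w k
    rw [mem_Sb, memL]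
    exact and_congr_left fun _ => ⟨fun h => congrArg Subtype.val h, fun h => Subtype.ext h⟩
  have hR : Rd (T.induce (We V e)) L M := by
    refine ⟨fun w k hk => ?_, fun k w x hx => ?_, fun u w huw x hxu hxw => ?_⟩
    · rw [memM] at hk
      rw [hSb]
      exact ⟨Rv_fix hk, Rad_le_Vz e (Rv_le_Rad e _ hk)⟩
    · rw [memM] at hx ⊢
      exact Rv_conj k.2 hx
    · rw [hSb] at hxu hxw
      rw [memM]
      have huw : T.Adj (u : V) (w : V) := huw
      obtain ⟨t, ht, het⟩ := We_two u w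
      exact rv_edge ⟨hxu.1, hxw.1⟩ hxu.2 ht het he (hE _ _ huw)
  have hsup : (⨆ w, M w).map (Kom e).subtype = Rad e := by
    apply le_antisymm
    · rw [Subgroup.map_iSup]
      refine iSup_le fun w => ?_
      rintro _ ⟨k, hk, rfl⟩
      exact Rv_le_Rad e _ ((memM w k).1 hk)
    · rw [Rad, Subgroup.closure_le]
      intro x hx
      have hx : Cm e x := hx
      obtain ⟨m0, hm0, hv0'⟩ := hv0
      obtain ⟨p, q, hp, hq, hpq⟩ := id hx
      have h1 : x ^ (p * m0) • v0 = v0 := by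
        rw [zpow_mul, hpq, ← zpow_mul, mul_comm, zpow_mul]
        have h3 : e ^ m0 ∈ MulAction.stabilizer G v0 := hv0'
        exact zpow_mem h3 q
      obtain ⟨v1, hv1⟩ := fix_of_pow h (mul_ne_zero hp hm0) h1
      have h2 : v1 ∈ We V e := by
        refine ⟨q, hq, ?_⟩
        rw [← hpq]
        have h3 : x ∈ MulAction.stabilizer G v1 := hv1
        exact zpow_mem h3 p
      refine ⟨⟨x, hx.mem_Kom⟩, ?_, rfl⟩
      have h3 : (⟨x, hx.mem_Kom⟩ : Kom e) ∈ M ⟨v1, h2⟩ := by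
        rw [memM]
        exact Subgroup.subset_closure ⟨hv1, hx⟩
      exact le_iSup M _ h3
  have memS : ∀ k : Kom e, k ∈ ⨆ w, M w ↔ (k : G) ∈ Rad e := by
    intro k
    rw [← hsup]
    constructor
    · intro hk
      exact ⟨k, hk, rfl⟩
    · rintro ⟨y, hy, hyk⟩
      have : y = k := Subtype.ext hyk
      rwa [← this]
  have hQV : QV C M := by
    intro w
    obtain ⟨m, hm, hw⟩ := id w.2
    obtain ⟨P, _, f, hP, hf⟩ := (hVt (w : V) m hw hm).1
    let j : MulAction.stabilizer (Kom e) w →* Kom (⟨e ^ m, hw⟩ : MulAction.stabilizer G (w : V)) :=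
      { toFun := fun x => ⟨⟨((x : Kom e) : G), congrArg Subtype.val x.2⟩, by
          rw [Kom_sub]
          show ((x : Kom e) : G) ∈ Kom (e ^ m)
          rw [← Kom_congr (Cm.pow e hm)]
          exact (x : Kom e).2⟩
        map_one' := rfl
        map_mul' := fun _ _ => rfl }
    refine ⟨P, _, f.comp j, hP, fun x => ?_⟩
    show f (j x) = 1 ↔ _
    rw [hf, memM]
    exact mem_Rad_iff hm hw (congrArg Subtype.val x.2)
  have hn := hR.normal
  have hKS := hR.quot hC hT hact hQ hQV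
  -- the character
  have hHt : Ht e := by
    have hcan : ∀ w : We V e, ∃ χ : G → QQ, Ph (Rv e (w : V)) χ ∧ ∀ x ∈ Rv e (w : V),
        ∀ p q : ℤ, x ^ p = e ^ q → χ x ^ p = (Multiplicative.ofAdd (1 : ℚ)) ^ q := by
      intro w
      obtain ⟨m, hm, hw⟩ := id w.2
      exact exists_canon hm hw (hVt (w : V) m hw hm).2
    choose χ hχ hχc using hcan
    obtain ⟨S, hS⟩ := Tv.exists (R := Sb (V := We V e) (⨆ w, M w)) hT
    have hq := Tq.of_Sb hT hact (⨆ w, M w) hS
    have hSbe := hR.Sb_eq hT hact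
    obtain ⟨r, s, hd⟩ := Gf.ex (T := T.induce (We V e)) (⨆ w, M w)
      (fun (w : We V e) (k : Kom e) => χ w (k : G)) (S := S) (by
      intro w _ x hx y hy
      rw [hSbe, memM] at hx hy
      exact hχ w x hx y hy) (by
      intro u _ w _ huw x hxu hxw
      rw [hSbe, memM] at hxu hxw
      have huw : T.Adj (u : V) (w : V) := huw
      obtain ⟨t, ht, het⟩ := We_two u w
      obtain ⟨i, j, hi, hij⟩ := Vcy.pow ((hE _ _ huw).index het (he.pow ht))
        (⟨Rv_fix hxu, Rv_fix hxw⟩ : (x : G) ∈ Es G (u : V) (w : V))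
      rw [← zpow_mul] at hij
      exact QQ.eq hi ((hχc u _ hxu _ _ hij).trans (hχc w _ hxw _ _ hij).symm)) hq
    obtain ⟨φ, hφ, hφv⟩ := hd.main hT hact
    rw [hR.sup_Sb hT hact] at hφ
    have hsH : ∀ w, s w ∈ ⨆ w, M w := by
      intro w
      have := hd.sH w
      rwa [hR.sup_Sb hT hact] at this
    let θ : Rad e →* QQ :=
      { toFun := fun x => φ ⟨(x : G), Rad_le_Kom e x.2⟩
        map_one' := hφ.one
        map_mul' := fun a b => hφ ⟨(a : G), Rad_le_Kom e a.2⟩ ((memS _).2 a.2)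
          ⟨(b : G), Rad_le_Kom e b.2⟩ ((memS _).2 b.2) }
    refine ⟨θ, fun hθ1 => ?_⟩
    obtain ⟨m, hm, hmv⟩ := id hv0
    have h1 : φ ⟨e ^ m, Rad_le_Kom e (zpow_mem (self_mem_Rad e) m)⟩ = 1 := by
      have h2 : θ ((⟨e, self_mem_Rad e⟩ : Rad e) ^ m) = 1 := by rw [map_zpow, hθ1, one_zpow]
      exact h2
    obtain ⟨y, hy⟩ : ∃ y : Kom e, y = ⟨e ^ m, Rad_le_Kom e (zpow_mem (self_mem_Rad e) m)⟩ :=
      ⟨_, rfl⟩
    rw [← hy] at h1
    have hyM : y ∈ M ⟨v0, hv0⟩ := by
      rw [memM, hy]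
      exact Subgroup.subset_closure ⟨hmv, Cm.pow e hm⟩
    obtain ⟨c, hcφ⟩ := hφv ⟨v0, hv0⟩
    have h2 := hcφ y (by rw [hSbe]; exact hyM)
    rw [h1, mul_right_comm, mul_inv_cancel, one_mul] at h2
    obtain ⟨g, hg⟩ : ∃ g : Kom e, g = s ⟨v0, hv0⟩ := ⟨_, rfl⟩
    have hgV : (g : G) ∈ Vz e := by
      rw [hg]
      exact Rad_le_Vz e ((memS _).1 (hsH _))
    obtain ⟨N, hN, hgN⟩ := hgV
    have hgN : Commute (g : G) (e ^ N) := hgN
    have h3 : g⁻¹ * y * g ∈ M (r ⟨v0, hv0⟩) := by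
      have h4 := hR.eqv g⁻¹ _ y hyM
      rw [hg, hd.inv_s, inv_inv, ← hg] at h4
      exact h4
    rw [memM] at h3
    have h5 : ((g⁻¹ * y * g : Kom e) : G) ^ N = e ^ (m * N) := by
      have h6 : ((g⁻¹ * y * g : Kom e) : G) = (g : G)⁻¹ * e ^ m * (g : G)⁻¹⁻¹ := by
        rw [inv_inv, hy]
        rfl
      rw [h6, cj_zpow, inv_inv, ← zpow_mul, mul_comm m N, zpow_mul, mul_assoc,
        ← (hgN.zpow_right m).eq, inv_mul_cancel_left]
    have h6 := hχc _ _ h3 _ _ h5
    rw [hg] at h6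
    rw [← h2, one_zpow] at h6
    have h7 : (Multiplicative.ofAdd (1 : ℚ) : QQ) = 1 := QQ.eq_one (mul_ne_zero hm hN) h6.symm
    have h8 : (1 : ℚ) = 0 := congrArg Multiplicative.toAdd h7
    norm_num at h8
  refine ⟨?_, ?_, hHt⟩
  · obtain ⟨θ, hθ⟩ := hHt
    -- the kernel
    obtain ⟨D, hD⟩ : ∃ D : Subgroup (Kom e), ∀ k : Kom e, k ∈ D ↔
        ∃ hk : (k : G) ∈ Rad e, θ ⟨k, hk⟩ = 1 := by
      refine ⟨(θ.ker.map (Rad e).subtype).subgroupOf (Kom e), fun k => ?_⟩
      rw [Subgroup.mem_subgroupOf]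
      constructor
      · rintro ⟨y, hy, hyk⟩
        have hyk : (y : G) = k := hyk
        have hk : (k : G) ∈ Rad e := hyk ▸ y.2
        refine ⟨hk, ?_⟩
        have : (⟨k, hk⟩ : Rad e) = y := Subtype.ext hyk.symm
        rw [this]
        exact hy
      · rintro ⟨hk, h1⟩
        exact ⟨⟨k, hk⟩, h1, rfl⟩
    have hDn : D.Normal := by
      refine ⟨fun x hx k => ?_⟩
      rw [hD] at hx ⊢
      obtain ⟨hx1, hx2⟩ := hx
      obtain ⟨p, q, hp, hq, hpq⟩ := k.2
      refine ⟨Rad_conj k.2 hx1, ?_⟩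
      have h1 := th_scale θ k.2 hpq hx1
      rw [hx2, one_zpow] at h1
      exact QQ.eq_one hp h1
    have hcomm : ∀ a ∈ ⨆ w, M w, ∀ b ∈ ⨆ w, M w, ⁅a, b⁆ ∈ D := by
      intro a ha b hb
      rw [memS] at ha hb
      rw [hD]
      have hab : ((⁅a, b⁆ : Kom e) : G) ∈ Rad e :=
        mul_mem (mul_mem (mul_mem ha hb) (inv_mem ha)) (inv_mem hb)
      refine ⟨hab, ?_⟩
      have h1 : (⟨((⁅a, b⁆ : Kom e) : G), hab⟩ : Rad e) = ⁅(⟨a, ha⟩ : Rad e), (⟨b, hb⟩ : Rad e)⁆ :=
        rfl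
      rw [h1, map_commutatorElement, commutatorElement_eq_one_iff_mul_comm]
      exact mul_comm _ _
    have hDS : D ≤ ⨆ w, M w := by
      intro x hx
      rw [hD] at hx
      rw [memS]
      exact hx.1
    have hKD : C (Kom e ⧸ D) := by
      refine C_quot_ab hC hM D (⨆ w, M w) hDS ?_ hKS
      intro a ha b hb
      have h1 : (a * b)⁻¹ * (b * a) = ⁅b⁻¹, a⁻¹⁆ := by
        rw [commutatorElement_def]
        group
      rw [h1]
      exact hcomm _ (inv_mem hb) _ (inv_mem ha)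
    have key : ∀ g : Kom e, C ↥(D ⊔ Subgroup.zpowers g) := by
      intro g
      have h1 : C ((D ⊔ Subgroup.zpowers g).map (Kom e).subtype) := by
        refine sub_ell hC hM hA h e he hv0 hV hVc hE θ hθ _ ?_ ?_
        · rintro _ ⟨k, -, rfl⟩
          exact k.2
        · rintro _ ⟨x, hx, rfl⟩ _ ⟨y, hy, rfl⟩
          obtain ⟨a, ha, _, ⟨i, rfl⟩, rfl⟩ := mem_sup_normal.1 hx
          obtain ⟨b, hb, _, ⟨j, rfl⟩, rfl⟩ := mem_sup_normal.1 hy
          have h2 : ⁅a * g ^ i, b * g ^ j⁆ ∈ D := by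
            rw [← QuotientGroup.eq_one_iff]
            have h1 : ((⁅a * g ^ i, b * g ^ j⁆ : Kom e) : Kom e ⧸ D) =
                ⁅((a * g ^ i : Kom e) : Kom e ⧸ D), ((b * g ^ j : Kom e) : Kom e ⧸ D)⁆ := rfl
            rw [h1, QuotientGroup.mk_mul, QuotientGroup.mk_mul, (QuotientGroup.eq_one_iff a).2 ha,
              (QuotientGroup.eq_one_iff b).2 hb, one_mul, one_mul,
              commutatorElement_eq_one_iff_mul_comm]
            show ((g : Kom e ⧸ D)) ^ i * ((g : Kom e ⧸ D)) ^ j = _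
            rw [← zpow_add, add_comm, zpow_add]
            rfl
          exact (hD _).1 h2
      exact C_equiv hC.base ((D ⊔ Subgroup.zpowers g).equivMapOfInjective (Kom e).subtype
        (Kom e).subtype_injective) h1
    refine Pool.Agent.Y529.FJ.t_ext C hC _ D ?_ hKD fun g _ => key g
    exact C_le hC.base le_sup_left (key 1)
  · refine ⟨Kom e ⧸ ⨆ w, M w, inferInstance, QuotientGroup.mk' _, hKS, fun x => ?_⟩
    rw [← memS]
    exact QuotientGroup.eq_one_iff x

/-- the restrictions to the vertex groups -/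
theorem TV.at {e : G} (he : Io e) (hV : ∀ v : V, TV C (MulAction.stabilizer G v)) (v : V) (m : ℤ)
    (hv : e ^ m • v = v) (hm : m ≠ 0) : Qe C (⟨e ^ m, hv⟩ : MulAction.stabilizer G v) ∧
      Ht (⟨e ^ m, hv⟩ : MulAction.stabilizer G v) := by
  have hio : Io (⟨e ^ m, hv⟩ : MulAction.stabilizer G v) := by
    intro N hN h1
    have h2 := congrArg Subtype.val h1
    exact he.pow hm N hN (by simpa using h2)
  exact ⟨(hV v).tame.quot _ hio, (hV v).tame.char _ hio⟩

end Pool.Agent.E14.RE
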