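import Pool.Agent.N509.TK.Ga

/-!
# Homomorphisms from groups generated by stabilizers

`L` acts on the tree `T`, and `H` is generated by the stabilizers `Sb L v`. Compatible homomorphisms on
the stabilizers of the vertices of a transversal give a homomorphism on `H`, with values in any group.
-/

set_option autoImplicit false

namespace Pool.Agent.E14.RE

open SimpleGraph
open Pool.Agent.N509.TK
open Pool.Agent.N24.TR (gam gam_map gam_mul gam_self gam_adj gam_eq wp wp_nil wp_cons shift)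

variable {G : Type} [Group G] {F : Type} [Group F]

/-- `f` is a homomorphism on the subgroup `A` -/
def Ph (A : Subgroup G) (f : G → F) : Prop := ∀ x ∈ A, ∀ y ∈ A, f (x * y) = f x * f y

theorem Ph.one {A : Subgroup G} {f : G → F} (h : Ph A f) : f 1 = 1 := by
  have h1 := h 1 A.one_mem 1 A.one_mem
  rw [mul_one] at h1
  exact left_eq_mul.1 h1

theorem Ph.inv {A : Subgroup G} {f : G → F} (h : Ph A f) {x : G} (hx : x ∈ A) :
    f x⁻¹ = (f x)⁻¹ := by
  have h1 := h x hx x⁻¹ (A.inv_mem hx)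
  rw [mul_inv_cancel, h.one] at h1
  exact eq_inv_of_mul_eq_one_right h1.symm

/-- the homomorphism -/
def Ph.hom {A : Subgroup G} {f : G → F} (h : Ph A f) : A →* F where
  toFun x := f x
  map_one' := h.one
  map_mul' x y := h x x.2 y y.2

variable {V : Type} {T : SimpleGraph V} [MulAction G V] {L : Subgroup G} {S : Set V}

/-- the data: representatives and a compatible family -/
structure Gf (T : SimpleGraph V) (L : Subgroup G) (S : Set V) (r : V → V) (s : V → G)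
    (χ : V → G → F) : Prop where
  tq : Tq T (⨆ v : V, Sb L v) S
  rS : ∀ v, r v ∈ S
  sH : ∀ v, s v ∈ ⨆ v : V, Sb L v
  eq : ∀ v, v = s v • r v
  hom : ∀ v ∈ S, Ph (Sb L v) (χ v)
  comp : ∀ u ∈ S, ∀ v ∈ S, T.Adj u v → ∀ x ∈ Sb L u, x ∈ Sb L v → χ u x = χ v x

variable {r : V → V} {s : V → G} {χ : V → G → F}

theorem Gf.ex (L : Subgroup G) (χ : V → G → F) {S : Set V} (hχ : ∀ v ∈ S, Ph (Sb L v) (χ v))
    (hc : ∀ u ∈ S, ∀ v ∈ S, T.Adj u v → ∀ x ∈ Sb L u, x ∈ Sb L v → χ u x = χ v x)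
    (hS : Tq T (⨆ v : V, Sb L v) S) : ∃ (r : V → V) (s : V → G), Gf T L S r s χ := by
  choose s hs r hr heq using hS.cover
  exact ⟨r, s, hS, hr, hs, heq, hχ, hc⟩

variable (hd : Gf T L S r s χ)

include hd

theorem Gf.inv_s (v : V) : (s v)⁻¹ • v = r v := inv_smul_eq_iff.2 (hd.eq v)

theorem Gf.r_smul {g : G} (hg : g ∈ ⨆ v : V, Sb L v) (v : V) : r (g • v) = r v := by
  refine hd.tq.trans ((s v)⁻¹ * g⁻¹ * s (g • v)) ?_ _ (hd.rS _) _ (hd.rS _) ?_
  · exact mul_mem (mul_mem (inv_mem (hd.sH v)) (inv_mem hg)) (hd.sH _)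
  · rw [mul_smul, ← hd.eq (g • v), mul_smul, inv_smul_smul, hd.inv_s]

theorem Gf.r_self {v : V} (hv : v ∈ S) : r v = v :=
  hd.tq.trans (s v) (hd.sH v) _ (hd.rS v) v hv (hd.eq v).symm

theorem Gf.s_self {v : V} (hv : v ∈ S) : s v ∈ Sb L v := by
  have h2 := hd.eq v
  rw [hd.r_self hv] at h2
  exact mem_Sb.2 ⟨h2.symm, Sb_le L (hd.sH v)⟩

theorem Gf.mm_mem {g : G} (hg : g ∈ ⨆ v : V, Sb L v) (v : V) : mm s g v ∈ Sb L (r v) := by
  refine mem_Sb.2 ⟨?_, Sb_le L (mul_mem (mul_mem (inv_mem (hd.sH _)) hg) (hd.sH v))⟩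
  show ((s (g • v))⁻¹ * g * s v) • r v = r v
  rw [mul_smul, ← hd.eq v, mul_smul, hd.inv_s, hd.r_smul hg]

/-- decompositions along an edge -/
theorem Gf.dec {u v : V} (hact : ∀ (g : G) (u v : V), T.Adj u v → T.Adj (g • u) (g • v))
    (h : T.Adj u v) : T.Adj (r u) (r v) ∧
    ∃ k ∈ Sb L (r u), ∃ l ∈ Sb L (r v), (s u)⁻¹ * s v = k * l := by
  have h1 := hact (s u)⁻¹ _ _ h
  rw [hd.inv_s] at h1
  obtain ⟨w, hw, h3, k, hk, hku, hkw⟩ := hd.tq.max _ (hd.rS u) _ h1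
  have h4 : w = r v := by
    refine hd.tq.trans ((s v)⁻¹ * s u * k) (mul_mem (mul_mem (inv_mem (hd.sH v)) (hd.sH u)) hk) w hw
      _ (hd.rS v) ?_
    rw [mul_smul, hkw, mul_smul, smul_inv_smul, hd.inv_s]
  subst h4
  refine ⟨h3, k, mem_Sb.2 ⟨hku, Sb_le L hk⟩, k⁻¹ * ((s u)⁻¹ * s v), mem_Sb.2 ⟨?_, ?_⟩, ?_⟩
  · rw [mul_smul, mul_smul, ← hd.eq v, ← hkw, inv_smul_smul]
  · exact L.mul_mem (L.inv_mem (Sb_le L hk)) (L.mul_mem (L.inv_mem (Sb_le L (hd.sH u)))
      (Sb_le L (hd.sH v)))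
  · rw [mul_inv_cancel_left]

theorem Gf.dec_unique {u v : V} (h : T.Adj (r u) (r v)) {k k' l l' : G} (hk : k ∈ Sb L (r u))
    (hk' : k' ∈ Sb L (r u)) (hl : l ∈ Sb L (r v)) (hl' : l' ∈ Sb L (r v)) (heq : k * l = k' * l') :
    χ (r u) k * χ (r v) l = χ (r u) k' * χ (r v) l' := by
  have hu := hd.hom _ (hd.rS u)
  have hv := hd.hom _ (hd.rS v)
  have h1 : k'⁻¹ * k = l' * l⁻¹ := by
    rw [inv_mul_eq_iff_eq_mul, ← mul_assoc, ← heq, mul_inv_cancel_right]
  have h2 : k'⁻¹ * k ∈ Sb L (r u) := mul_mem (inv_mem hk') hk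
  have h3 : k'⁻¹ * k ∈ Sb L (r v) := by
    rw [h1]
    exact mul_mem hl' (inv_mem hl)
  have h4 := hd.comp _ (hd.rS u) _ (hd.rS v) h _ h2 h3
  rw [hu _ (inv_mem hk') _ hk, hu.inv hk', h1, hv _ hl' _ (inv_mem hl),
    hv.inv hl] at h4
  rw [inv_mul_eq_iff_eq_mul] at h4
  rw [h4, mul_assoc, mul_assoc, inv_mul_cancel, mul_one]

omit hd in
open Classical in
/-- the labels of the edges -/
noncomputable def df (T : SimpleGraph V) (L : Subgroup G) (r : V → V) (s : V → G)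
    (χ : V → G → F) (u v : V) : F :=
  if h : ∃ k ∈ Sb L (r u), ∃ l ∈ Sb L (r v), (s u)⁻¹ * s v = k * l then
    χ (r u) (Classical.choose h) *
      χ (r v) (Classical.choose (Classical.choose_spec h).2)
  else 1

theorem Gf.df_eq {u v : V} (h : T.Adj (r u) (r v)) {k l : G} (hk : k ∈ Sb L (r u))
    (hl : l ∈ Sb L (r v)) (heq : (s u)⁻¹ * s v = k * l) : df T L r s χ u v = χ (r u) k * χ (r v) l := by
  have hex : ∃ k ∈ Sb L (r u), ∃ l ∈ Sb L (r v), (s u)⁻¹ * s v = k * l := ⟨k, hk, l, hl, heq⟩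
  rw [df, dif_pos hex]
  exact hd.dec_unique h (Classical.choose_spec hex).1 hk
    (Classical.choose_spec (Classical.choose_spec hex).2).1 hl
    ((Classical.choose_spec (Classical.choose_spec hex).2).2.symm.trans heq)

theorem Gf.df_inv (hact : ∀ (g : G) (u v : V), T.Adj u v → T.Adj (g • u) (g • v)) (u v : V)
    (h : T.Adj u v) : df T L r s χ u v * df T L r s χ v u = 1 := by
  obtain ⟨h1, k, hk, l, hl, heq⟩ := hd.dec hact h
  rw [hd.df_eq h1 hk hl heq, hd.df_eq (k := l⁻¹) (l := k⁻¹) h1.symm (inv_mem hl) (inv_mem hk) ?_,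
    (hd.hom _ (hd.rS u)).inv hk, (hd.hom _ (hd.rS v)).inv hl]
  · rw [mul_assoc, mul_inv_cancel_left, mul_inv_cancel]
  · rw [← mul_inv_rev, ← heq]
    group

/-- the transformation of the labels -/
theorem Gf.df_smul (hact : ∀ (g : G) (u v : V), T.Adj u v → T.Adj (g • u) (g • v)) {g : G}
    (hg : g ∈ ⨆ v : V, Sb L v) (u v : V) (h : T.Adj u v) :
    df T L r s χ (g • u) (g • v) =
      χ (r u) (mm s g u) * df T L r s χ u v * (χ (r v) (mm s g v))⁻¹ := by
  obtain ⟨h1, k, hk, l, hl, heq⟩ := hd.dec hact h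
  have hu := hd.mm_mem hg u
  have hv := hd.mm_mem hg v
  have hru := hd.r_smul hg u
  have hrv := hd.r_smul hg v
  have h2 : (s (g • u))⁻¹ * s (g • v) = (mm s g u * k) * (l * (mm s g v)⁻¹) := by
    have h3 : k * l = (s u)⁻¹ * s v := heq.symm
    have h4 : (mm s g u * k) * (l * (mm s g v)⁻¹) = mm s g u * (k * l) * (mm s g v)⁻¹ := by group
    rw [h4, h3]
    unfold mm
    group
  rw [hd.df_eq (u := g • u) (v := g • v) (k := mm s g u * k) (l := l * (mm s g v)⁻¹) ?_ ?_ ?_ h2]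
  · rw [hru, hrv, hd.df_eq h1 hk hl heq, hd.hom _ (hd.rS u) _ hu _ hk,
      hd.hom _ (hd.rS v) _ hl _ (inv_mem hv), (hd.hom _ (hd.rS v)).inv hv]
    simp only [mul_assoc]
  · rw [hru, hrv]
    exact h1
  · rw [hru]
    exact mul_mem hu hk
  · rw [hrv]
    exact mul_mem hl (inv_mem hv)

theorem Gf.gam_smul (hT : T.IsTree)
    (hact : ∀ (g : G) (u v : V), T.Adj u v → T.Adj (g • u) (g • v)) {g : G}
    (hg : g ∈ ⨆ v : V, Sb L v) (u v : V) :
    gam hT (df T L r s χ) (g • u) (g • v) =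
      χ (r u) (mm s g u) * gam hT (df T L r s χ) u v * (χ (r v) (mm s g v))⁻¹ := by
  obtain ⟨p⟩ := hT.connected.preconnected u v
  have h0 : gam hT (df T L r s χ) (g • u) (g • v) = wp (df T L r s χ) (p.map (shift hact g)) :=
    gam_eq hT _ (hd.df_inv hact) (p.map (shift hact g))
  rw [gam_eq hT _ (hd.df_inv hact) p, h0]
  clear h0
  induction p with
  | nil =>
    show (1 : F) = _
    rw [wp_nil, mul_one, mul_inv_cancel]
  | @cons u w v h p ih =>
    rw [Walk.map_cons, wp_cons, wp_cons, ih]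
    show df T L r s χ (g • u) (g • w) * _ = _
    rw [hd.df_smul hact hg u w h]
    simp only [mul_assoc]
    rw [inv_mul_cancel_left]

/-- **the homomorphism**: on the stabilizer of `v` it is conjugate to the given one -/
theorem Gf.main (hT : T.IsTree)
    (hact : ∀ (g : G) (u v : V), T.Adj u v → T.Adj (g • u) (g • v)) :
    ∃ φ : G → F, Ph (⨆ v : V, Sb L v) φ ∧
      ∀ v, ∃ c : F, ∀ x ∈ Sb L v, φ x = c * χ (r v) ((s v)⁻¹ * x * s v) * c⁻¹ := by
  obtain ⟨o⟩ := hT.connected.nonempty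
  obtain ⟨γ, hγ⟩ : ∃ γ, γ = gam hT (df T L r s χ) := ⟨_, rfl⟩
  have hγm : ∀ u v w, γ u v * γ v w = γ u w := by
    rw [hγ]
    exact gam_mul hT _ (hd.df_inv hact)
  have hγ1 : ∀ u, γ u u = 1 := by
    rw [hγ]
    exact gam_self hT _ (hd.df_inv hact)
  have hγs : ∀ g ∈ ⨆ v : V, Sb L v, ∀ u v, γ (g • u) (g • v) =
      χ (r u) (mm s g u) * γ u v * (χ (r v) (mm s g v))⁻¹ := by
    rw [hγ]
    exact fun g hg u v => hd.gam_smul hT hact hg u v
  refine ⟨fun g => γ o (g • o) * χ (r o) (mm s g o), ?_, ?_⟩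
  · intro g hg h hh
    show γ o ((g * h) • o) * χ (r o) (mm s (g * h) o) =
      γ o (g • o) * χ (r o) (mm s g o) * (γ o (h • o) * χ (r o) (mm s h o))
    have h1 : mm s g (h • o) ∈ Sb L (r o) := by
      have := hd.mm_mem hg (h • o)
      rwa [hd.r_smul hh] at this
    rw [mul_smul, mm_mul, hd.hom _ (hd.rS o) _ h1 _ (hd.mm_mem hh o), ← hγm o (g • o), hγs g hg,
      hd.r_smul hh]
    group
  · intro v
    refine ⟨γ o v, fun x hx => ?_⟩
    have hxH : x ∈ ⨆ v : V, Sb L v := le_iSup (Sb L) v hx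
    show γ o (x • o) * χ (r o) (mm s x o) = _
    have h1 := hγs x hxH v o
    rw [hx.1] at h1
    rw [← hγm o v (x • o), h1]
    have h2 : mm s x v = (s v)⁻¹ * x * s v := by
      unfold mm
      rw [hx.1]
    rw [h2]
    have h3 : (γ o v)⁻¹ = γ v o := by
      rw [inv_eq_iff_mul_eq_one, hγm, hγ1]
    rw [h3]
    group

end Pool.Agent.E14.RE
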