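import Pool.Agent.N509.TK.Fin
import Pool.Agent.E14.RE.Up

/-!
# Equivariant families of subgroups which contain the edge groups, and invariant characters
-/

set_option autoImplicit false

namespace Pool.Agent.E14.RE

open SimpleGraph
open scoped commutatorElement
open Pool.Agent.N509.TK

section ext

variable {G : Type} [Group G]

/-- an `A`-character which is invariant under conjugation by `B` -/
def Ic (A B : Subgroup G) (f : G → EE) : Prop :=
  PHom A f ∧ ∀ b ∈ B, ∀ a ∈ A, f (b * a * b⁻¹) = f a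

/-- the quotient -/
def qn (A B : Subgroup G) : Subgroup A := (⁅A, B⁆).subgroupOf A

/-- `B` normalizes `A` -/
def Nz (A B : Subgroup G) : Prop := ∀ b ∈ B, ∀ a ∈ A, b * a * b⁻¹ ∈ A

theorem comm_le {A B : Subgroup G} (h : Nz A B) : ⁅A, B⁆ ≤ A := by
  rw [Subgroup.commutator_le]
  intro a ha b hb
  rw [commutatorElement_def]
  have h1 : a * b * a⁻¹ * b⁻¹ = a * (b * a⁻¹ * b⁻¹) := by group
  rw [h1]
  exact mul_mem ha (h b hb _ (inv_mem ha))

theorem comm_nz {A B : Subgroup G} (h : Nz A B) (hAB : A ≤ B) : ∀ b ∈ B, ∀ x ∈ ⁅A, B⁆,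
    b * x * b⁻¹ ∈ ⁅A, B⁆ := by
  intro b hb x hx
  have h1 : (⁅A, B⁆).map (MulAut.conj b).toMonoidHom ≤ ⁅A, B⁆ := by
    rw [Subgroup.map_commutator]
    refine Subgroup.commutator_mono ?_ ?_
    · rintro _ ⟨a, ha, rfl⟩
      exact h b hb a ha
    · rintro _ ⟨a, ha, rfl⟩
      exact mul_mem (mul_mem hb ha) (inv_mem hb)
  exact h1 ⟨x, hx, rfl⟩

theorem qn_normal {A B : Subgroup G} (h : Nz A B) (hAB : A ≤ B) : (qn A B).Normal := by
  refine ⟨fun x hx a => ?_⟩
  exact comm_nz h hAB a (hAB a.2) x hx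

/-- the commutative quotient -/
@[instance_reducible] def qcg {A B : Subgroup G} (hAB : A ≤ B) [(qn A B).Normal] :
    CommGroup (A ⧸ qn A B) :=
  { (inferInstance : Group (A ⧸ qn A B)) with
    mul_comm := by
      intro x y
      obtain ⟨a, rfl⟩ := QuotientGroup.mk_surjective x
      obtain ⟨b, rfl⟩ := QuotientGroup.mk_surjective y
      refine QuotientGroup.eq.2 ?_
      show (((a * b)⁻¹ * (b * a) : A) : G) ∈ ⁅A, B⁆
      have h1 : (((a * b)⁻¹ * (b * a) : A) : G) = ⁅((b : G))⁻¹, ((a : G))⁻¹⁆ := by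
        rw [commutatorElement_def]
        push_cast
        group
      rw [h1]
      exact Subgroup.commutator_mem_commutator (inv_mem b.2) (inv_mem (hAB a.2)) }

theorem inv_of_kills {A B : Subgroup G} (h : Nz A B) {f : G → EE} (hf : PHom A f)
    (hk : ∀ x ∈ ⁅A, B⁆, f x = 1) : Ic A B f := by
  refine ⟨hf, fun b hb a ha => ?_⟩
  have h1 : b * a * b⁻¹ = ⁅b, a⁆ * a := by
    rw [commutatorElement_def]
    group
  have h2 : ⁅b, a⁆ ∈ ⁅A, B⁆ := by
    rw [Subgroup.commutator_comm]
    exact Subgroup.commutator_mem_commutator hb ha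
  rw [h1, hf _ (comm_le h h2) _ ha, hk _ h2, one_mul]

theorem Ic.kills {A B : Subgroup G} (h : Nz A B) {f : G → EE} (hf : Ic A B f) :
    ∀ x ∈ ⁅A, B⁆, f x = 1 := by
  have h0 : ⁅A, B⁆ ≤ { carrier := {x | x ∈ A ∧ f x = 1}
                       one_mem' := ⟨one_mem _, hf.1.one⟩
                       mul_mem' := by
                         rintro x y ⟨hx, hfx⟩ ⟨hy, hfy⟩
                         exact ⟨mul_mem hx hy, by rw [hf.1 _ hx _ hy, hfx, hfy, one_mul]⟩
                       inv_mem' := by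
                         rintro x ⟨hx, hfx⟩
                         exact ⟨inv_mem hx, by rw [hf.1.inv hx, hfx, inv_one]⟩ : Subgroup G } := by
    rw [Subgroup.commutator_le]
    intro a ha b hb
    have h1 : ⁅a, b⁆ = a * (b * a⁻¹ * b⁻¹) := by
      rw [commutatorElement_def]
      group
    refine ⟨comm_le h (Subgroup.commutator_mem_commutator ha hb), ?_⟩
    rw [h1, hf.1 _ ha _ (h b hb _ (inv_mem ha)), hf.2 b hb _ (inv_mem ha), hf.1.inv ha,
      mul_inv_cancel]
  exact fun x hx => (h0 hx).2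

/-- extension of characters -/
theorem ext_ic {A B E : Subgroup G} (h : Nz A B) (hAB : A ≤ B) (hEA : E ≤ A)
    (hE : ∀ x ∈ E, x ∈ ⁅A, B⁆ → x = 1) (f : G → EE) (hf : PHom E f) :
    ∃ f' : G → EE, Ic A B f' ∧ ∀ x ∈ E, f' x = f x := by
  have hn := qn_normal h hAB
  let _ := qcg hAB
  let _ : CommGroup E := { (inferInstance : Group E) with
    mul_comm := by
      intro x y
      apply Subtype.ext
      have h1 : ⁅(x : G), (y : G)⁆ = 1 := hE _
        (by
          rw [commutatorElement_def]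
          exact mul_mem (mul_mem (mul_mem x.2 y.2) (inv_mem x.2)) (inv_mem y.2))
        (Subgroup.commutator_mem_commutator (hEA x.2) (hAB (hEA y.2)))
      exact commutatorElement_eq_one_iff_mul_comm.1 h1 }
  let i0 : E →* (A ⧸ qn A B) := (QuotientGroup.mk' (qn A B)).comp (Subgroup.inclusion hEA)
  have hi0 : Function.Injective i0 := by
    rw [injective_iff_map_eq_one]
    intro x hx
    have h1 : Subgroup.inclusion hEA x ∈ qn A B := (QuotientGroup.eq_one_iff _).1 hx
    exact Subtype.ext (hE x x.2 h1)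
  obtain ⟨F, hF⟩ := ext_comm i0 hi0 hf.hom
  refine ⟨exh A (F.comp (QuotientGroup.mk' (qn A B))), ?_, fun x hx => ?_⟩
  · refine inv_of_kills h (exh_phom _ _) fun x hx => ?_
    rw [exh_eq A _ (comm_le h hx)]
    show F (QuotientGroup.mk' (qn A B) _) = 1
    have h1 : QuotientGroup.mk' (qn A B) ⟨x, comm_le h hx⟩ = 1 := (QuotientGroup.eq_one_iff _).2 hx
    rw [h1, map_one]
  · rw [exh_eq A _ (hEA hx)]
    exact hF ⟨x, hx⟩

/-- separation by characters -/
theorem sep_ic {A B : Subgroup G} (h : Nz A B) (hAB : A ≤ B) {x : G} (hx : x ∈ A)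
    (hxn : x ∉ ⁅A, B⁆) : ∃ f : G → EE, Ic A B f ∧ f x ≠ 1 := by
  have hn := qn_normal h hAB
  let _ := qcg hAB
  have h1 : (QuotientGroup.mk' (qn A B) ⟨x, hx⟩) ≠ 1 := by
    intro h2
    exact hxn ((QuotientGroup.eq_one_iff (N := qn A B) (⟨x, hx⟩ : A)).1 h2)
  obtain ⟨F, hF⟩ := sep_comm h1
  refine ⟨exh A (F.comp (QuotientGroup.mk' (qn A B))), ?_, ?_⟩
  · refine inv_of_kills h (exh_phom _ _) fun x hx => ?_
    rw [exh_eq A _ (comm_le h hx)]
    show F (QuotientGroup.mk' (qn A B) _) = 1
    have h1 : QuotientGroup.mk' (qn A B) ⟨x, comm_le h hx⟩ = 1 := (QuotientGroup.eq_one_iff _).2 hx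
    rw [h1, map_one]
  · rw [exh_eq A _ hx]
    exact hF

end ext

section tree

variable {W X : Type} {T : SimpleGraph W}

/-- the value given by a walk -/
noncomputable def chn (P : W → X → Prop) (R : W → W → X → X → Prop)
    (ext : ∀ u v, T.Adj u v → ∀ a, P u a → ∃ b, P v b ∧ R u v a b) {o : W} (a0 : {a : X // P o a}) :
    ∀ {v : W}, T.Walk v o → {a : X // P v a}
  | _, .nil => a0
  | v, .cons (v := u) h p =>
    ⟨Classical.choose (ext u v h.symm (chn P R ext a0 p).1 (chn P R ext a0 p).2),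
      (Classical.choose_spec (ext u v h.symm (chn P R ext a0 p).1 (chn P R ext a0 p).2)).1⟩

theorem chn_cons (P : W → X → Prop) (R : W → W → X → X → Prop)
    (ext : ∀ u v, T.Adj u v → ∀ a, P u a → ∃ b, P v b ∧ R u v a b) {o : W} (a0 : {a : X // P o a})
    {u v : W} (h : T.Adj v u) (p : T.Walk u o) :
    R u v (chn P R ext a0 p).1 (chn P R ext a0 (.cons h p)).1 :=
  (Classical.choose_spec (ext u v h.symm (chn P R ext a0 p).1 (chn P R ext a0 p).2)).2

/-- extension along a tree -/
theorem tree_sec (hT : T.IsTree) (P : W → X → Prop) (R : W → W → X → X → Prop)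
    (symm : ∀ u v a b, R u v a b → R v u b a)
    (ext : ∀ u v, T.Adj u v → ∀ a, P u a → ∃ b, P v b ∧ R u v a b) (o : W) (a0 : X) (h0 : P o a0) :
    ∃ χ : W → X, (∀ v, P v (χ v)) ∧ χ o = a0 ∧ ∀ u v, T.Adj u v → R u v (χ u) (χ v) := by
  classical
  have hpath : ∀ v, ∃ p : T.Walk v o, p.IsPath := fun v => by
    obtain ⟨p, hp, -⟩ := hT.existsUnique_path v o
    exact ⟨p, hp⟩
  choose Q hQ using hpath
  have huniq : ∀ v (q : T.Walk v o), q.IsPath → q = Q v := fun v q hq =>
    (hT.existsUnique_path v o).unique hq (hQ v)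
  refine ⟨fun v => (chn P R ext ⟨a0, h0⟩ (Q v)).1, fun v => (chn P R ext ⟨a0, h0⟩ (Q v)).2, ?_, ?_⟩
  · have h1 : (Walk.nil : T.Walk o o) = Q o := huniq o _ Walk.IsPath.nil
    show (chn P R ext ⟨a0, h0⟩ (Q o)).1 = a0
    rw [← h1]
    rfl
  · have key : ∀ u v, T.Adj u v → v ∉ (Q u).support →
        R u v (chn P R ext ⟨a0, h0⟩ (Q u)).1 (chn P R ext ⟨a0, h0⟩ (Q v)).1 := by
      intro u v huv hv
      have h1 : (Walk.cons huv.symm (Q u)).IsPath := (Walk.cons_isPath_iff _ _).2 ⟨hQ u, hv⟩
      rw [← huniq v _ h1]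
      exact chn_cons P R ext _ huv.symm (Q u)
    intro u v huv
    by_cases hv : v ∈ (Q u).support
    · have hu : u ∉ (Q v).support := by
        intro hu
        have hstep : ∀ a b : W, T.Adj a b → b ∈ (Q a).support → ∃ q : T.Walk b o, a ∉ q.support := by
          intro a b hab hb
          refine ⟨(Q a).dropUntil b hb, fun h => ?_⟩
          have h3 := (Walk.take_spec (Q a) hb)
          have h4 : (Q a).support.Nodup := (hQ a).support_nodup
          rw [← h3, Walk.support_append] at h4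
          have h5 : a ∈ ((Q a).takeUntil b hb).support := Walk.start_mem_support _
          have h6 : a ∈ ((Q a).dropUntil b hb).support.tail := by
            rw [← Walk.cons_tail_support, List.mem_cons] at h
            exact h.resolve_left hab.ne
          exact (List.nodup_append.1 h4).2.2 a h5 a h6 rfl
        obtain ⟨q, hq⟩ := hstep u v huv hv
        have h3 : q.bypass = Q v := huniq v _ q.bypass_isPath
        apply hq
        apply q.support_bypass_subset_support
        rw [h3]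
        exact hu
      exact symm _ _ _ _ (key v u huv.symm hu)
    · exact key u v huv hv

end tree

end Pool.Agent.E14.RE
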