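import Pool.Agent.E14.RE.Loc

/-!
# Finite index
-/

set_option autoImplicit false

namespace Pool.Agent.E14.RE

open scoped commutatorElement
open Pool.Agent.Y110.FJ

variable {C : ∀ (G : Type) [Group G], Prop}
variable {G : Type} [Group G]

/-- the condition depends only on the centralizers -/
theorem tb_local (hG : C G)
    (h : ∀ e : G, Io e → ∃ P : Subgroup G, Subgroup.centralizer {e} ≤ P ∧ TB C P) : TB C G := by
  refine ⟨hG, fun e he => ?_⟩
  obtain ⟨P, hP, hTB⟩ := h e he
  have heP : e ∈ P := hP (mem_cen.2 rfl)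
  obtain ⟨e', he'⟩ : ∃ e' : P, (e' : G) = e := ⟨⟨e, heP⟩, rfl⟩
  subst he'
  have hio : Io e' := Io_sub.2 he
  obtain ⟨Q, _, f, hQ, hf⟩ := hTB.cen e' hio
  let j : Subgroup.centralizer {(e' : G)} →* Subgroup.centralizer {e'} :=
    { toFun := fun x => ⟨⟨x, hP x.2⟩, by
        rw [mem_cen]
        exact Subtype.ext (mem_cen.1 x.2)⟩
      map_one' := rfl
      map_mul' := fun _ _ => rfl }
  refine ⟨Q, _, f.comp j, hQ, fun x => ?_⟩
  show f (j x) = 1 ↔ _
  rw [hf]
  constructor
  · intro h1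
    obtain ⟨i, hi⟩ := Subgroup.mem_zpowers_iff.1 h1
    exact Subgroup.mem_zpowers_iff.2 ⟨i, (Subgroup.coe_zpow _ _ _).symm.trans
      (congrArg Subtype.val hi)⟩
  · intro h1
    obtain ⟨i, hi⟩ := Subgroup.mem_zpowers_iff.1 h1
    exact Subgroup.mem_zpowers_iff.2 ⟨i, Subtype.ext ((Subgroup.coe_zpow _ _ _).trans hi)⟩

/-- **finite index** -/
theorem tb_fi (hC : ClosedE C) (A : Subgroup G) (hA : A.FiniteIndex) (h : TB C A) : TB C G := by
  refine ⟨hC.base.finiteIndex G A hA h.mem, fun e he => ?_⟩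
  -- the intersection of `⟨e⟩` with `A`
  obtain ⟨m, hm⟩ : ∃ m : ℤ, (A.comap (zpowersHom G e)).map (MonoidHom.id _) =
      Subgroup.zpowers (Multiplicative.ofAdd m) := by
    obtain ⟨x, hx⟩ := (inferInstance : IsCyclic ((A.comap (zpowersHom G e)))).exists_generator
    refine ⟨(x : Multiplicative ℤ).toAdd, ?_⟩
    rw [Subgroup.map_id]
    apply le_antisymm
    · intro y hy
      obtain ⟨i, hi⟩ := Subgroup.mem_zpowers_iff.1 (hx ⟨y, hy⟩)
      exact Subgroup.mem_zpowers_iff.2 ⟨i, by
        have := congrArg Subtype.val hi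
        simpa using this⟩
    · rw [Subgroup.zpowers_le]
      exact x.2
  rw [Subgroup.map_id] at hm
  have hmA : ∀ i : ℤ, e ^ i ∈ A ↔ ∃ k : ℤ, i = m * k := by
    intro i
    have h1 : e ^ i ∈ A ↔ Multiplicative.ofAdd i ∈ A.comap (zpowersHom G e) := Iff.rfl
    rw [h1, hm, Subgroup.mem_zpowers_iff]
    constructor
    · rintro ⟨k, hk⟩
      refine ⟨k, ?_⟩
      have h2 := congrArg Multiplicative.toAdd hk
      rw [toAdd_zpow, toAdd_ofAdd, toAdd_ofAdd, smul_eq_mul] at h2
      rw [← h2, mul_comm]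
    · rintro ⟨k, rfl⟩
      refine ⟨k, ?_⟩
      apply Multiplicative.toAdd.injective
      rw [toAdd_zpow, toAdd_ofAdd, toAdd_ofAdd, smul_eq_mul, mul_comm]
  have hm0 : m ≠ 0 := by
    rintro rfl
    obtain ⟨k, hk, -, hke⟩ := Subgroup.exists_pow_mem_of_index_ne_zero hA.index_ne_zero e
    obtain ⟨i, hi⟩ := (hmA k).1 (by rw [zpow_natCast]; exact hke)
    rw [zero_mul] at hi
    omega
  have heA : e ^ m ∈ A := (hmA m).2 ⟨1, (mul_one m).symm⟩
  obtain ⟨P, _, f, hP, hf⟩ := h.cen ⟨e ^ m, heA⟩ (Io_sub.2 (he.pow hm0))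
  -- the subgroup of finite index of the quotient
  obtain ⟨B, hB⟩ : ∃ B : Subgroup (Subgroup.centralizer {e}),
    B = A.subgroupOf (Subgroup.centralizer {e}) := ⟨_, rfl⟩
  have memB : ∀ x : Subgroup.centralizer {e}, x ∈ B ↔ (x : G) ∈ A := fun x => by
    rw [hB, Subgroup.mem_subgroupOf]
  have hBf : B.FiniteIndex := by
    rw [hB]
    infer_instance
  have hQ : C (Zq e) := by
    refine hC.base.finiteIndex (Zq e) (B.map (QuotientGroup.mk' _)) ?_ ?_
    · refine ⟨fun h0 => hBf.index_ne_zero ?_⟩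
      have h1 := Subgroup.index_map_dvd B (QuotientGroup.mk'_surjective
        ((Subgroup.zpowers e).subgroupOf (Subgroup.centralizer {e})))
      rw [h0] at h1
      exact Nat.eq_zero_of_zero_dvd h1
    · let j : B →* Subgroup.centralizer {(⟨e ^ m, heA⟩ : A)} :=
        { toFun := fun x => ⟨⟨((x : Subgroup.centralizer {e}) : G), (memB _).1 x.2⟩, by
            rw [mem_cen]
            have h1 : Commute ((x : Subgroup.centralizer {e}) : G) e :=
              mem_cen.1 (x : Subgroup.centralizer {e}).2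
            exact Subtype.ext (h1.zpow_right m)⟩
          map_one' := rfl
          map_mul' := fun _ _ => rfl }
      refine C_of_ker hC ((QuotientGroup.mk' _).subgroupMap B)
        (MonoidHom.subgroupMap_surjective _ _) (f.comp j) hP fun x => ?_
      show f (j x) = 1 ↔ _
      rw [hf]
      constructor
      · intro h1
        obtain ⟨i, hi⟩ := Subgroup.mem_zpowers_iff.1 h1
        have h2 : (e ^ m) ^ i = ((x : Subgroup.centralizer {e}) : G) :=
          (Subgroup.coe_zpow _ _ _).symm.trans (congrArg Subtype.val hi)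
        refine Subtype.ext ((QuotientGroup.eq_one_iff _).2 ?_)
        rw [Subgroup.mem_subgroupOf]
        exact Subgroup.mem_zpowers_iff.2 ⟨m * i, by rw [zpow_mul, h2]⟩
      · intro h1
        have h2 := congrArg Subtype.val h1
        have h3 := (QuotientGroup.eq_one_iff _).1 h2
        rw [Subgroup.mem_subgroupOf] at h3
        obtain ⟨i, hi⟩ := Subgroup.mem_zpowers_iff.1 h3
        obtain ⟨k, rfl⟩ := (hmA i).1 (by rw [hi]; exact (memB _).1 x.2)
        refine Subgroup.mem_zpowers_iff.2 ⟨k, Subtype.ext ?_⟩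
        refine (Subgroup.coe_zpow _ _ _).trans ?_
        show (e ^ m) ^ k = _
        rw [← zpow_mul, hi]
        rfl
  exact ⟨Zq e, inferInstance, QuotientGroup.mk' _, hQ, fun x =>
    (QuotientGroup.eq_one_iff x).trans Subgroup.mem_subgroupOf⟩

end Pool.Agent.E14.RE
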