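import Pool.Agent.E14.RE.Ell2

/-!
# The commensurator of a hyperbolic element
-/

set_option autoImplicit false

namespace Pool.Agent.E14.RE

open SimpleGraph
open scoped commutatorElement
open Pool.Agent.Y110.FJ
open Pool.Agent.R941.FJ (C_equiv C_le C_cyc mem_sup_normal)
open Pool.Agent.N431.CE (Es mem_Es)
open Pool.Agent.Helper270.Tree (TreeAct IsAxis IsLine)

variable {C : ∀ (G : Type) [Group G], Prop}
variable {G V : Type} [Group G] [MulAction G V] {T : SimpleGraph V}

theorem axis_pow {e : G} {L : ℤ → V} {l : ℕ} (hax : IsAxis T e L l) {q : ℕ} (hq : 0 < q) :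
    IsAxis T (e ^ (q : ℤ)) L (q * l) := by
  refine ⟨hax.line, Nat.mul_pos hq hax.pos, fun i => ?_⟩
  rw [hax.smul_zpow]
  push_cast
  rfl

/-- the commensurator preserves the axis -/
theorem kom_line (h : TreeAct G T) {e : G} {L : ℤ → V} {l : ℕ} (hax : IsAxis T e L l) {k : G}
    (hk : k ∈ Kom e) : (∃ c, ∀ i, k • L i = L (c + i)) ∨ (∃ c, ∀ i, k • L i = L (c - i)) := by
  obtain ⟨p, q, hp, hq, hk⟩ := hk
  obtain ⟨p', q', hq', hk'⟩ : ∃ (p' : ℤ) (q' : ℕ), 0 < q' ∧ k * e ^ p' * k⁻¹ = e ^ (q' : ℤ) := by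
    rcases Int.natAbs_eq q with h1 | h1
    · refine ⟨p, q.natAbs, Int.natAbs_pos.2 hq, ?_⟩
      rw [← h1]
      exact hk
    · refine ⟨-p, q.natAbs, Int.natAbs_pos.2 hq, ?_⟩
      have h2 : (q.natAbs : ℤ) = -q := by omega
      rw [h2, zpow_neg, zpow_neg, ← hk]
      group
  refine h.normal_axis (axis_pow hax hq') (p := k) ?_
  have h1 : k⁻¹ * e ^ (q' : ℤ) * k = e ^ p' := by
    rw [← hk']
    group
  rw [h1, ← zpow_add, ← zpow_add, add_comm]

/-- the radical translates the axis -/
theorem rad_line (h : TreeAct G T) {e : G} {L : ℤ → V} {l : ℕ} (hax : IsAxis T e L l) {x : G}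
    (hx : x ∈ Rad e) : ∃ c : ℤ, ∀ i, x • L i = L (c + i) := by
  induction hx using Subgroup.closure_induction with
  | mem x hx =>
    obtain ⟨p, q, hp, hq, hx⟩ := hx
    obtain ⟨p', q', hq', hx'⟩ : ∃ (p' : ℤ) (q' : ℕ), 0 < q' ∧ x ^ p' = e ^ (q' : ℤ) := by
      rcases Int.natAbs_eq q with h1 | h1
      · refine ⟨p, q.natAbs, Int.natAbs_pos.2 hq, ?_⟩
        rw [← h1]
        exact hx
      · refine ⟨-p, q.natAbs, Int.natAbs_pos.2 hq, ?_⟩
        have h2 : (q.natAbs : ℤ) = -q := by omega
        rw [h2, zpow_neg, zpow_neg, ← hx]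
    refine h.commute_axis (axis_pow hax hq') ?_
    rw [← hx']
    group
  | one => exact ⟨0, fun i => by rw [one_smul, zero_add]⟩
  | mul a b _ _ iha ihb =>
    obtain ⟨c, hc⟩ := iha
    obtain ⟨d, hd⟩ := ihb
    exact ⟨c + d, fun i => by rw [mul_smul, hd, hc, add_assoc]⟩
  | inv a _ iha =>
    obtain ⟨c, hc⟩ := iha
    refine ⟨-c, fun i => ?_⟩
    rw [inv_smul_eq_iff, hc]
    congr 1
    ring

/-- the character given by the translation lengths -/
theorem ht_hyp (h : TreeAct G T) {e : G} {L : ℤ → V} {l : ℕ} (hax : IsAxis T e L l) : Ht e := by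
  have hinj : Function.Injective L := fun a b hab => hax.line.injective h.isTree hab
  choose c hc using fun x : Rad e => rad_line h hax x.2
  have hcu : ∀ (x : Rad e) (d : ℤ), (∀ i, (x : G) • L i = L (d + i)) → c x = d := by
    intro x d hd
    have h1 := (hc x 0).symm.trans (hd 0)
    have h2 := hinj h1
    omega
  refine ⟨{ toFun := fun x => Multiplicative.ofAdd (c x : ℚ), map_one' := ?_, map_mul' := ?_ }, ?_⟩
  · have : c 1 = 0 := hcu 1 0 fun i => by
      rw [zero_add]
      exact one_smul G (L i)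
    rw [this]
    rfl
  · intro a b
    have : c (a * b) = c a + c b := hcu _ _ fun i => by
      show ((a : G) * (b : G)) • L i = _
      rw [mul_smul, hc b, hc a, add_assoc]
    rw [this]
    push_cast
    rfl
  · have h1 : c ⟨e, self_mem_Rad e⟩ = l := hcu _ _ fun i => by
      show e • L i = _
      rw [hax.smul, add_comm]
    intro h2
    have h3 : ((c ⟨e, self_mem_Rad e⟩ : ℤ) : ℚ) = 0 := congrArg Multiplicative.toAdd h2
    rw [h1] at h3
    have h4 : (l : ℚ) = 0 := by exact_mod_cast h3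
    have h5 := hax.pos
    have h6 : l = 0 := by exact_mod_cast h4
    omega

/-- small edge groups: finite, or of rank one -/
def Sm (n : ℕ) (E : Subgroup G) : Prop :=
  (∀ F : Finset G, (∀ g ∈ F, g ∈ E) → F.card ≤ n) ∨ ∃ ι : E →* QQ, Function.Injective ι

theorem finite_of_card {E : Subgroup G} {n : ℕ}
    (h : ∀ F : Finset G, (∀ g ∈ F, g ∈ E) → F.card ≤ n) : Finite E := by
  by_contra hinf
  rw [not_finite_iff_infinite] at hinf
  obtain ⟨F, hF⟩ := Infinite.exists_subset_card_eq E (n + 1)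
  have h1 := h (F.map ⟨Subtype.val, Subtype.val_injective⟩) (by
    intro g hg
    rw [Finset.mem_map] at hg
    obtain ⟨x, -, rfl⟩ := hg
    exact x.2)
  rw [Finset.card_map] at h1
  omega

/-- **the commensurator of a hyperbolic element** -/
theorem qe_hyp (hC : ClosedE C) (hM : ∀ (G : Type) [Group G], derivedSeries G 2 = ⊥ → C G)
    (h : TreeAct G T) {e : G} {L : ℤ → V} {l : ℕ} (hax : IsAxis T e L l) {n : ℕ}
    (hE : Sm n (Es G (L 0) (L 1))) : Qe C e := by
  classical
  have hinj : Function.Injective L := fun a b hab => hax.line.injective h.isTree hab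
  obtain ⟨R, hRd⟩ : ∃ R : Subgroup (Kom e), R = (Rad e).subgroupOf (Kom e) := ⟨_, rfl⟩
  have memR : ∀ k : Kom e, k ∈ R ↔ (k : G) ∈ Rad e := by
    intro k
    rw [hRd, Subgroup.mem_subgroupOf]
  have hRn : R.Normal := ⟨fun x hx k => (memR _).2 (Rad_conj k.2 ((memR _).1 hx))⟩
  refine ⟨Kom e ⧸ R, inferInstance, QuotientGroup.mk' R, ?_, fun x => by
    rw [← memR]
    exact QuotientGroup.eq_one_iff x⟩
  -- the pointwise stabilizer of the axis
  obtain ⟨J, hJ⟩ : ∃ J : Subgroup (Kom e), ∀ k : Kom e, k ∈ J ↔ ∀ i, (k : G) • L i = L i := by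
    refine ⟨{ carrier := {k | ∀ i, (k : G) • L i = L i}, one_mem' := fun i => one_smul G _,
              mul_mem' := ?_, inv_mem' := ?_ }, fun k => Iff.rfl⟩
    · intro a b ha hb i
      show ((a : G) * (b : G)) • L i = L i
      rw [mul_smul, hb i, ha i]
    · intro a ha i
      show ((a : G))⁻¹ • L i = L i
      rw [inv_smul_eq_iff, ha i]
  have hJE : ∀ k : Kom e, k ∈ J → (k : G) ∈ Es G (L 0) (L 1) := fun k hk =>
    ⟨(hJ k).1 hk 0, (hJ k).1 hk 1⟩
  refine hC.base.finiteIndex _ (J.map (QuotientGroup.mk' R)) ?_ ?_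
  · -- finite index
    choose b c hbc using fun k : Kom e => (by
      rcases kom_line h hax k.2 with ⟨c, hc⟩ | ⟨c, hc⟩
      · exact ⟨true, c, fun i => by simpa using hc i⟩
      · exact ⟨false, c, fun i => by simpa using hc i⟩ :
        ∃ (b : Bool) (c : ℤ), ∀ i, (k : G) • L i = L (if b then c + i else c - i))
    have key : ∀ k k' : Kom e, b k = b k' → ((c k : ℤ) : ZMod l) = (c k' : ZMod l) →
        (QuotientGroup.mk' R k)⁻¹ * QuotientGroup.mk' R k' ∈ J.map (QuotientGroup.mk' R) := by
      intro k k' hb hcc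
      obtain ⟨t, ht⟩ := (ZMod.intCast_eq_intCast_iff_dvd_sub _ _ _).1 hcc
      obtain ⟨s, hs⟩ : ∃ s : ℤ, ∀ i, ((k : G) * e ^ s) • L i = (k' : G) • L i := by
        cases hbk : b k with
        | true =>
          refine ⟨t, fun i => ?_⟩
          rw [mul_smul, hax.smul_zpow, hbc k, hbc k', ← hb, hbk]
          simp only [if_true]
          congr 1
          linear_combination -ht
        | false =>
          refine ⟨-t, fun i => ?_⟩
          rw [mul_smul, hax.smul_zpow, hbc k, hbc k', ← hb, hbk]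
          simp only [Bool.false_eq_true, if_false]
          congr 1
          linear_combination -ht
      have hes : e ^ s ∈ Rad e := zpow_mem (self_mem_Rad e) s
      obtain ⟨y, hy⟩ : ∃ y : Kom e, y = ⟨e ^ s, Rad_le_Kom e hes⟩ := ⟨_, rfl⟩
      have hyR : y ∈ R := by
        rw [memR, hy]
        exact hes
      refine ⟨(k * y)⁻¹ * k', ?_, ?_⟩
      · show (k * y)⁻¹ * k' ∈ J
        rw [hJ]
        intro i
        show (((k * y : Kom e) : G)⁻¹ * (k' : G)) • L i = L i
        rw [mul_smul, inv_smul_eq_iff, ← hs i]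
        rw [hy]
        rfl
      · show QuotientGroup.mk' R ((k * y)⁻¹ * k') = _
        rw [map_mul, map_inv, map_mul]
        have : QuotientGroup.mk' R y = 1 := (QuotientGroup.eq_one_iff y).2 hyR
        rw [this, mul_one]
    have hl : l ≠ 0 := hax.pos.ne'
    have : NeZero l := ⟨hl⟩
    rw [Subgroup.finiteIndex_iff_finite_quotient]
    refine Finite.of_injective (β := Bool × ZMod l)
      (fun q => (b q.out.out, ((c q.out.out : ℤ) : ZMod l))) ?_
    intro q q' hqq
    have h1 := key _ _ (congrArg Prod.fst hqq) (congrArg Prod.snd hqq)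
    have h2 : ∀ q : (Kom e ⧸ R) ⧸ J.map (QuotientGroup.mk' R),
        (QuotientGroup.mk (QuotientGroup.mk' R q.out.out) :
          (Kom e ⧸ R) ⧸ J.map (QuotientGroup.mk' R)) = q := by
      intro q
      have h3 : QuotientGroup.mk' R q.out.out = q.out := QuotientGroup.out_eq' _
      rw [h3]
      exact QuotientGroup.out_eq' _
    rw [← h2 q, ← h2 q']
    exact QuotientGroup.eq.2 h1
  · rcases hE with hE | ⟨ι, hι⟩
    · have hf := finite_of_card hE
      have hfJ : Finite J := by
        refine Finite.of_injective (β := Es G (L 0) (L 1)) (fun k => ⟨((k : Kom e) : G), hJE k k.2⟩) ?_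
        intro a b hab
        have h1 := congrArg Subtype.val hab
        exact Subtype.ext (Subtype.ext h1)
      have hfm : Finite (J.map (QuotientGroup.mk' R)) := by
        have : Finite ((J : Set (Kom e))) := hfJ
        exact Set.Finite.to_subtype (Set.Finite.image _ (Set.toFinite (J : Set (Kom e))))
      exact Pool.Agent.Y430.SS.of_finite hC.base _ hfm
    · refine C_comm hM ?_
      rintro ⟨_, a, ha, rfl⟩ ⟨_, b, hb, rfl⟩
      apply Subtype.ext
      show ⁅QuotientGroup.mk' R a, QuotientGroup.mk' R b⁆ = 1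
      have h1 : ⁅a, b⁆ = 1 := by
        rw [commutatorElement_eq_one_iff_mul_comm]
        apply Subtype.ext
        show (a : G) * (b : G) = (b : G) * (a : G)
        have h2 : ι (⟨(a : G), hJE a ha⟩ * ⟨(b : G), hJE b hb⟩) =
            ι (⟨(b : G), hJE b hb⟩ * ⟨(a : G), hJE a ha⟩) := by
          rw [map_mul, map_mul, mul_comm]
        exact congrArg Subtype.val (hι h2)
      rw [← map_commutatorElement, h1, map_one]

end Pool.Agent.E14.RE
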