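import Pool.Agent.E14.RE.Cen

/-!
# Quotients of subgroups of the commensurator of a hyperbolic element
-/

set_option autoImplicit false

namespace Pool.Agent.E14.RE

open SimpleGraph
open scoped commutatorElement
open Pool.Agent.Y110.FJ
open Pool.Agent.R941.FJ (C_equiv C_le C_cyc mem_sup_normal)
open Pool.Agent.N431.CE (Es mem_Es)
open Pool.Agent.Helper270.Tree (TreeAct IsAxis IsLine)

variable {C : ∀ (G : Type) [Group G], Prop}
variable {G V : Type} [Group G] [MulAction G V] {T : SimpleGraph V}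

theorem quot_hyp (hC : ClosedE C) (hM : ∀ (G : Type) [Group G], derivedSeries G 2 = ⊥ → C G)
    (h : TreeAct G T) {e : G} {L : ℤ → V} {l : ℕ} (hax : IsAxis T e L l)
    (hE : VAb (Es G (L 0) (L 1))) (K0 : Subgroup G) (hK0 : K0 ≤ Kom e) (he : e ∈ K0)
    (R : Subgroup K0) [R.Normal] (heR : (⟨e, he⟩ : K0) ∈ R) : C (K0 ⧸ R) := by
  classical
  -- the pointwise stabilizer of the axis
  obtain ⟨J, hJ⟩ : ∃ J : Subgroup K0, ∀ k : K0, k ∈ J ↔ ∀ i, (k : G) • L i = L i := by
    refine ⟨{ carrier := {k | ∀ i, (k : G) • L i = L i}, one_mem' := fun i => one_smul G _,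
              mul_mem' := ?_, inv_mem' := ?_ }, fun k => Iff.rfl⟩
    · intro a b ha hb i
      show ((a : G) * (b : G)) • L i = L i
      rw [mul_smul, hb i, ha i]
    · intro a ha i
      show ((a : G))⁻¹ • L i = L i
      rw [inv_smul_eq_iff, ha i]
  have hJE : ∀ k : K0, k ∈ J → (k : G) ∈ Es G (L 0) (L 1) := fun k hk =>
    ⟨(hJ k).1 hk 0, (hJ k).1 hk 1⟩
  refine hC.base.finiteIndex _ (J.map (QuotientGroup.mk' R)) ?_ ?_
  · -- finite index
    choose b c hbc using fun k : K0 => (by
      rcases kom_line h hax (hK0 k.2) with ⟨c, hc⟩ | ⟨c, hc⟩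
      · exact ⟨true, c, fun i => by simpa using hc i⟩
      · exact ⟨false, c, fun i => by simpa using hc i⟩ :
        ∃ (b : Bool) (c : ℤ), ∀ i, (k : G) • L i = L (if b then c + i else c - i))
    have key : ∀ k k' : K0, b k = b k' → ((c k : ℤ) : ZMod l) = (c k' : ZMod l) →
        (QuotientGroup.mk' R k)⁻¹ * QuotientGroup.mk' R k' ∈ J.map (QuotientGroup.mk' R) := by
      intro k k' hb hcc
      obtain ⟨t, ht⟩ := (ZMod.intCast_eq_intCast_iff_dvd_sub _ _ _).1 hcc
      obtain ⟨s, hs⟩ : ∃ s : ℤ, ∀ i, ((k : G) * e ^ s) • L i = (k' : G) • L i := by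
        cases hbk : b k with
        | true =>
          refine ⟨t, fun i => ?_⟩
          rw [mul_smul, hax.smul_zpow, hbc k, hbc k', ← hb, hbk]
          simp only [if_true]
          congr 1
          linear_combination -ht
        | false =>
          refine ⟨-t, fun i => ?_⟩
          rw [mul_smul, hax.smul_zpow, hbc k, hbc k', ← hb, hbk]
          simp only [Bool.false_eq_true, if_false]
          congr 1
          linear_combination -ht
      obtain ⟨y, hy⟩ : ∃ y : K0, y = (⟨e, he⟩ : K0) ^ s := ⟨_, rfl⟩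
      have hyR : y ∈ R := by
        rw [hy]
        exact zpow_mem heR s
      have hyG : (y : G) = e ^ s := by
        rw [hy]
        rfl
      refine ⟨(k * y)⁻¹ * k', ?_, ?_⟩
      · show (k * y)⁻¹ * k' ∈ J
        rw [hJ]
        intro i
        show (((k : G) * (y : G))⁻¹ * (k' : G)) • L i = L i
        rw [mul_smul, inv_smul_eq_iff, ← hs i, hyG]
      · show QuotientGroup.mk' R ((k * y)⁻¹ * k') = _
        rw [map_mul, map_inv, map_mul]
        have : QuotientGroup.mk' R y = 1 := (QuotientGroup.eq_one_iff y).2 hyR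
        rw [this, mul_one]
    have hl : l ≠ 0 := hax.pos.ne'
    have : NeZero l := ⟨hl⟩
    rw [Subgroup.finiteIndex_iff_finite_quotient]
    refine Finite.of_injective (β := Bool × ZMod l)
      (fun q => (b q.out.out, ((c q.out.out : ℤ) : ZMod l))) ?_
    intro q q' hqq
    have h1 := key _ _ (congrArg Prod.fst hqq) (congrArg Prod.snd hqq)
    have h2 : ∀ q : (K0 ⧸ R) ⧸ J.map (QuotientGroup.mk' R),
        (QuotientGroup.mk (QuotientGroup.mk' R q.out.out) :
          (K0 ⧸ R) ⧸ J.map (QuotientGroup.mk' R)) = q := by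
      intro q
      have h3 : QuotientGroup.mk' R q.out.out = q.out := QuotientGroup.out_eq' _
      rw [h3]
      exact QuotientGroup.out_eq' _
    rw [← h2 q, ← h2 q']
    exact QuotientGroup.eq.2 h1
  · have hJv : VAb J := by
      refine hE.sub ((K0.subtype.comp J.subtype).codRestrict (Es G (L 0) (L 1))
        fun k => hJE k k.2) ?_
      intro a b hab
      have h1 := congrArg Subtype.val hab
      exact Subtype.ext (Subtype.ext h1)
    exact C_VAb hC hM (hJv.quot ((QuotientGroup.mk' R).subgroupMap J)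
      (MonoidHom.subgroupMap_surjective _ _))

/-- **hyperbolic elements** -/
theorem hyp_all (hC : ClosedE C) (hM : ∀ (G : Type) [Group G], derivedSeries G 2 = ⊥ → C G)
    (h : TreeAct G T) {e : G} {L : ℤ → V} {l : ℕ} (hax : IsAxis T e L l)
    (hE : ∀ u v, T.Adj u v → Vcy (Es G u v)) : Qe C e ∧ Cen C e := by
  have hE' : VAb (Es G (L 0) (L 1)) := (hE _ _ (by simpa using hax.line.adj 0)).vab
  constructor
  · have hn : ((Rad e).subgroupOf (Kom e)).Normal := ⟨fun x hx k => Rad_conj k.2 hx⟩
    refine ⟨Kom e ⧸ (Rad e).subgroupOf (Kom e), inferInstance, QuotientGroup.mk' _,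
      quot_hyp hC hM h hax hE' (Kom e) le_rfl (Rad_le_Kom e (self_mem_Rad e)) _ (self_mem_Rad e),
      fun x => ?_⟩
    exact (QuotientGroup.eq_one_iff x).trans Subgroup.mem_subgroupOf
  · refine ⟨Zq e, inferInstance, QuotientGroup.mk' _,
      quot_hyp hC hM h hax hE' (Subgroup.centralizer {e}) (cen_le_Kom e) (mem_cen.2 rfl) _ ?_,
      fun x => ?_⟩
    · rw [Subgroup.mem_subgroupOf]
      exact Subgroup.mem_zpowers e
    · exact (QuotientGroup.eq_one_iff x).trans Subgroup.mem_subgroupOf

end Pool.Agent.E14.RE
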