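import Pool.Agent.E14.RE.Bal

/-!
# The class of the vertex groups
-/

set_option autoImplicit false

namespace Pool.Agent.E14.RE

open scoped commutatorElement
open Pool.Agent.Y110.FJ

variable {C : ∀ (G : Type) [Group G], Prop}
variable {G : Type} [Group G]

theorem Rad_sub {P : Subgroup G} {e : P} (h : Kom (e : G) ≤ P) :
    (Rad e).map P.subtype = Rad (e : G) := by
  rw [Rad, Rad, MonoidHom.map_closure]
  congr 1
  ext x
  constructor
  · rintro ⟨y, hy, rfl⟩
    exact Cm_sub.1 hy
  · intro hx
    have hx : Cm (e : G) x := hx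
    exact ⟨⟨x, h hx.mem_Kom⟩, Cm_sub.2 hx, rfl⟩

/-- **the conditions depend only on the commensurators** -/
theorem tv_local (hG : C G) (h : ∀ e : G, Io e → ∃ P : Subgroup G, Kom e ≤ P ∧ TV C P) :
    TV C G := by
  have key : ∀ e : G, Io e → Qe C e ∧ Ht e ∧ Cen C e := by
    intro e he
    obtain ⟨P, hP, hTV⟩ := h e he
    have heP : e ∈ P := hP (Cm.refl e).mem_Kom
    obtain ⟨e', he'⟩ : ∃ e' : P, (e' : G) = e := ⟨⟨e, heP⟩, rfl⟩
    subst he'
    have hio : Io e' := Io_sub.2 he
    have hRad := Rad_sub hP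
    have memR : ∀ x : P, x ∈ Rad e' ↔ (x : G) ∈ Rad (e' : G) := by
      intro x
      rw [← hRad]
      constructor
      · intro hx
        exact ⟨x, hx, rfl⟩
      · rintro ⟨y, hy, hyx⟩
        have : y = x := Subtype.ext hyx
        rwa [← this]
    refine ⟨?_, ?_, ?_⟩
    · obtain ⟨Q, _, f, hQ, hf⟩ := hTV.tame.quot e' hio
      let j : Kom (e' : G) →* Kom e' :=
        { toFun := fun x => ⟨⟨x, hP x.2⟩, Kom_sub.2 x.2⟩
          map_one' := rfl
          map_mul' := fun _ _ => rfl }
      refine ⟨Q, _, f.comp j, hQ, fun x => ?_⟩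
      show f (j x) = 1 ↔ _
      exact (hf _).trans (memR _)
    · have h1 := hTV.tame.char e' hio
      refine Ht.of_notMem fun N hN hcon => ?_
      rw [← hRad, ← Subgroup.map_commutator] at hcon
      obtain ⟨y, hy, hye⟩ := hcon
      have : y = e' ^ N := Subtype.ext (hye.trans (Subgroup.coe_zpow _ _ _).symm)
      rw [this] at hy
      exact h1.notMem hN hy
    · obtain ⟨Q, _, f, hQ, hf⟩ := hTV.cen e' hio
      let j : Subgroup.centralizer {(e' : G)} →* Subgroup.centralizer {e'} :=
        { toFun := fun x => ⟨⟨x, hP (cen_le_Kom _ x.2)⟩, by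
            rw [mem_cen]
            exact Subtype.ext (mem_cen.1 x.2)⟩
          map_one' := rfl
          map_mul' := fun _ _ => rfl }
      refine ⟨Q, _, f.comp j, hQ, fun x => ?_⟩
      show f (j x) = 1 ↔ _
      rw [hf]
      constructor
      · intro h1
        obtain ⟨i, hi⟩ := Subgroup.mem_zpowers_iff.1 h1
        exact Subgroup.mem_zpowers_iff.2 ⟨i, (Subgroup.coe_zpow _ _ _).symm.trans
          (congrArg Subtype.val hi)⟩
      · intro h1
        obtain ⟨i, hi⟩ := Subgroup.mem_zpowers_iff.1 h1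
        exact Subgroup.mem_zpowers_iff.2 ⟨i, Subtype.ext ((Subgroup.coe_zpow _ _ _).trans hi)⟩
  exact ⟨⟨hG, fun e he => (key e he).1, fun e he => (key e he).2.1⟩, fun e he => (key e he).2.2⟩

/-- virtually abelian groups -/
theorem VAb.tv (hC : ClosedE C) (hM : ∀ (G : Type) [Group G], derivedSeries G 2 = ⊥ → C G)
    (h : VAb G) : TV C G :=
  tv_vab hC hM (C_VAb hC hM h) fun e _ => h.sub (Kom e).subtype (Kom e).subtype_injective

/-- virtually solvable groups in which the elements of infinite order have infinite order in the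
abelianization of the radical -/
theorem VSo.tv (hC : ClosedE C) (hM : ∀ (G : Type) [Group G], derivedSeries G 2 = ⊥ → C G)
    (h : VSo G) (hH : ∀ e : G, Io e → Ht e) : TV C G := by
  refine ⟨⟨C_VSo hC hM h, fun e he => ?_, hH⟩, (tb_vso hC hM h).cen⟩
  have hn : ((Rad e).subgroupOf (Kom e)).Normal := ⟨fun x hx k => Rad_conj k.2 hx⟩
  refine ⟨Kom e ⧸ (Rad e).subgroupOf (Kom e), inferInstance, QuotientGroup.mk' _,
    C_VSo hC hM ((h.sub (Kom e).subtype (Kom e).subtype_injective).quot _
      (QuotientGroup.mk'_surjective _)), fun x => ?_⟩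
  exact (QuotientGroup.eq_one_iff x).trans Subgroup.mem_subgroupOf

/-- locally nilpotent groups -/
theorem LN.tv (hC : ClosedE C) (hM : ∀ (G : Type) [Group G], derivedSeries G 2 = ⊥ → C G)
    (h : LN G) : TV C G := by
  refine ⟨h.tame hC hM, fun e he => ⟨Zq e, inferInstance, QuotientGroup.mk' _,
    C_LN hC hM ((h.sub (Subgroup.subtype _) (Subgroup.subtype_injective _)).quot _
      (QuotientGroup.mk'_surjective _)), fun x => ?_⟩⟩
  exact (QuotientGroup.eq_one_iff x).trans Subgroup.mem_subgroupOf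

/-- unique roots -/
def UR (G : Type) [Group G] : Prop := ∀ (x y : G) (n : ℤ), n ≠ 0 → x ^ n = y ^ n → x = y

theorem UR.commute (h : UR G) {x y : G} {n : ℤ} (hn : n ≠ 0) (hxy : Commute (x ^ n) y) :
    Commute x y := by
  have h1 : (y * x * y⁻¹) ^ n = x ^ n := by
    rw [cj_zpow, ← hxy.eq, mul_inv_cancel_right]
  exact (mul_inv_eq_iff_eq_mul.1 (h _ _ n hn h1)).symm

theorem UR.ht (h : UR G) {e : G} (he : Io e) : Ht e := by
  have h1 : ∀ x y : G, Cm e x → Cm e y → Commute x y := by
    rintro x y ⟨p, q, hp, hq, h1⟩ ⟨r, s, hr, hs, h2⟩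
    refine h.commute hp ?_
    rw [h1]
    refine (h.commute hr ?_).symm
    rw [h2]
    exact ((Commute.refl e).zpow_zpow s q)
  refine Ht.of_notMem fun N hN hcon => he N hN ?_
  have h2 : ∀ x ∈ Rad e, ∀ y ∈ Rad e, Commute x y := by
    intro x hx y hy
    induction hx using Subgroup.closure_induction with
    | mem x hx =>
      induction hy using Subgroup.closure_induction with
      | mem y hy => exact h1 x y hx hy
      | one => exact Commute.one_right x
      | mul a b _ _ ha hb => exact ha.mul_right hb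
      | inv a _ ha => exact ha.inv_right
    | one => exact Commute.one_left y
    | mul a b _ _ ha hb => exact ha.mul_left hb
    | inv a _ ha => exact ha.inv_left
  have h3 : ⁅Rad e, Rad e⁆ ≤ ⊥ := by
    rw [Subgroup.commutator_le]
    intro x hx y hy
    rw [Subgroup.mem_bot]
    exact commutatorElement_eq_one_iff_mul_comm.2 (h2 x hx y hy)
  exact Subgroup.mem_bot.1 (h3 hcon)

end Pool.Agent.E14.RE
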