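import Pool.Agent.E14.RE.Rel

/-!
# The relative criterion
-/

set_option autoImplicit false

namespace Pool.Agent.E14.RE

open SimpleGraph
open scoped commutatorElement
open Pool.Agent.Y110.FJ
open Pool.Agent.N509.TK
open Pool.Agent.R941.FJ (C_equiv C_le C_cyc mem_sup_normal)

variable {C : ∀ (G : Type) [Group G], Prop}

/-- a quotient given by two homomorphisms with the same kernel -/
theorem C_of_ker (hC : ClosedE C) {A B P : Type} [Group A] [Group B] [Group P] (ψ : A →* B)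
    (hψ : Function.Surjective ψ) (f : A →* P) (hP : C P) (h : ∀ x, f x = 1 ↔ ψ x = 1) : C B := by
  have hk : f.ker = ψ.ker := by
    ext x
    exact h x
  let e1 : A ⧸ ψ.ker ≃* B := QuotientGroup.quotientKerEquivOfSurjective ψ hψ
  let e2 : A ⧸ f.ker ≃* f.range := QuotientGroup.quotientKerEquivRange f
  have h1 : C f.range := hC.base.of_injective _ _ f.range.subtype f.range.subtype_injective hP
  have h2 : C (A ⧸ f.ker) := C_equiv hC.base e2 h1
  have h3 : C (A ⧸ ψ.ker) := C_equiv hC.base (QuotientGroup.quotientMulEquivOfEq hk.symm) h2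
  exact C_equiv hC.base e1.symm h3

variable {G V : Type} {T : SimpleGraph V} [Group G] [MulAction G V] {L : Subgroup G}
  {M : V → Subgroup G}

/-- `Stab v / M v` is in the class -/
def QV (C : ∀ (G : Type) [Group G], Prop) {G V : Type} [Group G] [MulAction G V]
    (M : V → Subgroup G) : Prop :=
  ∀ v : V, ∃ (P : Type) (_ : Group P) (f : MulAction.stabilizer G v →* P), C P ∧
    ∀ x, f x = 1 ↔ (x : G) ∈ M v

/-- the quotient by the group generated by the family -/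
theorem Rd.quot (hC : ClosedE C) (hT : T.IsTree)
    (hact : ∀ (g : G) (u v : V), T.Adj u v → T.Adj (g • u) (g • v)) [L.Normal] (hR : Rd T L M)
    (hQ : C (G ⧸ L)) (hQV : QV C M) [(⨆ v, M v).Normal] : C (G ⧸ ⨆ v, M v) := by
  obtain ⟨H, hH⟩ : ∃ H : Subgroup G, H = ⨆ v, M v := ⟨_, rfl⟩
  obtain ⟨S, hS⟩ := Tv.exists (R := Sb (V := V) (⨆ v, M v)) hT
  have hq := Tq.of_Sb hT hact (⨆ v, M v) hS
  rw [hR.sup_Sb hT hact] at hq
  have hstab : ∀ (v : V) (x : G), x ∈ ⨆ v, M v → x • v = v → x ∈ M v :=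
    fun v x hx hv => hR.stab hT hact hx hv
  have hHL : (⨆ v, M v) ≤ L := hR.le_L
  have hMH : ∀ v, M v ≤ ⨆ v, M v := fun v => le_iSup M v
  let _ := qa hq
  have hsm : ∀ (g : G) (s : S), ((g : G ⧸ ⨆ v, M v) • s : S) = sm hq g s := fun _ _ => rfl
  have key : ∀ (s : S) (q : G ⧸ ⨆ v, M v), q • s = s → ∃ g : G, g • (s : V) = s ∧
      (g : G ⧸ ⨆ v, M v) = q := by
    intro s q hqs
    obtain ⟨g, rfl⟩ := QuotientGroup.mk_surjective q
    obtain ⟨h, hh, h2⟩ := sm_spec hq g s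
    have h1 : sm hq g s = s := hqs
    rw [h1] at h2
    refine ⟨h⁻¹ * g, by rw [mul_smul, h2, inv_smul_smul], ?_⟩
    rw [QuotientGroup.mk_mul, QuotientGroup.mk_inv, (QuotientGroup.eq_one_iff h).2 hh, inv_one,
      one_mul]
  have hL' : ∀ x ∈ ⨆ v, M v, (QuotientGroup.mk' L) x = 1 := fun x hx =>
    (QuotientGroup.eq_one_iff x).2 (hHL hx)
  refine crit (T := T.induce S) (V := S) hC (hq.isTree hT) ?_
    (QuotientGroup.lift _ (QuotientGroup.mk' L) hL') hQ ?_ ?_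
  · intro q s t hst
    obtain ⟨g, rfl⟩ := QuotientGroup.mk_surjective q
    exact sm_adj hact hq g s t hst
  · intro s t hst q hqs hqt hfq
    have hst : T.Adj (s : V) (t : V) := hst
    obtain ⟨g, hgs, rfl⟩ := key s q hqs
    have hgL : g ∈ L := (QuotientGroup.eq_one_iff g).1 hfq
    -- `g • t` is in the orbit of `t`
    obtain ⟨h, hh, h2⟩ := sm_spec hq g t
    have h1 : sm hq g t = t := hqt
    rw [h1] at h2
    have h3 : T.Adj (s : V) (g • (t : V)) := by
      have := hact g _ _ hst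
      rwa [hgs] at this
    obtain ⟨u, hu, h4, k, hk, hks, hku⟩ := hq.max s s.2 _ h3
    have h5 : u = t := by
      refine hq.trans (h⁻¹ * k) (mul_mem (inv_mem hh) hk) u hu t t.2 ?_
      rw [mul_smul, hku, h2, inv_smul_smul]
    subst h5
    have h6 : k⁻¹ * g ∈ Sb L (s : V) := by
      refine mem_Sb.2 ⟨?_, L.mul_mem (L.inv_mem (hHL hk)) hgL⟩
      rw [mul_smul, hgs]
      exact inv_smul_eq_iff.2 hks.symm
    have h7 : k⁻¹ * g ∈ Sb L (t : V) := by
      refine mem_Sb.2 ⟨?_, L.mul_mem (L.inv_mem (hHL hk)) hgL⟩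
      rw [mul_smul]
      exact inv_smul_eq_iff.2 hku.symm
    have h8 := hMH _ (hR.edge _ _ hst _ h6 h7)
    refine (QuotientGroup.eq_one_iff g).2 ?_
    have h9 := mul_mem hk h8
    rwa [mul_inv_cancel_left] at h9
  · intro s q _
    refine C_le hC.base (K := MulAction.stabilizer (G ⧸ ⨆ v, M v) s) (_root_.sup_le inf_le_left ?_) ?_
    · rw [Subgroup.zpowers_le]
      assumption
    obtain ⟨P, _, f, hP, hf⟩ := hQV (s : V)
    let ψ : MulAction.stabilizer G (s : V) →* MulAction.stabilizer (G ⧸ ⨆ v, M v) s :=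
      { toFun := fun g => ⟨((g : G) : G ⧸ ⨆ v, M v), by
          refine sm_eq hq (h := 1) (one_mem _) ?_
          rw [one_smul]
          exact g.2⟩
        map_one' := rfl
        map_mul' := fun _ _ => rfl }
    refine C_of_ker hC ψ ?_ f hP ?_
    · rintro ⟨q, hq'⟩
      obtain ⟨g, hgs, hg⟩ := key s q hq'
      exact ⟨⟨g, hgs⟩, Subtype.ext hg⟩
    · intro x
      rw [hf x]
      constructor
      · intro hx
        exact Subtype.ext ((QuotientGroup.eq_one_iff (x : G)).2 (hMH _ hx))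
      · intro hx
        have h1 : ((x : G) : G ⧸ ⨆ v, M v) = 1 := congrArg Subtype.val hx
        exact hstab _ _ ((QuotientGroup.eq_one_iff (x : G)).1 h1) x.2

/-- an extension of a group in the class by an abelian group -/
theorem ab_ext (hC : ClosedE C) (hM : ∀ (G : Type) [Group G], derivedSeries G 2 = ⊥ → C G)
    {Γ : Type} [Group Γ] (N : Subgroup Γ) [N.Normal] (hab : ∀ x ∈ N, ∀ y ∈ N, x * y = y * x)
    (hQ : C (Γ ⧸ N)) : C Γ := by
  have key : ∀ g : Γ, C ↥(N ⊔ Subgroup.zpowers g) := by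
    intro g
    refine hM _ (metab (N.subgroupOf (N ⊔ Subgroup.zpowers g)) ?_ ?_)
    · intro x hx y hy
      exact Subtype.ext (hab x hx y hy)
    · rintro ⟨x, hx⟩ ⟨y, hy⟩
      obtain ⟨a, ha, _, ⟨i, rfl⟩, rfl⟩ := mem_sup_normal.1 hx
      obtain ⟨b, hb, _, ⟨j, rfl⟩, rfl⟩ := mem_sup_normal.1 hy
      rw [Subgroup.mem_subgroupOf]
      show ⁅a * g ^ i, b * g ^ j⁆ ∈ N
      rw [← QuotientGroup.eq_one_iff]
      have h1 : ((⁅a * g ^ i, b * g ^ j⁆ : Γ) : Γ ⧸ N) =
          ⁅((a * g ^ i : Γ) : Γ ⧸ N), ((b * g ^ j : Γ) : Γ ⧸ N)⁆ := rfl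
      rw [h1, QuotientGroup.mk_mul, QuotientGroup.mk_mul, (QuotientGroup.eq_one_iff a).2 ha,
        (QuotientGroup.eq_one_iff b).2 hb, one_mul, one_mul, commutatorElement_eq_one_iff_mul_comm]
      show ((g : Γ ⧸ N)) ^ i * ((g : Γ ⧸ N)) ^ j = _
      rw [← zpow_add, add_comm, zpow_add]
      rfl
  refine Pool.Agent.Y529.FJ.t_ext C hC _ N ?_ hQ fun g _ => key g
  exact C_le hC.base le_sup_left (key 1)

/-- the quotient by the commutator group is in the class -/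
theorem Rd.target (hC : ClosedE C) (hM : ∀ (G : Type) [Group G], derivedSeries G 2 = ⊥ → C G)
    (hT : T.IsTree) (hact : ∀ (g : G) (u v : V), T.Adj u v → T.Adj (g • u) (g • v)) [L.Normal]
    (hR : Rd T L M) (hQ : C (G ⧸ L)) (hQV : QV C M) (D : Subgroup G) [D.Normal]
    (hD : D = ⁅(⨆ v, M v), (⨆ v : V, Sb L v)⁆) : C (G ⧸ D) := by
  have hn := hR.normal
  have hn2 : (⨆ v : V, Sb L v).Normal := Sb_normal L
  have hGH := hR.quot hC hT hact hQ hQV
  have hMH := hR.sup_le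
  obtain ⟨H, hH⟩ : ∃ H : Subgroup G, H = ⨆ v, M v := ⟨_, rfl⟩
  have hDH : D ≤ H := by
    rw [hD, hH, Subgroup.commutator_le]
    intro a ha b hb
    rw [commutatorElement_def]
    have h1 : a * b * a⁻¹ * b⁻¹ = a * (b * a⁻¹ * b⁻¹) := by group
    rw [h1]
    exact mul_mem ha (hn.conj_mem _ (inv_mem ha) b)
  have hab : ∀ a ∈ H, ∀ b ∈ H, (a * b)⁻¹ * (b * a) ∈ D := by
    intro a ha b hb
    have h1 : (a * b)⁻¹ * (b * a) = ⁅b⁻¹, a⁻¹⁆ := by
      rw [commutatorElement_def]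
      group
    rw [h1, hD]
    rw [hH] at ha hb
    exact Subgroup.commutator_mem_commutator (inv_mem hb) (inv_mem (hMH ha))
  have hHn : H.Normal := by
    rw [hH]
    exact hn
  have hGH' : C (G ⧸ H) := by
    subst hH
    exact hGH
  have hNn : (H.map (QuotientGroup.mk' D)).Normal :=
    Subgroup.Normal.map inferInstance _ (QuotientGroup.mk'_surjective _)
  obtain ⟨N, hN⟩ : ∃ N : Subgroup (G ⧸ D), N = H.map (QuotientGroup.mk' D) := ⟨_, rfl⟩
  rw [← hN] at hNn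
  have hQN : C ((G ⧸ D) ⧸ N) := by
    subst hN
    exact C_equiv hC.base (QuotientGroup.quotientQuotientEquivQuotient D H hDH) hGH'
  refine ab_ext hC hM N ?_ hQN
  rw [hN]
  rintro _ ⟨a, ha, rfl⟩ _ ⟨b, hb, rfl⟩
  rw [← map_mul, ← map_mul]
  exact QuotientGroup.eq.2 (hab a ha b hb)

/-- **the relative criterion** -/
theorem Rd.main (hC : ClosedE C) (hM : ∀ (G : Type) [Group G], derivedSeries G 2 = ⊥ → C G)
    (hT : T.IsTree) (hact : ∀ (g : G) (u v : V), T.Adj u v → T.Adj (g • u) (g • v)) [L.Normal]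
    (hR : Rd T L M) (hQ : C (G ⧸ L)) (hQV : QV C M)
    (hE : ∀ v u, T.Adj v u → ∀ x ∈ Sb L v, x ∈ Sb L u → x ∈ ⁅M v, Sb L v⁆ → x = 1)
    (hV : ∀ (v : V) (g : G), g • v = v → C ↥(Sb L v ⊔ Subgroup.zpowers g)) : C G := by
  have hn := hR.normal
  have hn2 : (⨆ v : V, Sb L v).Normal := Sb_normal L
  obtain ⟨D, hD⟩ : ∃ D : Subgroup G, D = ⁅(⨆ v, M v), (⨆ v : V, Sb L v)⁆ := ⟨_, rfl⟩
  have hDn : D.Normal := by
    rw [hD]
    infer_instance
  have hDM : D ≤ ⨆ v, M v := by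
    rw [hD, Subgroup.commutator_le]
    intro a ha b hb
    rw [commutatorElement_def]
    have h1 : a * b * a⁻¹ * b⁻¹ = a * (b * a⁻¹ * b⁻¹) := by group
    rw [h1]
    exact mul_mem ha (hn.conj_mem _ (inv_mem ha) b)
  have hDL : D ≤ L := hDM.trans hR.le_L
  have hP := hR.target hC hM hT hact hQ hQV D hD
  refine crit hC hT hact (QuotientGroup.mk' D) hP ?_ ?_
  · intro u v huv g hgu hgv hg
    have h2 : g ∈ D := (QuotientGroup.eq_one_iff g).1 hg
    have h3 : g ∈ Sb L u := mem_Sb.2 ⟨hgu, hDL h2⟩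
    have h4 : g ∈ Sb L v := mem_Sb.2 ⟨hgv, hDL h2⟩
    exact hE u v huv g h3 h4
      (hR.h1 hT hact hE u (hR.edge u v huv g h3 h4) (hD ▸ h2))
  · intro v g hg
    refine C_le hC.base (sup_le_sup_right ?_ _) (hV v g hg)
    rintro x ⟨hx1, hx2⟩
    exact mem_Sb.2 ⟨hx1, hDL ((QuotientGroup.eq_one_iff x).1 hx2)⟩

/-- the edge groups intersect the commutator group of the group generated by the family trivially -/
theorem Rd.edge_comm (hT : T.IsTree)
    (hact : ∀ (g : G) (u v : V), T.Adj u v → T.Adj (g • u) (g • v)) [L.Normal] (hR : Rd T L M)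
    (hE : ∀ v u, T.Adj v u → ∀ x ∈ Sb L v, x ∈ Sb L u → x ∈ ⁅M v, Sb L v⁆ → x = 1)
    {u v : V} (huv : T.Adj u v) {x : G} (hu : x ∈ Sb L u) (hv : x ∈ Sb L v)
    (h : x ∈ ⁅(⨆ v, M v), (⨆ v, M v)⁆) : x = 1 :=
  hE u v huv x hu hv (hR.h1 hT hact hE u (hR.edge u v huv x hu hv)
    (Subgroup.commutator_mono le_rfl hR.sup_le h))

end Pool.Agent.E14.RE
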