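import Pool.Agent.E14.RE.Tree

/-!
# Locally nilpotent groups
-/

set_option autoImplicit false

namespace Pool.Agent.E14.RE

open scoped commutatorElement
open Pool.Agent.Y110.FJ
open Pool.Agent.R941.FJ (C_equiv C_le C_cyc mem_sup_normal)

variable {C : ∀ (G : Type) [Group G], Prop}

section solv

theorem derived_comm {G : Type} [Group G] (n : ℕ) (h : derivedSeries G (n + 1) = ⊥) :
    ∀ x ∈ derivedSeries G n, ∀ y ∈ derivedSeries G n, x * y = y * x := by
  intro x hx y hy
  have h1 : ⁅x, y⁆ ∈ derivedSeries G (n + 1) := by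
    rw [derivedSeries_succ]
    exact Subgroup.commutator_mem_commutator hx hy
  rw [h, Subgroup.mem_bot] at h1
  exact commutatorElement_eq_one_iff_mul_comm.1 h1

/-- solvable groups are in the class -/
theorem C_solv (hC : ClosedE C) (hM : ∀ (G : Type) [Group G], derivedSeries G 2 = ⊥ → C G) (n : ℕ) :
    ∀ (G : Type) [Group G], derivedSeries G n = ⊥ → C G := by
  induction n with
  | zero =>
    intro G _ h
    refine hM G ?_
    rw [derivedSeries_zero] at h
    rw [eq_bot_iff, ← h]
    exact le_top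
  | succ n ih =>
    intro G _ h
    have hn : (derivedSeries G n).Normal := inferInstance
    refine ab_ext hC hM (derivedSeries G n) (derived_comm n h) (ih _ ?_)
    have h1 := map_derivedSeries_eq (f := QuotientGroup.mk' (derivedSeries G n))
      (QuotientGroup.mk'_surjective _) n
    rw [← h1, Subgroup.map_eq_bot_iff, QuotientGroup.ker_mk']

end solv

/-- locally nilpotent -/
def LN (G : Type) [Group G] : Prop := ∀ H : Subgroup G, H.FG → Group.IsNilpotent H

theorem LN.sub {G A : Type} [Group G] [Group A] (h : LN G) (f : A →* G) (hf : Function.Injective f) :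
    LN A := by
  intro H hH
  have h1 : (H.map f).FG := by
    obtain ⟨S, hS⟩ := hH
    classical
    refine ⟨S.image f, ?_⟩
    rw [Finset.coe_image, ← MonoidHom.map_closure, hS]
  have h2 := h _ h1
  exact Group.nilpotent_of_mulEquiv (H.equivMapOfInjective f hf).symm

theorem LN.quot {G A : Type} [Group G] [Group A] (h : LN G) (f : G →* A)
    (hf : Function.Surjective f) : LN A := by
  classical
  rintro H ⟨S, hS⟩
  choose g hg using hf
  have h1 : ((Subgroup.closure ((S.image g : Finset G) : Set G))).FG := ⟨S.image g, rfl⟩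
  have h2 := h _ h1
  have h3 : (Subgroup.closure ((S.image g : Finset G) : Set G)).map f = H := by
    rw [MonoidHom.map_closure, ← hS, Finset.coe_image, ← Set.image_comp]
    congr 1
    ext x
    simp [hg]
  rw [← h3]
  exact Group.nilpotent_of_surjective
    (f.subgroupMap (Subgroup.closure ((S.image g : Finset G) : Set G)))
    (f.subgroupMap_surjective _)

theorem C_LN (hC : ClosedE C) (hM : ∀ (G : Type) [Group G], derivedSeries G 2 = ⊥ → C G)
    {G : Type} [Group G] (h : LN G) : C G := by
  refine Pool.Agent.N509.TX.of_fg hC fun H hH => ?_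
  have h1 := h H ((Group.fg_iff_subgroup_fg H).1 hH)
  have h2 : Group.IsSolvable H := inferInstance
  obtain ⟨n, hn⟩ := h2
  exact C_solv hC hM n H hn

section tor

/-- torsion elements -/
def Tn {G : Type} [Group G] (x : G) : Prop := ∃ N : ℤ, N ≠ 0 ∧ x ^ N = 1

theorem Tn.one {G : Type} [Group G] : Tn (1 : G) := ⟨1, one_ne_zero, one_zpow 1⟩

theorem Tn.inv {G : Type} [Group G] {x : G} (h : Tn x) : Tn x⁻¹ := by
  obtain ⟨N, hN, h⟩ := h
  exact ⟨N, hN, by rw [inv_zpow, h, inv_one]⟩

theorem Tn.mul {G : Type} [Group G] {x y : G} (hxy : Commute x y) (hx : Tn x) (hy : Tn y) :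
    Tn (x * y) := by
  obtain ⟨N, hN, hx⟩ := hx
  obtain ⟨M, hM, hy⟩ := hy
  refine ⟨N * M, mul_ne_zero hN hM, ?_⟩
  rw [hxy.mul_zpow, zpow_mul, hx, one_zpow, mul_comm, zpow_mul, hy, one_zpow, one_mul]

theorem Tn.of_pow {G : Type} [Group G] {x : G} {N : ℤ} (hN : N ≠ 0) (h : Tn (x ^ N)) : Tn x := by
  obtain ⟨M, hM, h⟩ := h
  exact ⟨N * M, mul_ne_zero hN hM, by rw [zpow_mul, h]⟩

/-- powers in the first variable -/
theorem comm_pow_left {G : Type} [Group G] {g x : G} (hc : ∀ y, Commute ⁅g, x⁆ y) (N : ℤ) :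
    ⁅g ^ N, x⁆ = ⁅g, x⁆ ^ N := by
  have h1 : x * g * x⁻¹ = ⁅g, x⁆⁻¹ * g := by
    rw [commutatorElement_def]
    group
  have h2 : x * g ^ N * x⁻¹ = ⁅g, x⁆⁻¹ ^ N * g ^ N := by
    rw [← cj_zpow, h1, ((hc g).inv_left).mul_zpow]
  have h3 : ⁅g ^ N, x⁆ = g ^ N * (x * g ^ N * x⁻¹)⁻¹ := by
    rw [commutatorElement_def]
    group
  rw [h3, h2, mul_inv_rev, ← mul_assoc, mul_inv_cancel, one_mul, inv_zpow, inv_inv]

theorem comm_pow_right {G : Type} [Group G] {g x : G} (hc : ∀ y, Commute ⁅g, x⁆ y) (N : ℤ) :
    ⁅g, x ^ N⁆ = ⁅g, x⁆ ^ N := by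
  have h1 : g * x * g⁻¹ = ⁅g, x⁆ * x := by
    rw [commutatorElement_def]
    group
  have h2 : g * x ^ N * g⁻¹ = ⁅g, x⁆ ^ N * x ^ N := by
    rw [← cj_zpow, h1, (hc x).mul_zpow]
  have h3 : ⁅g, x ^ N⁆ = (g * x ^ N * g⁻¹) * (x ^ N)⁻¹ := by
    rw [commutatorElement_def]
  rw [h3, h2, mul_inv_cancel_right]

theorem comm_mul_right {G : Type} [Group G] {g x y : G} (hc : ∀ z, Commute ⁅g, y⁆ z) :
    ⁅g, x * y⁆ = ⁅g, x⁆ * ⁅g, y⁆ := by
  have h1 : ⁅g, x * y⁆ = ⁅g, x⁆ * (x * ⁅g, y⁆ * x⁻¹) := by
    simp only [commutatorElement_def]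
    group
  rw [h1, ← (hc x).eq, mul_inv_cancel_right]

theorem comm_mul_left {G : Type} [Group G] {g h x : G} (hc : ∀ z, Commute ⁅h, x⁆ z) :
    ⁅g * h, x⁆ = ⁅h, x⁆ * ⁅g, x⁆ := by
  have h1 : ⁅g * h, x⁆ = (g * ⁅h, x⁆ * g⁻¹) * ⁅g, x⁆ := by
    simp only [commutatorElement_def]
    group
  rw [h1, ← (hc g).eq, mul_inv_cancel_right]

/-- in a nilpotent group generated by elements commensurable with `e` commutators are torsion
elements -/
theorem nil_tor (n : ℕ) : ∀ (R : Type) [Group R] (S : Set R) (e : R), Subgroup.closure S = ⊤ →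
    (∀ x ∈ S, Cm e x) → (⊤ : Subgroup R).lowerCentralSeries (n + 1) = ⊥ →
    ∀ w ∈ commutator R, Tn w := by
  induction n with
  | zero =>
    intro R _ S e _ _ h w hw
    rw [Subgroup.top_lowerCentralSeries_one] at h
    rw [h, Subgroup.mem_bot] at hw
    rw [hw]
    exact Tn.one
  | succ n ih =>
    intro R _ S e hS hSe h w hw
    obtain ⟨A, hA⟩ : ∃ A : Subgroup R, A = (⊤ : Subgroup R).lowerCentralSeries (n + 1) := ⟨_, rfl⟩
    have hAc : ∀ a ∈ A, ∀ y, Commute a y := by
      intro a ha y
      have h1 : ⁅a, y⁆ ∈ (⊤ : Subgroup R).lowerCentralSeries (n + 1 + 1) := by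
        rw [Subgroup.lowerCentralSeries_succ]
        exact Subgroup.commutator_mem_commutator (hA ▸ ha) (Subgroup.mem_top y)
      rw [h, Subgroup.mem_bot] at h1
      exact commutatorElement_eq_one_iff_mul_comm.1 h1
    have hAn : A.Normal := by
      refine ⟨fun a ha g => ?_⟩
      rw [← (hAc a ha g).eq, mul_inv_cancel_right]
      exact ha
    have hwA : ∀ w ∈ commutator R, ∃ N : ℤ, N ≠ 0 ∧ w ^ N ∈ A := by
      intro w hw
      have h1 := ih (R ⧸ A) (QuotientGroup.mk' A '' S) (QuotientGroup.mk' A e) (by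
        rw [← MonoidHom.map_closure, hS, Subgroup.map_top_of_surjective _
          (QuotientGroup.mk'_surjective A)]) (by
        rintro _ ⟨x, hx, rfl⟩
        obtain ⟨p, q, hp, hq, hpq⟩ := hSe x hx
        exact ⟨p, q, hp, hq, by rw [← map_zpow, ← map_zpow, hpq]⟩) (by
        have h2 := Subgroup.map_lowerCentralSeries (⊤ : Subgroup R) (QuotientGroup.mk' A) (n + 1)
        rw [Subgroup.map_top_of_surjective _ (QuotientGroup.mk'_surjective A)] at h2
        rw [← h2, ← hA, Subgroup.map_eq_bot_iff, QuotientGroup.ker_mk'])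
        (QuotientGroup.mk' A w) (by
          have h3 : (commutator R).map (QuotientGroup.mk' A) ≤ commutator (R ⧸ A) := by
            rw [commutator_def, Subgroup.map_commutator]
            exact Subgroup.commutator_mono le_top le_top
          exact h3 ⟨w, hw, rfl⟩)
      obtain ⟨N, hN, h4⟩ := h1
      refine ⟨N, hN, ?_⟩
      rw [← map_zpow] at h4
      exact (QuotientGroup.eq_one_iff _).1 h4
    -- the commutators with elements of the previous term
    have hmemA : ∀ g ∈ (⊤ : Subgroup R).lowerCentralSeries n, ∀ x : R, ⁅g, x⁆ ∈ A := by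
      intro g hg x
      rw [hA, Subgroup.lowerCentralSeries_succ]
      exact Subgroup.commutator_mem_commutator hg (Subgroup.mem_top x)
    have key : ∀ g ∈ (⊤ : Subgroup R).lowerCentralSeries n, ∀ x : R, Tn ⁅g, x⁆ := by
      rcases Nat.eq_zero_or_pos n with h0 | h0
      · subst h0
        have hc : ∀ g x : R, ∀ y, Commute ⁅g, x⁆ y := fun g x y =>
          hAc _ (hmemA g (by rw [Subgroup.lowerCentralSeries_zero]; exact Subgroup.mem_top g) x) y
        have h1 : ∀ x ∈ S, ∀ g : R, Tn ⁅g, x⁆ := by
          intro x hx g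
          have hg : g ∈ Subgroup.closure S := hS ▸ Subgroup.mem_top g
          induction hg using Subgroup.closure_induction with
          | mem g hg =>
            obtain ⟨p, q, hp, hq, h1⟩ := hSe x hx
            obtain ⟨r, s, hr, hs, h2⟩ := hSe g hg
            refine ⟨r * p, mul_ne_zero hr hp, ?_⟩
            rw [zpow_mul, ← comm_pow_left (hc g x) r, ← comm_pow_right (hc _ x) p, h1, h2,
              commutatorElement_eq_one_iff_mul_comm]
            rw [← zpow_add, ← zpow_add, add_comm]
          | one =>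
            rw [commutatorElement_one_left]
            exact Tn.one
          | mul a b _ _ iha ihb =>
            rw [comm_mul_left (hc b x)]
            exact Tn.mul (hc b x _) ihb iha
          | inv a _ iha =>
            have h3 := comm_pow_left (hc a x) (-1)
            rw [zpow_neg_one, zpow_neg_one] at h3
            rw [h3]
            exact iha.inv
        intro g _ x
        have hx : x ∈ Subgroup.closure S := hS ▸ Subgroup.mem_top x
        induction hx using Subgroup.closure_induction with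
        | mem x hx => exact h1 x hx g
        | one =>
          rw [commutatorElement_one_right]
          exact Tn.one
        | mul a b _ _ iha ihb =>
          rw [comm_mul_right (hc g b)]
          exact Tn.mul (hc g a _) iha ihb
        | inv a _ iha =>
          have h3 := comm_pow_right (hc g a) (-1)
          rw [zpow_neg_one, zpow_neg_one] at h3
          rw [h3]
          exact iha.inv
      · intro g hg x
        have h1 : g ∈ commutator R := by
          rw [← Subgroup.top_lowerCentralSeries_one]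
          exact Subgroup.lowerCentralSeries_antitone (S := (⊤ : Subgroup R)) h0 hg
        obtain ⟨N, hN, h2⟩ := hwA g h1
        refine ⟨N, hN, ?_⟩
        rw [← comm_pow_left (hAc _ (hmemA g hg x)) N, commutatorElement_eq_one_iff_mul_comm]
        exact hAc _ h2 x
    have hAt : ∀ a ∈ A, Tn a := by
      intro a ha
      have h1 : A ≤ { carrier := {x | x ∈ A ∧ Tn x}
                      one_mem' := ⟨one_mem _, Tn.one⟩
                      mul_mem' := by
                        rintro x y ⟨hx, hx'⟩ ⟨hy, hy'⟩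
                        exact ⟨mul_mem hx hy, Tn.mul (hAc x hx y) hx' hy'⟩
                      inv_mem' := by
                        rintro x ⟨hx, hx'⟩
                        exact ⟨inv_mem hx, hx'.inv⟩ : Subgroup R } := by
        nth_rewrite 1 [hA]
        rw [Subgroup.lowerCentralSeries_succ, Subgroup.commutator_le]
        intro g hg x _
        exact ⟨hmemA g hg x, key g hg x⟩
      exact (h1 ha).2
    obtain ⟨N, hN, h1⟩ := hwA w hw
    exact Tn.of_pow hN (hAt _ h1)

end tor

section dir

variable {G : Type} [Group G]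

theorem fin_closure (S : Set G) {x : G} (hx : x ∈ Subgroup.closure S) :
    ∃ F : Finset G, (F : Set G) ⊆ S ∧ x ∈ Subgroup.closure (F : Set G) := by
  classical
  induction hx using Subgroup.closure_induction with
  | mem x hx => exact ⟨{x}, by simpa using hx, Subgroup.subset_closure (by simp)⟩
  | one => exact ⟨∅, by simp, one_mem _⟩
  | mul a b _ _ iha ihb =>
    obtain ⟨F, hF, ha⟩ := iha
    obtain ⟨F', hF', hb⟩ := ihb
    refine ⟨F ∪ F', by rw [Finset.coe_union]; exact Set.union_subset hF hF', mul_mem ?_ ?_⟩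
    · exact Subgroup.closure_mono (by rw [Finset.coe_union]; exact Set.subset_union_left) ha
    · exact Subgroup.closure_mono (by rw [Finset.coe_union]; exact Set.subset_union_right) hb
  | inv a _ iha =>
    obtain ⟨F, hF, ha⟩ := iha
    exact ⟨F, hF, inv_mem ha⟩

theorem fin_comm (S : Set G) {x : G} (hx : x ∈ ⁅Subgroup.closure S, Subgroup.closure S⁆) :
    ∃ F : Finset G, (F : Set G) ⊆ S ∧
      x ∈ ⁅Subgroup.closure (F : Set G), Subgroup.closure (F : Set G)⁆ := by
  classical
  have hmono : ∀ F F' : Finset G, F ⊆ F' →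
      ⁅Subgroup.closure (F : Set G), Subgroup.closure (F : Set G)⁆ ≤
        ⁅Subgroup.closure (F' : Set G), Subgroup.closure (F' : Set G)⁆ := by
    intro F F' h
    have h1 : Subgroup.closure (F : Set G) ≤ Subgroup.closure (F' : Set G) :=
      Subgroup.closure_mono (by exact_mod_cast h)
    exact Subgroup.commutator_mono h1 h1
  have key : ⁅Subgroup.closure S, Subgroup.closure S⁆ ≤
      { carrier := {x | ∃ F : Finset G, (F : Set G) ⊆ S ∧
          x ∈ ⁅Subgroup.closure (F : Set G), Subgroup.closure (F : Set G)⁆}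
        one_mem' := ⟨∅, by simp, one_mem _⟩
        mul_mem' := by
          rintro a b ⟨F, hF, ha⟩ ⟨F', hF', hb⟩
          refine ⟨F ∪ F', by rw [Finset.coe_union]; exact Set.union_subset hF hF',
            mul_mem (hmono _ _ Finset.subset_union_left ha)
              (hmono _ _ Finset.subset_union_right hb)⟩
        inv_mem' := by
          rintro a ⟨F, hF, ha⟩
          exact ⟨F, hF, inv_mem ha⟩ : Subgroup G } := by
    rw [Subgroup.commutator_le]
    intro a ha b hb
    obtain ⟨F, hF, ha⟩ := fin_closure S ha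
    obtain ⟨F', hF', hb⟩ := fin_closure S hb
    refine ⟨F ∪ F', by rw [Finset.coe_union]; exact Set.union_subset hF hF',
      Subgroup.commutator_mem_commutator ?_ ?_⟩
    · exact Subgroup.closure_mono (by rw [Finset.coe_union]; exact Set.subset_union_left) ha
    · exact Subgroup.closure_mono (by rw [Finset.coe_union]; exact Set.subset_union_right) hb
  exact key hx

/-- the radical of `e` in a locally nilpotent group -/
theorem LN.ht (h : LN G) {e : G} (he : Io e) : Ht e := by
  classical
  refine Ht.of_notMem fun N hN hcon => ?_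
  obtain ⟨F, hF, hx⟩ := fin_comm _ hcon
  obtain ⟨R, hR⟩ : ∃ R : Subgroup G, R = Subgroup.closure (F : Set G) := ⟨_, rfl⟩
  have hnil : Group.IsNilpotent R := h R ⟨F, hR.symm⟩
  rw [← hR, ← Subgroup.map_subtype_commutator] at hx
  obtain ⟨y, hy, hye⟩ := hx
  have hye : (y : G) = e ^ N := hye
  obtain ⟨n, hn⟩ := Subgroup.nilpotent_iff_lowerCentralSeries.1 hnil
  have h1 : (⊤ : Subgroup R).lowerCentralSeries (n + 1) = ⊥ := by
    rw [eq_bot_iff, ← hn]
    exact Subgroup.lowerCentralSeries_antitone (S := (⊤ : Subgroup R)) (Nat.le_succ n)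
  have h2 : Subgroup.closure {x : R | (x : G) ∈ F} = ⊤ := by
    rw [← Subgroup.map_subtype_inj, MonoidHom.map_closure, ← MonoidHom.range_eq_map,
      Subgroup.range_subtype, hR]
    congr 1
    ext x
    constructor
    · rintro ⟨z, hz, rfl⟩
      exact hz
    · intro hz
      exact ⟨⟨x, hR ▸ Subgroup.subset_closure hz⟩, hz, rfl⟩
  have hyc : Cm y y := Cm.refl y
  have hye2 : Cm (y : G) e := by
    rw [hye]
    exact (Cm.pow e hN).symm
  obtain ⟨M, hM, h3⟩ := nil_tor n R {x : R | (x : G) ∈ F} y h2 (fun x hx => by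
    rw [Cm_sub]
    exact hye2.trans (hF hx)) h1 y hy
  refine he (N * M) (mul_ne_zero hN hM) ?_
  rw [zpow_mul, ← hye]
  exact congrArg Subtype.val h3

end dir

/-- locally nilpotent groups satisfy the conditions -/
theorem LN.tame (hC : ClosedE C) (hM : ∀ (G : Type) [Group G], derivedSeries G 2 = ⊥ → C G)
    {G : Type} [Group G] (h : LN G) : Tame C G := by
  refine ⟨C_LN hC hM h, fun e _ => ?_, fun e he => h.ht he⟩
  obtain ⟨R, hRd⟩ : ∃ R : Subgroup (Kom e), R = (Rad e).subgroupOf (Kom e) := ⟨_, rfl⟩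
  have memR : ∀ k : Kom e, k ∈ R ↔ (k : G) ∈ Rad e := by
    intro k
    rw [hRd, Subgroup.mem_subgroupOf]
  have hRn : R.Normal := ⟨fun x hx k => (memR _).2 (Rad_conj k.2 ((memR _).1 hx))⟩
  refine ⟨Kom e ⧸ R, inferInstance, QuotientGroup.mk' R, ?_, fun x => by
    rw [← memR]
    exact QuotientGroup.eq_one_iff x⟩
  exact C_LN hC hM ((h.sub (Kom e).subtype (Kom e).subtype_injective).quot (QuotientGroup.mk' R)
    (QuotientGroup.mk'_surjective R))

end Pool.Agent.E14.RE
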