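import Pool.Agent.E14.RE.Main

/-!
# Elements commensurable with a given element
-/

set_option autoImplicit false

namespace Pool.Agent.E14.RE

open scoped commutatorElement

variable {G : Type} [Group G]

/-- `x` and `e` are commensurable: they have a nontrivial common power -/
def Cm (e x : G) : Prop := ∃ p q : ℤ, p ≠ 0 ∧ q ≠ 0 ∧ x ^ p = e ^ q

/-- the subgroup generated by the elements commensurable with `e` -/
def Rad (e : G) : Subgroup G := Subgroup.closure {x | Cm e x}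

theorem cj_zpow (k e : G) (p : ℤ) : (k * e * k⁻¹) ^ p = k * e ^ p * k⁻¹ := conj_zpow

/-- the commensurator of `⟨e⟩` -/
def Kom (e : G) : Subgroup G where
  carrier := {k | ∃ p q : ℤ, p ≠ 0 ∧ q ≠ 0 ∧ k * e ^ p * k⁻¹ = e ^ q}
  one_mem' := ⟨1, 1, one_ne_zero, one_ne_zero, by group⟩
  mul_mem' := by
    rintro l k ⟨r, s, hr, hs, h1⟩ ⟨p, q, hp, hq, h2⟩
    refine ⟨p * r, s * q, mul_ne_zero hp hr, mul_ne_zero hs hq, ?_⟩
    have h3 : l * k * e ^ (p * r) * (l * k)⁻¹ = l * (k * (e ^ p) ^ r * k⁻¹) * l⁻¹ := by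
      rw [← zpow_mul]
      group
    rw [h3, ← cj_zpow, h2, ← zpow_mul, mul_comm q r, zpow_mul, ← cj_zpow, h1, ← zpow_mul]
  inv_mem' := by
    rintro k ⟨p, q, hp, hq, h⟩
    refine ⟨q, p, hq, hp, ?_⟩
    rw [← h]
    group

theorem mem_Kom {e k : G} : k ∈ Kom e ↔ ∃ p q : ℤ, p ≠ 0 ∧ q ≠ 0 ∧ k * e ^ p * k⁻¹ = e ^ q := Iff.rfl

theorem Cm.refl (e : G) : Cm e e := ⟨1, 1, one_ne_zero, one_ne_zero, rfl⟩

theorem self_mem_Rad (e : G) : e ∈ Rad e := Subgroup.subset_closure (Cm.refl e)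

theorem Cm.symm {e x : G} (h : Cm e x) : Cm x e := by
  obtain ⟨p, q, hp, hq, h⟩ := h
  exact ⟨q, p, hq, hp, h.symm⟩

theorem Cm.trans {e x y : G} (h : Cm e x) (h' : Cm x y) : Cm e y := by
  obtain ⟨p, q, hp, hq, h⟩ := h
  obtain ⟨r, s, hr, hs, h'⟩ := h'
  refine ⟨r * p, q * s, mul_ne_zero hr hp, mul_ne_zero hq hs, ?_⟩
  rw [zpow_mul, h', zpow_mul, ← h, ← zpow_mul, ← zpow_mul, mul_comm]

theorem Cm.pow (e : G) {m : ℤ} (hm : m ≠ 0) : Cm e (e ^ m) :=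
  ⟨1, m, one_ne_zero, hm, by rw [zpow_one]⟩

theorem Cm.mem_Kom {e x : G} (h : Cm e x) : x ∈ Kom e := by
  obtain ⟨p, q, hp, hq, h⟩ := h
  refine ⟨q, q, hq, hq, ?_⟩
  rw [← h]
  group

theorem Rad_le_Kom (e : G) : Rad e ≤ Kom e := by
  rw [Rad, Subgroup.closure_le]
  exact fun x hx => Cm.mem_Kom hx

/-- the conjugates by the elements of the commensurator -/
theorem Cm.conj {e x k : G} (h : Cm e x) (hk : k ∈ Kom e) : Cm e (k * x * k⁻¹) := by
  obtain ⟨p, q, hp, hq, h⟩ := h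
  obtain ⟨r, s, hr, hs, hk⟩ := hk
  refine ⟨p * r, s * q, mul_ne_zero hp hr, mul_ne_zero hs hq, ?_⟩
  rw [cj_zpow, zpow_mul, h, ← zpow_mul, mul_comm q r, zpow_mul, ← cj_zpow, hk, ← zpow_mul]

theorem Kom_congr {e x : G} (h : Cm e x) : Kom e = Kom x := by
  have key : ∀ e x : G, Cm e x → Kom e ≤ Kom x := by
    rintro e x h k hk
    have h1 := h.conj hk
    -- `k x k⁻¹` is commensurable with `x`
    obtain ⟨p, q, hp, hq, h2⟩ := h.symm.trans h1
    rw [cj_zpow] at h2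
    exact ⟨p, q, hp, hq, h2⟩
  exact le_antisymm (key e x h) (key x e h.symm)

theorem Cm_congr {e x : G} (h : Cm e x) (y : G) : Cm e y ↔ Cm x y :=
  ⟨fun h' => h.symm.trans h', fun h' => h.trans h'⟩

theorem Rad_congr {e x : G} (h : Cm e x) : Rad e = Rad x := by
  unfold Rad
  congr 1
  ext y
  exact Cm_congr h y

theorem Rad_conj {e k : G} (hk : k ∈ Kom e) {x : G} (hx : x ∈ Rad e) : k * x * k⁻¹ ∈ Rad e := by
  have h1 : Rad e ≤ (Rad e).comap (MulAut.conj k).toMonoidHom := by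
    rw [Rad, Subgroup.closure_le]
    intro x hx
    exact Subgroup.subset_closure (Cm.conj hx hk)
  exact h1 hx

/-- the virtual centralizer of `e` -/
def Vz (e : G) : Subgroup G where
  carrier := {k | ∃ p : ℤ, p ≠ 0 ∧ k * e ^ p = e ^ p * k}
  one_mem' := ⟨1, one_ne_zero, by group⟩
  mul_mem' := by
    rintro l k ⟨r, hr, h1⟩ ⟨p, hp, h2⟩
    have h1' : Commute l (e ^ r) := h1
    have h2' : Commute k (e ^ p) := h2
    refine ⟨p * r, mul_ne_zero hp hr, ?_⟩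
    have h3 : Commute l (e ^ (p * r)) := by
      rw [mul_comm, zpow_mul]
      exact h1'.zpow_right p
    have h4 : Commute k (e ^ (p * r)) := by
      rw [zpow_mul]
      exact h2'.zpow_right r
    exact h3.mul_left h4
  inv_mem' := by
    rintro k ⟨p, hp, h⟩
    have h' : Commute k (e ^ p) := h
    exact ⟨p, hp, h'.inv_left⟩

theorem mem_Vz {e k : G} : k ∈ Vz e ↔ ∃ p : ℤ, p ≠ 0 ∧ Commute k (e ^ p) := Iff.rfl

theorem Vz_le_Kom (e : G) : Vz e ≤ Kom e := by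
  rintro k ⟨p, hp, h⟩
  exact ⟨p, p, hp, hp, by rw [h, mul_inv_cancel_right]⟩

theorem Cm.mem_Vz {e x : G} (h : Cm e x) : x ∈ Vz e := by
  obtain ⟨p, q, hp, hq, h⟩ := h
  refine ⟨q, hq, ?_⟩
  rw [← h]
  group

theorem Rad_le_Vz (e : G) : Rad e ≤ Vz e := by
  rw [Rad, Subgroup.closure_le]
  exact fun x hx => Cm.mem_Vz hx

theorem Vz_conj {e k x : G} (hk : k ∈ Kom e) (hx : x ∈ Vz e) : k * x * k⁻¹ ∈ Vz e := by
  obtain ⟨p, q, hp, hq, hk⟩ := hk
  obtain ⟨r, hr, hx⟩ := hx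
  have hx : Commute x (e ^ r) := hx
  refine ⟨q * r, mul_ne_zero hq hr, ?_⟩
  have h1 : e ^ (q * r) = k * e ^ (r * p) * k⁻¹ := by
    rw [zpow_mul, ← hk, cj_zpow, ← zpow_mul, mul_comm p r]
  have h2 : Commute x (e ^ (r * p)) := by
    rw [zpow_mul]
    exact hx.zpow_right p
  rw [h1]
  have h3 : x * e ^ (r * p) = e ^ (r * p) * x := h2
  have h4 : k * x * k⁻¹ * (k * e ^ (r * p) * k⁻¹) = k * (x * e ^ (r * p)) * k⁻¹ := by group
  have h5 : k * e ^ (r * p) * k⁻¹ * (k * x * k⁻¹) = k * (e ^ (r * p) * x) * k⁻¹ := by group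
  rw [h4, h5, h3]

/-- commutators of elements of the commensurator virtually centralize `e` -/
theorem comm_Vz {e k l : G} (hk : k ∈ Kom e) (hl : l ∈ Kom e) : ⁅k, l⁆ ∈ Vz e := by
  obtain ⟨p, q, hp, hq, h1⟩ := hk
  obtain ⟨r, s, hr, hs, h2⟩ := hl
  refine ⟨q * s, mul_ne_zero hq hs, ?_⟩
  -- `k l` and `l k` act in the same way on the powers of `e`
  have e1 : (k * l) * e ^ (r * p) * (k * l)⁻¹ = e ^ (q * s) := by
    have : (k * l) * e ^ (r * p) * (k * l)⁻¹ = k * (l * (e ^ r) ^ p * l⁻¹) * k⁻¹ := by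
      rw [← zpow_mul]
      group
    rw [this, ← cj_zpow l, h2, ← zpow_mul, mul_comm s p, zpow_mul, ← cj_zpow k, h1, ← zpow_mul]
  have e2 : (l * k) * e ^ (r * p) * (l * k)⁻¹ = e ^ (q * s) := by
    have : (l * k) * e ^ (r * p) * (l * k)⁻¹ = l * (k * (e ^ p) ^ r * k⁻¹) * l⁻¹ := by
      rw [← zpow_mul, mul_comm p r]
      group
    rw [this, ← cj_zpow k, h1, ← zpow_mul, mul_comm q r, zpow_mul, ← cj_zpow l, h2, ← zpow_mul,
      mul_comm s q]
  have e3 : ⁅k, l⁆ = (k * l) * (l * k)⁻¹ := by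
    rw [commutatorElement_def]
    group
  have e4 : ⁅k, l⁆ * e ^ (q * s) * ⁅k, l⁆⁻¹ = e ^ (q * s) := by
    rw [e3]
    nth_rewrite 1 [← e2]
    have : k * l * (l * k)⁻¹ * (l * k * e ^ (r * p) * (l * k)⁻¹) * (k * l * (l * k)⁻¹)⁻¹ =
        (k * l) * e ^ (r * p) * (k * l)⁻¹ := by group
    rw [this, e1]
  exact mul_inv_eq_iff_eq_mul.1 e4

end Pool.Agent.E14.RE
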