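import Pool.Agent.E14.RE.Ext

/-!
# The group generated by an equivariant family which contains the edge groups
-/

set_option autoImplicit false

namespace Pool.Agent.E14.RE

open SimpleGraph
open scoped commutatorElement
open Pool.Agent.Y110.FJ
open Pool.Agent.N509.TK
open Pool.Agent.R941.FJ (C_equiv C_le C_cyc mem_sup_normal)

/-- an equivariant family of subgroups `M v` of the stabilizers of the vertices in `L`, which contain
the stabilizers of the edges in `L` -/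
structure Rd {G V : Type} [Group G] [MulAction G V] (T : SimpleGraph V) (L : Subgroup G)
    (M : V → Subgroup G) : Prop where
  le : ∀ v, M v ≤ Sb L v
  eqv : ∀ (g : G) (v : V), ∀ x ∈ M v, g * x * g⁻¹ ∈ M (g • v)
  edge : ∀ u v, T.Adj u v → ∀ x ∈ Sb L u, x ∈ Sb L v → x ∈ M u

variable {G V : Type} {T : SimpleGraph V} [Group G] [MulAction G V] {L : Subgroup G}
  {M : V → Subgroup G}

section basic

variable (hR : Rd T L M)

include hR

theorem Rd.sup_le : (⨆ v, M v) ≤ ⨆ v : V, Sb L v :=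
  iSup_le fun v => (hR.le v).trans (le_iSup (Sb L) v)

theorem Rd.le_L : (⨆ v, M v) ≤ L := hR.sup_le.trans (Sb_le L)

theorem Rd.normal : (⨆ v, M v).Normal := by
  refine ⟨fun x hx g => ?_⟩
  have h1 : (⨆ v, M v) ≤ (⨆ v, M v).comap (MulAut.conj g).toMonoidHom :=
    iSup_le fun v x hx => le_iSup M (g • v) (hR.eqv g v x hx)
  exact h1 hx

theorem Rd.nz (v : V) : Nz (M v) (Sb L v) := by
  intro b hb a ha
  have h1 := hR.eqv b v a ha
  rwa [(mem_Sb.1 hb).1] at h1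

/-- conjugation from the stabilizers of `v` -/
theorem Rd.conj_iff {g x : G} {v w : V} (h : w = g • v) : x ∈ M v ↔ g * x * g⁻¹ ∈ M w := by
  subst h
  refine ⟨hR.eqv g v x, fun h => ?_⟩
  have h1 := hR.eqv g⁻¹ _ _ h
  rw [inv_smul_smul] at h1
  have h2 : g⁻¹ * (g * x * g⁻¹) * g⁻¹⁻¹ = x := by group
  rwa [h2] at h1

end basic

section stab

variable (hT : T.IsTree) (hact : ∀ (g : G) (u v : V), T.Adj u v → T.Adj (g • u) (g • v))
  [L.Normal] (hR : Rd T L M)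

include hT hact hR

/-- **the stabilizers in the group generated by the family** -/
theorem Rd.stab {v : V} {x : G} (hx : x ∈ ⨆ v, M v) (hv : x • v = v) : x ∈ M v := by
  classical
  obtain ⟨S, hS⟩ := Tv.exists (R := Sb (V := V) L) hT
  have hq := Tq.of_Sb hT hact L hS
  have hn := hR.normal
  obtain ⟨a, ha, o, ho, rfl⟩ := hq.cover v
  suffices hs : a⁻¹ * x * a ∈ M o by
    have h1 := hR.eqv a o _ hs
    have h2 : a * (a⁻¹ * x * a) * a⁻¹ = x := by group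
    rwa [h2] at h1
  have hx' : a⁻¹ * x * a ∈ ⨆ v, M v := by
    have := hn.conj_mem x hx a⁻¹
    rwa [inv_inv] at this
  have hv' : (a⁻¹ * x * a) • o = o := by
    rw [mul_smul, mul_smul, hv, inv_smul_smul]
  generalize a⁻¹ * x * a = y at hx' hv'
  have hMn : ((M o).subgroupOf (Sb L o)).Normal := ⟨fun z hz b => hR.nz o b b.2 z hz⟩
  let χ : V → G → (Sb L o ⧸ (M o).subgroupOf (Sb L o)) := fun v g =>
    if h : v = o ∧ g ∈ Sb L o then QuotientGroup.mk ⟨g, h.2⟩ else 1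
  have hχo : ∀ g (hg : g ∈ Sb L o), χ o g = QuotientGroup.mk ⟨g, hg⟩ := fun g hg =>
    dif_pos ⟨rfl, hg⟩
  have hχn : ∀ v g, v ≠ o → χ v g = 1 := fun v g hv => dif_neg fun h => hv h.1
  have hχ1 : ∀ g ∈ M o, χ o g = 1 := fun g hg => by
    rw [hχo g (hR.le o hg)]
    exact (QuotientGroup.eq_one_iff _).2 hg
  obtain ⟨r, s, hd⟩ := Gf.ex (T := T) L χ (S := S) (by
    intro v _ x hx y hy
    by_cases hv : v = o
    · subst hv
      rw [hχo x hx, hχo y hy, hχo (x * y) (mul_mem hx hy)]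
      rfl
    · rw [hχn v _ hv, hχn v _ hv, hχn v _ hv, mul_one]) (by
    intro u _ v _ huv x hxu hxv
    by_cases hu : u = o
    · subst hu
      rw [hχn v _ huv.ne.symm, hχ1 x (hR.edge _ _ huv x hxu hxv)]
    · by_cases hv : v = o
      · subst hv
        rw [hχn u _ hu, hχ1 x (hR.edge _ _ huv.symm x hxv hxu)]
      · rw [hχn u _ hu, hχn v _ hv]) hq
  obtain ⟨φ, hφ, hφv⟩ := hd.main hT hact
  have hkill : (⨆ v, M v) ≤ hφ.hom.ker.map (⨆ v : V, Sb L v).subtype := by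
    refine iSup_le fun v x hx => ?_
    refine ⟨⟨x, hR.sup_le (le_iSup M v hx)⟩, ?_, rfl⟩
    show φ x = 1
    obtain ⟨c, hc⟩ := hφv v
    rw [hc x (hR.le v hx)]
    have h1 : (s v)⁻¹ * x * s v ∈ M (r v) := by
      have h2 := hR.eqv (s v)⁻¹ v x hx
      rwa [hd.inv_s, inv_inv] at h2
    have h2 : χ (r v) ((s v)⁻¹ * x * s v) = 1 := by
      by_cases hr : r v = o
      · rw [hr] at h1 ⊢
        exact hχ1 _ h1
      · exact hχn _ _ hr
    rw [h2, mul_one, mul_inv_cancel]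
  obtain ⟨⟨z, hz⟩, hz1, hz2⟩ := hkill hx'
  have hz2 : z = y := hz2
  subst hz2
  have hφ1 : φ z = 1 := hz1
  have hzo : z ∈ Sb L o := mem_Sb.2 ⟨hv', Sb_le L hz⟩
  obtain ⟨c, hc⟩ := hφv o
  rw [hc z hzo, conj_eq_one_iff, hd.r_self ho,
    hχo _ (mul_mem (mul_mem (inv_mem (hd.s_self ho)) hzo) (hd.s_self ho))] at hφ1
  have h3 : (s o)⁻¹ * z * s o ∈ M o :=
    (QuotientGroup.eq_one_iff (N := (M o).subgroupOf (Sb L o)) (⟨(s o)⁻¹ * z * s o, _⟩ : Sb L o)).1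
      hφ1
  have h4 := hR.nz o _ (hd.s_self ho) _ h3
  have h5 : s o * ((s o)⁻¹ * z * s o) * (s o)⁻¹ = z := by group
  rwa [h5] at h4

theorem Rd.Sb_eq (v : V) : Sb (⨆ v, M v) v = M v := by
  ext x
  rw [mem_Sb]
  refine ⟨fun h => hR.stab hT hact h.2 h.1, fun h => ⟨?_, le_iSup M v h⟩⟩
  exact (mem_Sb.1 (hR.le v h)).1

theorem Rd.sup_Sb : (⨆ v : V, Sb (⨆ v, M v) v) = ⨆ v, M v :=
  iSup_congr fun v => hR.Sb_eq hT hact v

end stab

section char

variable (hT : T.IsTree) (hact : ∀ (g : G) (u v : V), T.Adj u v → T.Adj (g • u) (g • v))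
  [L.Normal] (hR : Rd T L M)
  (hE : ∀ v u, T.Adj v u → ∀ x ∈ Sb L v, x ∈ Sb L u → x ∈ ⁅M v, Sb L v⁆ → x = 1)

include hT hact hR hE

theorem Rd.h1' {S : Set V} (hq : Tq T (⨆ v : V, Sb L v) S) {o : V} (ho : o ∈ S) {x : G}
    (hx : x ∈ M o) (h : x ∈ ⁅(⨆ v, M v), (⨆ v : V, Sb L v)⁆) : x ∈ ⁅M o, Sb L o⁆ := by
  classical
  by_contra hcon
  obtain ⟨f0, hf0, hfx⟩ := sep_ic (hR.nz o) (hR.le o) hx hcon
  -- the family on the transversal
  obtain ⟨χ, hχ, hχo, hc⟩ := tree_sec (hq.isTree hT)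
    (fun (v : S) (f : G → EE) => Ic (M v) (Sb L (v : V)) f)
    (fun u v f f' => ∀ x ∈ Sb L (u : V), x ∈ Sb L (v : V) → f x = f' x)
    (fun u v a b h x hx hx' => (h x hx' hx).symm) (by
      intro u v huv f hf
      have huv : T.Adj u v := huv
      obtain ⟨f', h1, h2⟩ := ext_ic (A := M v) (B := Sb L (v : V)) (E := Sb L (v : V) ⊓ Sb L (u : V))
        (hR.nz v) (hR.le v) (fun x hx => hR.edge v u huv.symm x hx.1 hx.2)
        (fun x hx h => hE v u huv.symm x hx.1 hx.2 h) f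
        (hf.1.mono fun x hx => hR.edge u v huv x hx.2 hx.1)
      exact ⟨f', h1, fun x hx hx' => (h2 x ⟨hx', hx⟩).symm⟩) ⟨o, ho⟩ f0 hf0
  choose s hs r hr heq using hq.cover
  -- the family on all vertices
  obtain ⟨χ', hχ'⟩ : ∃ χ' : V → G → EE, χ' = fun v x => χ ⟨r v, hr v⟩ ((s v)⁻¹ * x * s v) :=
    ⟨_, rfl⟩
  have inv_s : ∀ v, (s v)⁻¹ • v = r v := fun v => inv_smul_eq_iff.2 (heq v)
  have r_smul : ∀ g ∈ ⨆ v : V, Sb L v, ∀ v, r (g • v) = r v := by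
    intro g hg v
    refine hq.trans ((s v)⁻¹ * g⁻¹ * s (g • v)) ?_ _ (hr _) _ (hr _) ?_
    · exact mul_mem (mul_mem (inv_mem (hs v)) (inv_mem hg)) (hs _)
    · rw [mul_smul, ← heq (g • v), mul_smul, inv_smul_smul, inv_s]
  have r_self : ∀ v ∈ S, r v = v := fun v hv =>
    hq.trans (s v) (hs v) _ (hr v) v hv (heq v).symm
  have hMs : ∀ v, ∀ x ∈ M v, (s v)⁻¹ * x * s v ∈ M (r v) := by
    intro v x hx
    have h2 := hR.eqv (s v)⁻¹ v x hx
    rwa [inv_s, inv_inv] at h2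
  have hhom : ∀ v, PHom (M v) (χ' v) := by
    intro v x hx y hy
    rw [hχ']
    show χ ⟨r v, hr v⟩ ((s v)⁻¹ * (x * y) * s v) = _
    have h1 : (s v)⁻¹ * (x * y) * s v = ((s v)⁻¹ * x * s v) * ((s v)⁻¹ * y * s v) := by group
    rw [h1, (hχ ⟨r v, hr v⟩).1 _ (hMs v x hx) _ (hMs v y hy)]
  have hcongr : ∀ (a b : V) (ha : a ∈ S) (hb : b ∈ S) (x : G), a = b → χ ⟨a, ha⟩ x = χ ⟨b, hb⟩ x := by
    intro a b ha hb x hab
    subst hab
    rfl
  have hinv : ∀ h ∈ ⨆ v : V, Sb L v, ∀ v, ∀ x ∈ M v, χ' (h • v) (h * x * h⁻¹) = χ' v x := by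
    intro h hh v x hx
    rw [hχ']
    show χ ⟨r (h • v), _⟩ ((s (h • v))⁻¹ * (h * x * h⁻¹) * s (h • v)) =
      χ ⟨r v, _⟩ ((s v)⁻¹ * x * s v)
    rw [hcongr (r (h • v)) (r v) (hr _) (hr _) _ (r_smul h hh v)]
    have hm : (s (h • v))⁻¹ * h * s v ∈ Sb L (r v) := by
      refine mem_Sb.2 ⟨?_, Sb_le L (mul_mem (mul_mem (inv_mem (hs _)) hh) (hs v))⟩
      rw [mul_smul, ← heq v, mul_smul, inv_s, r_smul h hh]
    have h2 : (s (h • v))⁻¹ * (h * x * h⁻¹) * s (h • v) =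
        ((s (h • v))⁻¹ * h * s v) * ((s v)⁻¹ * x * s v) * ((s (h • v))⁻¹ * h * s v)⁻¹ := by group
    rw [h2, (hχ ⟨r v, hr v⟩).2 _ hm _ (hMs v x hx)]
  have hcomp : ∀ u v, T.Adj u v → ∀ x ∈ M u, x ∈ M v → χ' u x = χ' v x := by
    intro u v huv x hxu hxv
    have h1 := hact (s u)⁻¹ _ _ huv
    rw [inv_s] at h1
    obtain ⟨w, hw, h3, k, hk, hku, hkw⟩ := hq.max _ (hr u) _ h1
    have h4 : w = r v := by
      refine hq.trans ((s v)⁻¹ * s u * k) (mul_mem (mul_mem (inv_mem (hs v)) (hs u)) hk) w hw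
        _ (hr v) ?_
      rw [mul_smul, hkw, mul_smul, smul_inv_smul, inv_s]
    subst h4
    -- the element `s u * k` moves the edge of the transversal to the given edge
    have hg : s u * k ∈ ⨆ v : V, Sb L v := mul_mem (hs u) hk
    have hgu : u = (s u * k) • r u := by rw [mul_smul, hku, ← heq u]
    have hgv : v = (s u * k) • r v := by rw [mul_smul, hkw, smul_inv_smul]
    obtain ⟨g, hgd⟩ : ∃ g, g = s u * k := ⟨_, rfl⟩
    rw [← hgd] at hg hgu hgv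
    have hyu : g⁻¹ * x * g ∈ M (r u) := by
      rw [hR.conj_iff hgu]
      have : g * (g⁻¹ * x * g) * g⁻¹ = x := by group
      rwa [this]
    have hyv : g⁻¹ * x * g ∈ M (r v) := by
      rw [hR.conj_iff hgv]
      have : g * (g⁻¹ * x * g) * g⁻¹ = x := by group
      rwa [this]
    have e1 := hinv g hg (r u) _ hyu
    have e2 := hinv g hg (r v) _ hyv
    have e3 : g * (g⁻¹ * x * g) * g⁻¹ = x := by group
    rw [e3, ← hgu] at e1
    rw [e3, ← hgv] at e2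
    rw [e1, e2]
    -- on the transversal
    have h5 : ∀ w ∈ S, ∀ y ∈ M w, ∀ hw' : w ∈ S, χ' w y = χ ⟨w, hw'⟩ y := by
      intro w hw y hy hw'
      rw [hχ']
      show χ ⟨r w, _⟩ ((s w)⁻¹ * y * s w) = _
      rw [hcongr (r w) w (hr _) hw' _ (r_self w hw)]
      have hsw : s w ∈ Sb L w := by
        refine mem_Sb.2 ⟨?_, Sb_le L (hs w)⟩
        have := heq w
        rw [r_self w hw] at this
        exact this.symm
      have := (hχ ⟨w, hw'⟩).2 _ (inv_mem hsw) y hy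
      rwa [inv_inv] at this
    rw [h5 _ (hr u) _ hyu (hr u), h5 _ (hr v) _ hyv (hr v)]
    exact hc ⟨r u, hr u⟩ ⟨r v, hr v⟩ h3 _ (hR.le _ hyu) (hR.le _ hyv)
  -- the character of the group generated by the family
  have hn := hR.normal
  obtain ⟨S', hS'⟩ := Tv.exists (R := Sb (V := V) (⨆ v, M v)) hT
  have hq' := Tq.of_Sb hT hact (⨆ v, M v) hS'
  obtain ⟨r', s', hd⟩ := Gd.ex hT hact (⨆ v, M v) χ'
    (fun v => by rw [hR.Sb_eq hT hact]; exact hhom v)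
    (fun u v huv x hxu hxv => hcomp u v huv x ((hR.Sb_eq hT hact u) ▸ hxu)
      ((hR.Sb_eq hT hact v) ▸ hxv)) hq'
  obtain ⟨φ, hφ, hφv⟩ := hd.main hT hact
  rw [hR.sup_Sb hT hact] at hφ
  have hφM : ∀ v, ∀ x ∈ M v, φ x = χ' v x := by
    intro v x hx
    rw [hφv v x ((hR.Sb_eq hT hact v).symm ▸ hx)]
    have h1 : s' v ∈ ⨆ v : V, Sb L v := by
      have h2 := hd.sH v
      rw [hR.sup_Sb hT hact] at h2
      exact hR.sup_le h2
    have h3 := hinv (s' v)⁻¹ (inv_mem h1) v x hx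
    rwa [hd.inv_s, inv_inv] at h3
  have hφi : Ic (⨆ v, M v) (⨆ v : V, Sb L v) φ := by
    refine ⟨hφ, fun h hh x hx => ?_⟩
    induction hx using Subgroup.iSup_induction' with
    | hp v x hx => rw [hφM v x hx, hφM (h • v) _ (hR.eqv h v x hx), hinv h hh v x hx]
    | h1 => rw [mul_one, mul_inv_cancel]
    | hmul x y hx hy ihx ihy =>
      have h1 : h * (x * y) * h⁻¹ = (h * x * h⁻¹) * (h * y * h⁻¹) := by group
      rw [h1, hφ _ (hn.conj_mem x hx h) _ (hn.conj_mem y hy h), ihx, ihy, hφ _ hx _ hy]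
  have hfin := hφi.kills (fun b _ a ha => hn.conj_mem a ha b) x h
  rw [hφM o x hx, hχ'] at hfin
  have hfin : χ ⟨r o, _⟩ ((s o)⁻¹ * x * s o) = 1 := hfin
  rw [hcongr (r o) o (hr _) ho _ (r_self o ho), hχo] at hfin
  have hsw : s o ∈ Sb L o := by
    refine mem_Sb.2 ⟨?_, Sb_le L (hs o)⟩
    have := heq o
    rw [r_self o ho] at this
    exact this.symm
  have h2 := hf0.2 _ (inv_mem hsw) x hx
  rw [inv_inv] at h2
  rw [h2] at hfin
  exact hfx hfin

theorem Rd.h1 (v : V) {x : G} (hx : x ∈ M v) (h : x ∈ ⁅(⨆ v, M v), (⨆ v : V, Sb L v)⁆) :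
    x ∈ ⁅M v, Sb L v⁆ := by
  obtain ⟨S, hS⟩ := Tv.exists (R := Sb (V := V) L) hT
  have hq := Tq.of_Sb hT hact L hS
  have hn := hR.normal
  have hn2 : (⨆ v : V, Sb L v).Normal := Sb_normal L
  have hcn : (⁅(⨆ v, M v), (⨆ v : V, Sb L v)⁆).Normal := inferInstance
  obtain ⟨a, ha, o, ho, rfl⟩ := hq.cover v
  have e : a * (a⁻¹ * x * a) * a⁻¹ = x := by group
  have hx' : a⁻¹ * x * a ∈ M o := by
    rw [hR.conj_iff (g := a) (v := o) rfl, e]
    exact hx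
  have h' : a⁻¹ * x * a ∈ ⁅(⨆ v, M v), (⨆ v : V, Sb L v)⁆ := by
    have := hcn.conj_mem x h a⁻¹
    rwa [inv_inv] at this
  have h2 := hR.h1' hT hact hE hq ho hx' h'
  have h3 : (⁅M o, Sb L o⁆).map (MulAut.conj a).toMonoidHom ≤ ⁅M (a • o), Sb L (a • o)⁆ := by
    rw [Subgroup.map_commutator]
    refine Subgroup.commutator_mono ?_ ?_
    · rintro _ ⟨y, hy, rfl⟩
      exact hR.eqv a o y hy
    · rintro _ ⟨y, hy, rfl⟩
      exact Sb_conj L a o hy
  have h4 := h3 ⟨_, h2, rfl⟩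
  have h5 : (MulAut.conj a).toMonoidHom (a⁻¹ * x * a) = x := e
  rwa [h5] at h4

end char

end Pool.Agent.E14.RE
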