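import Pool.Agent.E14.RE.Rad

/-!
# Rational characters of the radical of an element
-/

set_option autoImplicit false

namespace Pool.Agent.E14.RE

open scoped commutatorElement

/-- the rationals, written multiplicatively -/
abbrev QQ : Type := Multiplicative ℚ

theorem QQ.eq_one {x : QQ} {n : ℤ} (hn : n ≠ 0) (h : x ^ n = 1) : x = 1 := by
  have h1 : (n : ℚ) * x.toAdd = 0 := by
    have := congrArg Multiplicative.toAdd h
    rwa [toAdd_zpow, toAdd_one, zsmul_eq_mul] at this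
  rcases mul_eq_zero.1 h1 with h2 | h2
  · exact absurd (by exact_mod_cast h2) hn
  · exact congrArg Multiplicative.ofAdd h2

theorem QQ.eq {x y : QQ} {n : ℤ} (hn : n ≠ 0) (h : x ^ n = y ^ n) : x = y := by
  have h1 : (x / y) ^ n = 1 := by rw [div_zpow, h, div_self']
  exact div_eq_one.1 (QQ.eq_one hn h1)

/-- two nontrivial elements have a nontrivial common power -/
theorem QQ.cm {x y : QQ} (hx : x ≠ 1) (hy : y ≠ 1) : Cm x y := by
  have hx' : x.toAdd ≠ 0 := fun h => hx (congrArg Multiplicative.ofAdd h)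
  have hy' : y.toAdd ≠ 0 := fun h => hy (congrArg Multiplicative.ofAdd h)
  refine ⟨y.toAdd.den * x.toAdd.num, y.toAdd.num * x.toAdd.den, ?_, ?_, ?_⟩
  · exact mul_ne_zero (by exact_mod_cast y.toAdd.den_ne_zero) (Rat.num_ne_zero.2 hx')
  · exact mul_ne_zero (Rat.num_ne_zero.2 hy') (by exact_mod_cast x.toAdd.den_ne_zero)
  · apply Multiplicative.toAdd.injective
    rw [toAdd_zpow, toAdd_zpow, zsmul_eq_mul, zsmul_eq_mul]
    push_cast
    have h1 : (y.toAdd.num : ℚ) = y.toAdd * y.toAdd.den := (Rat.mul_den_eq_num _).symm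
    have h2 : (x.toAdd.num : ℚ) = x.toAdd * x.toAdd.den := (Rat.mul_den_eq_num _).symm
    rw [h1, h2]
    ring

theorem ext_QQ {D B : Type} [CommGroup D] [CommGroup B] (i : D →* B) (hi : Function.Injective i)
    (f : D →* QQ) : ∃ F : B →* QQ, ∀ d, F (i d) = f d := by
  obtain ⟨h, hh⟩ := (Module.Baer.of_divisible ℚ).extension_property_addMonoidHom
    (MonoidHom.toAdditive i) hi (MonoidHom.toAdditiveLeft f)
  refine ⟨AddMonoidHom.toMultiplicativeRight h, fun d => ?_⟩
  have h1 := DFunLike.congr_fun hh (Additive.ofMul d)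
  exact congrArg Multiplicative.ofAdd h1

variable {G : Type} [Group G]

/-- `e` is not a torsion element modulo the commutator subgroup of its radical -/
def Ht (e : G) : Prop := ∃ θ : Rad e →* QQ, θ ⟨e, self_mem_Rad e⟩ ≠ 1

theorem Ht.notMem {e : G} (h : Ht e) {N : ℤ} (hN : N ≠ 0) : e ^ N ∉ ⁅Rad e, Rad e⁆ := by
  obtain ⟨θ, hθ⟩ := h
  intro hcon
  apply hθ
  have h1 : (⟨e, self_mem_Rad e⟩ : Rad e) ^ N ∈ commutator (Rad e) := by
    have h2 : (e ^ N : G) ∈ (commutator (Rad e)).map (Rad e).subtype := by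
      rw [Subgroup.map_subtype_commutator]
      exact hcon
    obtain ⟨y, hy, hye⟩ := h2
    have h3 : y = (⟨e, self_mem_Rad e⟩ : Rad e) ^ N := Subtype.ext hye
    rwa [← h3]
  have h2 : commutator (Rad e) ≤ θ.ker := Abelianization.commutator_subset_ker _
  have h3 := h2 h1
  rw [MonoidHom.mem_ker, map_zpow] at h3
  exact QQ.eq_one hN h3

/-- a group with an element of infinite order in the abelianization -/
theorem exists_char {Γ : Type} [Group Γ] {z : Γ} (h : ∀ N : ℤ, N ≠ 0 → z ^ N ∉ commutator Γ) :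
    ∃ θ : Γ →* QQ, θ z ≠ 1 := by
  let i : Multiplicative ℤ →* Abelianization Γ := zpowersHom _ (Abelianization.of z)
  have hi : Function.Injective i := by
    rw [injective_iff_map_eq_one]
    intro n hn
    by_contra hne
    have h1 : Abelianization.of (z ^ (n.toAdd)) = 1 := by
      rw [map_zpow]
      exact hn
    exact h n.toAdd (fun h0 => hne (congrArg Multiplicative.ofAdd h0))
      ((QuotientGroup.eq_one_iff _).1 h1)
  obtain ⟨F, hF⟩ := ext_QQ i hi (AddMonoidHom.toMultiplicative (Int.castAddHom ℚ))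
  refine ⟨F.comp Abelianization.of, fun hcon => ?_⟩
  have h1 := hF (Multiplicative.ofAdd 1)
  have h2 : i (Multiplicative.ofAdd 1) = Abelianization.of z := by
    show (Abelianization.of z) ^ (1 : ℤ) = _
    rw [zpow_one]
  rw [h2] at h1
  have h3 : F (Abelianization.of z) = 1 := hcon
  rw [h3] at h1
  have h4 : (0 : ℚ) = ((1 : ℤ) : ℚ) := congrArg Multiplicative.toAdd h1
  norm_num at h4

theorem Ht.of_notMem {e : G} (h : ∀ N : ℤ, N ≠ 0 → e ^ N ∉ ⁅Rad e, Rad e⁆) : Ht e := by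
  refine exists_char fun N hN hcon => h N hN ?_
  rw [← Subgroup.map_subtype_commutator]
  exact ⟨_, hcon, rfl⟩

theorem Ht.infinite {e : G} (h : Ht e) {N : ℤ} (hN : N ≠ 0) : e ^ N ≠ 1 := fun h1 =>
  h.notMem hN (h1 ▸ one_mem _)

/-- the values of a character -/
theorem th_val {e x : G} (θ : Rad e →* QQ) (hx : x ∈ Rad e) {p q : ℤ} (h : x ^ p = e ^ q) :
    θ ⟨x, hx⟩ ^ p = θ ⟨e, self_mem_Rad e⟩ ^ q := by
  rw [← map_zpow, ← map_zpow]
  congr 1
  exact Subtype.ext h

theorem th_ne {e x : G} (θ : Rad e →* QQ) (hθ : θ ⟨e, self_mem_Rad e⟩ ≠ 1) (hx : Cm e x)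
    (hx' : x ∈ Rad e) : θ ⟨x, hx'⟩ ≠ 1 := by
  obtain ⟨p, q, hp, hq, h⟩ := hx
  intro h1
  have h2 := th_val θ hx' h
  rw [h1, one_zpow] at h2
  exact hθ (QQ.eq_one hq h2.symm)

/-- invariance under the virtual centralizer -/
theorem th_inv {e : G} (θ : Rad e →* QQ) {k : G} (hk : k ∈ Vz e) {x : G} (hx : x ∈ Rad e) :
    θ ⟨k * x * k⁻¹, Rad_conj (Vz_le_Kom e hk) hx⟩ = θ ⟨x, hx⟩ := by
  have hk' := Vz_le_Kom e hk
  let θ' : Rad e →* QQ :=
    { toFun := fun y => θ ⟨k * y * k⁻¹, Rad_conj hk' y.2⟩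
      map_one' := by
        rw [← map_one θ]
        congr 1
        apply Subtype.ext
        show k * 1 * k⁻¹ = 1
        group
      map_mul' := by
        intro a b
        rw [← map_mul]
        congr 1
        apply Subtype.ext
        show k * (a * b) * k⁻¹ = k * a * k⁻¹ * (k * b * k⁻¹)
        group }
  have key : ∀ y (hy : y ∈ Rad e), θ' ⟨y, hy⟩ = θ ⟨y, hy⟩ := by
    intro y hy
    induction hy using Subgroup.closure_induction with
    | mem y hy =>
      obtain ⟨p, q, hp, hq, h⟩ := hy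
      obtain ⟨r, hr, hkr⟩ := hk
      have hkr : Commute k (e ^ r) := hkr
      apply QQ.eq (mul_ne_zero hp hr)
      rw [← map_zpow, ← map_zpow]
      show θ _ = θ _
      congr 1
      apply Subtype.ext
      show k * (y ^ (p * r)) * k⁻¹ = y ^ (p * r)
      have h1 : y ^ (p * r) = (e ^ r) ^ q := by
        rw [zpow_mul, h, ← zpow_mul, ← zpow_mul, mul_comm]
      rw [h1, (hkr.zpow_right q).eq, mul_inv_cancel_right]
    | one =>
      exact (map_one θ').trans (map_one θ).symm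
    | mul a b ha hb iha ihb =>
      have e1 : (⟨a * b, mul_mem ha hb⟩ : Rad e) = ⟨a, ha⟩ * ⟨b, hb⟩ := rfl
      show θ' ⟨a * b, mul_mem ha hb⟩ = θ ⟨a * b, mul_mem ha hb⟩
      rw [e1, map_mul, map_mul]
      exact congrArg₂ _ iha ihb
    | inv a ha iha =>
      have e1 : (⟨a⁻¹, inv_mem ha⟩ : Rad e) = (⟨a, ha⟩ : Rad e)⁻¹ := rfl
      show θ' ⟨a⁻¹, inv_mem ha⟩ = θ ⟨a⁻¹, inv_mem ha⟩
      rw [e1, map_inv, map_inv]
      exact congrArg _ iha
  exact key x hx

/-- the characters kill the commutators with the virtual centralizer -/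
theorem th_comm {e : G} (θ : Rad e →* QQ) {x : G} (hx : x ∈ ⁅Rad e, Vz e⁆) (hx' : x ∈ Rad e) :
    θ ⟨x, hx'⟩ = 1 := by
  have key : ⁅Rad e, Vz e⁆ ≤ θ.ker.map (Rad e).subtype := by
    rw [Subgroup.commutator_le]
    intro a ha b hb
    have hb' := Vz_le_Kom e hb
    refine ⟨⟨a, ha⟩ * ⟨b * a⁻¹ * b⁻¹, Rad_conj hb' (inv_mem ha)⟩, ?_, ?_⟩
    · show θ _ = 1
      rw [map_mul, th_inv θ hb (inv_mem ha), ← map_mul]
      have : (⟨a, ha⟩ * ⟨a⁻¹, inv_mem ha⟩ : Rad e) = 1 := Subtype.ext (mul_inv_cancel a)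
      rw [this, map_one]
    · show a * (b * a⁻¹ * b⁻¹) = ⁅a, b⁆
      rw [commutatorElement_def]
      group
  obtain ⟨y, hy, hyx⟩ := key hx
  have h1 : y = ⟨x, hx'⟩ := Subtype.ext hyx
  rw [← h1]
  exact hy

/-- commensurable elements -/
theorem Ht.congr {e x : G} (h : Cm e x) (he : Ht e) : Ht x := by
  refine Ht.of_notMem fun N hN hcon => ?_
  rw [← Rad_congr h] at hcon
  obtain ⟨p, q, hp, hq, h⟩ := h
  refine he.notMem (mul_ne_zero hq hN) ?_
  rw [zpow_mul, ← h, ← zpow_mul, mul_comm, zpow_mul]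
  exact zpow_mem hcon p

end Pool.Agent.E14.RE
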