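import Pool.Agent.E14.RE.Hyp

/-!
# Groups acting on trees with edge groups of rank one
-/

set_option autoImplicit false

namespace Pool.Agent.E14.RE

open SimpleGraph
open scoped commutatorElement
open Pool.Agent.Y110.FJ
open Pool.Agent.N509.TK
open Pool.Agent.R941.FJ (C_equiv C_le C_cyc mem_sup_normal)
open Pool.Agent.N431.CE (Es mem_Es cylF)
open Pool.Agent.N509.TX (AcylF C_edge)
open Pool.Agent.Helper270.Tree (TreeAct IsAxis IsLine)

variable {C : ∀ (G : Type) [Group G], Prop}
variable {G V : Type} [Group G] [MulAction G V] {T : SimpleGraph V}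

theorem Sm.cm {n : ℕ} {E : Subgroup G} (h : Sm n E) {a b : G} (ha : a ∈ E) (hio : Io a)
    (hb : b ∈ E) (hb1 : b ≠ 1) : Cm a b := by
  rcases h with h | ⟨ι, hι⟩
  · have hf := finite_of_card h
    exfalso
    obtain ⟨m, hm, hm1⟩ := isOfFinOrder_iff_pow_eq_one.1 (isOfFinOrder_of_finite (⟨a, ha⟩ : E))
    refine hio m (by omega) ?_
    have := congrArg Subtype.val hm1
    rw [zpow_natCast]
    simpa using this
  · have h1 : ι ⟨a, ha⟩ ≠ 1 := by
      intro h1
      have h2 : (⟨a, ha⟩ : E) = 1 := hι (h1.trans (map_one ι).symm)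
      exact hio 1 one_ne_zero (by rw [zpow_one]; exact congrArg Subtype.val h2)
    have h2 : ι ⟨b, hb⟩ ≠ 1 := by
      intro h1
      have h2 : (⟨b, hb⟩ : E) = 1 := hι (h1.trans (map_one ι).symm)
      exact hb1 (congrArg Subtype.val h2)
    obtain ⟨p, q, hp, hq, h3⟩ := QQ.cm h1 h2
    rw [← map_zpow, ← map_zpow] at h3
    exact ⟨p, q, hp, hq, by simpa using congrArg Subtype.val (hι h3)⟩

theorem Sm.tf {n : ℕ} {E : Subgroup G} (h : Sm n E) : (∀ F : Finset G, (∀ g ∈ F, g ∈ E) →
    F.card ≤ n) ∨ ∀ b ∈ E, b ≠ 1 → Io b := by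
  rcases h with h | ⟨ι, hι⟩
  · exact Or.inl h
  · refine Or.inr fun b hb hb1 N hN hbN => hb1 ?_
    have h1 : ι ⟨b, hb⟩ = 1 := by
      refine QQ.eq_one hN ?_
      rw [← map_zpow]
      have : (⟨b, hb⟩ : E) ^ N = 1 := Subtype.ext (by simpa using hbN)
      rw [this, map_one]
    have h2 : (⟨b, hb⟩ : E) = 1 := hι (h1.trans (map_one ι).symm)
    exact congrArg Subtype.val h2

/-- the relation on the links -/
def ri (G : Type) {V : Type} [Group G] [MulAction G V] (w a b : V) : Prop :=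
  a = b ∨ ∃ x : G, x ∈ Es G w a ∧ x ∈ Es G w b ∧ Io x

theorem Io.conj {x : G} (h : Io x) (g : G) : Io (g * x * g⁻¹) := by
  intro N hN h1
  rw [cj_zpow, conj_eq_one_iff] at h1
  exact h N hN h1

theorem Es_conj {x g : G} {u v : V} (h : x ∈ Es G u v) : g * x * g⁻¹ ∈ Es G (g • u) (g • v) := by
  rw [mem_Es] at h ⊢
  constructor
  · rw [mul_smul, inv_smul_smul, mul_smul, h.1]
  · rw [mul_smul, inv_smul_smul, mul_smul, h.2]

theorem ri_LR {n : ℕ} (hE : ∀ u v, T.Adj u v → Sm n (Es G u v)) : LR G T (ri G) where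
  refl _ _ _ := Or.inl rfl
  symm _ _ _ _ _ h := by
    rcases h with rfl | ⟨x, h1, h2, h3⟩
    · exact Or.inl rfl
    · exact Or.inr ⟨x, h2, h1, h3⟩
  trans w a b c ha hb hc h h' := by
    rcases h with rfl | ⟨x, h1, h2, h3⟩
    · exact h'
    · rcases h' with rfl | ⟨y, h4, h5, h6⟩
      · exact Or.inr ⟨x, h1, h2, h3⟩
      · have hy1 : y ≠ 1 := fun h => h6 1 one_ne_zero (by rw [h, one_zpow])
        obtain ⟨p, q, hp, hq, h7⟩ := (hE w b hb).cm h2 h3 h4 hy1
        refine Or.inr ⟨x ^ q, zpow_mem h1 q, ?_, h3.pow hq⟩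
        rw [← h7]
        exact zpow_mem h5 p
  eqv g w a b h := by
    rcases h with rfl | ⟨x, h1, h2, h3⟩
    · exact Or.inl rfl
    · exact Or.inr ⟨g * x * g⁻¹, Es_conj h1, Es_conj h2, h3.conj g⟩

/-- the relation of the edges of a cylinder -/
def Rg (G : Type) {V : Type} [Group G] [MulAction G V] (p q : V × V) : Prop :=
  (q = p ∨ q = p.swap) ∨ ∃ x ∈ Es G p.1 p.2, ∃ y ∈ Es G q.1 q.2, Io x ∧ Cm x y

theorem Es_swap (v u : V) : Es G v u = Es G u v := inf_comm _ _

theorem Rg_gen {n : ℕ} (hE : ∀ u v, T.Adj u v → Sm n (Es G u v)) {p q : Dt T}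
    (h : Relation.EqvGen (lk T (ri G)) p q) : Rg G p.1 q.1 := by
  induction h with
  | rel x y h =>
    rcases h with h | ⟨h1, h2⟩
    · exact Or.inl (Or.inr h)
    · rcases h2 with h2 | ⟨z, h2, h3, h4⟩
      · exact Or.inl (Or.inl (Prod.ext h1.symm h2.symm))
      · refine Or.inr ⟨z, h2, z, ?_, h4, Cm.refl z⟩
        rw [← h1]
        exact h3
  | refl x => exact Or.inl (Or.inl rfl)
  | symm x y _ ih =>
    rcases ih with (h | h) | ⟨a, ha, b, hb, hio, hab⟩
    · exact Or.inl (Or.inl h.symm)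
    · left
      right
      rw [h, Prod.swap_swap]
    · exact Or.inr ⟨b, hb, a, ha, hio.congr hab, hab.symm⟩
  | trans x y z _ _ ih1 ih2 =>
    rcases ih1 with (h | h) | ⟨a, ha, b, hb, hio, hab⟩ <;>
      rcases ih2 with (h' | h') | ⟨a', ha', b', hb', hio', hab'⟩
    · exact Or.inl (Or.inl (h'.trans h))
    · left
      right
      rw [h', h]
    · right
      rw [h] at ha'
      exact ⟨a', ha', b', hb', hio', hab'⟩
    · left
      right
      rw [h', h]
    · left
      left
      rw [h', h, Prod.swap_swap]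
    · right
      rw [h] at ha'
      have ha'' : a' ∈ Es G x.1.1 x.1.2 := by
        rw [Es_swap]
        exact ha'
      exact ⟨a', ha'', b', hb', hio', hab'⟩
    · right
      rw [h']
      exact ⟨a, ha, b, hb, hio, hab⟩
    · right
      refine ⟨a, ha, b, ?_, hio, hab⟩
      rw [h']
      show b ∈ Es G y.1.2 y.1.1
      rw [Es_swap]
      exact hb
    · right
      have ha1 : a' ≠ 1 := fun h => hio' 1 one_ne_zero (by rw [h, one_zpow])
      have h1 := (hE _ _ y.2).cm hb (hio.congr hab) ha' ha1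
      exact ⟨a, ha, b', hb', hio, (hab.trans h1).trans hab'⟩

/-- **groups acting on trees with small edge groups are in the class** -/
theorem mem_tree (hC : ClosedE C) (hM : ∀ (G : Type) [Group G], derivedSeries G 2 = ⊥ → C G)
    (hA : AcylF C) (h : TreeAct G T) (hV : ∀ v : V, Tame C (MulAction.stabilizer G v)) (n : ℕ)
    (hE : ∀ u v, T.Adj u v → Sm n (Es G u v)) : C G := by
  refine cylF hC hA h.isTree h.adj (ri_LR (T := T) hE) (n + 1) ?_ (fun v => (hV v).mem)
    fun y K hK => ?_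
  · intro w a b ha hb hab F hF
    rcases (hE w a ha).tf with h1 | h1
    · exact (h1 F fun g hg => ⟨(hF g hg).1, (hF g hg).2.1⟩).trans (Nat.le_succ n)
    · have h2 : F ⊆ {1} := by
        intro g hg
        rw [Finset.mem_singleton]
        by_contra hg1
        exact hab (Or.inr ⟨g, ⟨(hF g hg).1, (hF g hg).2.1⟩, ⟨(hF g hg).1, (hF g hg).2.2⟩,
          h1 g ⟨(hF g hg).1, (hF g hg).2.1⟩ hg1⟩)
      refine (Finset.card_le_card h2).trans ?_
      rw [Finset.card_singleton]
      omega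
  · obtain ⟨⟨⟨v0, a0⟩, h0⟩, hy⟩ := Quotient.exists_rep y
    have h0 : T.Adj v0 a0 := h0
    have hy : cy (ri G) h0 = y := hy
    subst hy
    have hrel : ∀ g ∈ K, Rg G (g • v0, g • a0) (v0, a0) := by
      intro g hg
      have h1 := hK g hg v0 a0 h0 rfl
      exact Rg_gen hE (p := dt (h.adj g v0 a0 h0)) (q := dt h0) (Quotient.exact h1)
    by_cases hinf : ∃ x ∈ Es G v0 a0, Io x
    · obtain ⟨x, hx, hio⟩ := hinf
      have hle : K ≤ Kom x := by
        intro g hg
        have hxg : g * x * g⁻¹ ∈ Es G (g • v0) (g • a0) := Es_conj hx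
        have hne : ∀ z : G, Io z → z ≠ 1 := fun z hz h => hz 1 one_ne_zero (by rw [h, one_zpow])
        have hcm : Cm x (g * x * g⁻¹) := by
          rcases hrel g hg with (h1 | h1) | ⟨a, ha, b, hb, ha1, hab⟩
          · have e1 : v0 = g • v0 := congrArg Prod.fst h1
            have e2 : a0 = g • a0 := congrArg Prod.snd h1
            rw [← e1, ← e2] at hxg
            exact (hE v0 a0 h0).cm hx hio hxg (hne _ (hio.conj g))
          · have e1 : v0 = g • a0 := congrArg Prod.fst h1
            have e2 : a0 = g • v0 := congrArg Prod.snd h1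
            rw [← e1, ← e2, Es_swap] at hxg
            exact (hE v0 a0 h0).cm hx hio hxg (hne _ (hio.conj g))
          · have h2 := (hE v0 a0 h0).cm hx hio hb (hne _ (ha1.congr hab))
            have h3 := (hE _ _ (h.adj g v0 a0 h0)).cm ha ha1 hxg (hne _ (hio.conj g))
            exact (h2.trans hab.symm).trans h3
        obtain ⟨p, q, hp, hq, h4⟩ := hcm
        rw [cj_zpow] at h4
        exact ⟨p, q, hp, hq, h4⟩
      refine C_le hC.base hle (ell hC hM h x hio (v0 := v0) ⟨1, one_ne_zero, ?_⟩ (fun v _ => hV v)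
        fun u v huv a ha hioa b hb hb1 => (hE u v huv).cm ha hioa hb hb1).1
      rw [zpow_one]
      exact hx.1
    · refine C_edge hC v0 a0 ((hV v0).mem) K fun g hg => ?_
      rcases hrel g hg with (h1 | h1) | ⟨a, ha, b, hb, ha1, hab⟩
      · exact Or.inl ⟨(congrArg Prod.fst h1).symm, (congrArg Prod.snd h1).symm⟩
      · exact Or.inr ⟨(congrArg Prod.snd h1).symm, (congrArg Prod.fst h1).symm⟩
      · exact absurd ⟨b, hb, ha1.congr hab⟩ hinf

/-- **the class is closed under actions on trees with small edge groups** -/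
theorem tame_tree (hC : ClosedE C) (hM : ∀ (G : Type) [Group G], derivedSeries G 2 = ⊥ → C G)
    (hA : AcylF C) (h : TreeAct G T) (hV : ∀ v : V, Tame C (MulAction.stabilizer G v)) (n : ℕ)
    (hE : ∀ u v, T.Adj u v → Sm n (Es G u v)) : Tame C G := by
  have key : ∀ e : G, Io e → Qe C e ∧ Ht e := by
    intro e he
    by_cases hv : ∃ v : V, v ∈ We V e
    · obtain ⟨v0, hv0⟩ := hv
      exact (ell hC hM h e he hv0 (fun v _ => hV v)
        fun u v huv a ha hioa b hb hb1 => (hE u v huv).cm ha hioa hb hb1).2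
    · push_neg at hv
      obtain ⟨L, l, hax⟩ := h.exists_axis (g := e) fun v hev => hv v
        ⟨1, one_ne_zero, by rw [zpow_one]; exact hev⟩
      exact ⟨qe_hyp hC hM h hax (hE _ _ (by simpa using hax.line.adj 0)), ht_hyp h hax⟩
  exact ⟨mem_tree hC hM hA h hV n hE, fun e he => (key e he).1, fun e he => (key e he).2⟩

end Pool.Agent.E14.RE
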