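import Pool.Agent.E14.RE.Ell3

/-!
# Groups acting on trees with virtually cyclic edge groups
-/

set_option autoImplicit false

namespace Pool.Agent.E14.RE

open SimpleGraph
open scoped commutatorElement
open Pool.Agent.Y110.FJ
open Pool.Agent.N509.TK
open Pool.Agent.R941.FJ (C_equiv C_le C_cyc mem_sup_normal)
open Pool.Agent.N431.CE (Es mem_Es)
open Pool.Agent.N509.TX (AcylF C_edge cylF_fg of_fg of_fg_mem fg_subtree finedge STree)
open Pool.Agent.Helper270.Tree (TreeAct IsAxis IsLine)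

variable {C : ∀ (G : Type) [Group G], Prop}
variable {G V : Type} [Group G] [MulAction G V] {T : SimpleGraph V}

theorem ri_LR2 (hE : ∀ u v, T.Adj u v → ∀ a ∈ Es G u v, Io a → ∀ b ∈ Es G u v, Io b → Cm a b) :
    LR G T (ri G) where
  refl _ _ _ := Or.inl rfl
  symm _ _ _ _ _ h := by
    rcases h with rfl | ⟨x, h1, h2, h3⟩
    · exact Or.inl rfl
    · exact Or.inr ⟨x, h2, h1, h3⟩
  trans w a b c ha hb hc h h' := by
    rcases h with rfl | ⟨x, h1, h2, h3⟩
    · exact h'
    · rcases h' with rfl | ⟨y, h4, h5, h6⟩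
      · exact Or.inr ⟨x, h1, h2, h3⟩
      · obtain ⟨p, q, hp, hq, h7⟩ := hE w b hb x h2 h3 y h4 h6
        refine Or.inr ⟨x ^ q, zpow_mem h1 q, ?_, h3.pow hq⟩
        rw [← h7]
        exact zpow_mem h5 p
  eqv g w a b h := by
    rcases h with rfl | ⟨x, h1, h2, h3⟩
    · exact Or.inl rfl
    · exact Or.inr ⟨g * x * g⁻¹, Es_conj h1, Es_conj h2, h3.conj g⟩

theorem Rg_gen2 (hE : ∀ u v, T.Adj u v → ∀ a ∈ Es G u v, Io a → ∀ b ∈ Es G u v, Io b → Cm a b)
    {p q : Dt T} (h : Relation.EqvGen (lk T (ri G)) p q) : Rg G p.1 q.1 := by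
  induction h with
  | rel x y h =>
    rcases h with h | ⟨h1, h2⟩
    · exact Or.inl (Or.inr h)
    · rcases h2 with h2 | ⟨z, h2, h3, h4⟩
      · exact Or.inl (Or.inl (Prod.ext h1.symm h2.symm))
      · refine Or.inr ⟨z, h2, z, ?_, h4, Cm.refl z⟩
        rw [← h1]
        exact h3
  | refl x => exact Or.inl (Or.inl rfl)
  | symm x y _ ih =>
    rcases ih with (h | h) | ⟨a, ha, b, hb, hio, hab⟩
    · exact Or.inl (Or.inl h.symm)
    · left
      right
      rw [h, Prod.swap_swap]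
    · exact Or.inr ⟨b, hb, a, ha, hio.congr hab, hab.symm⟩
  | trans x y z _ _ ih1 ih2 =>
    rcases ih1 with (h | h) | ⟨a, ha, b, hb, hio, hab⟩ <;>
      rcases ih2 with (h' | h') | ⟨a', ha', b', hb', hio', hab'⟩
    · exact Or.inl (Or.inl (h'.trans h))
    · left
      right
      rw [h', h]
    · right
      rw [h] at ha'
      exact ⟨a', ha', b', hb', hio', hab'⟩
    · left
      right
      rw [h', h]
    · left
      left
      rw [h', h, Prod.swap_swap]
    · right
      rw [h] at ha'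
      have ha'' : a' ∈ Es G x.1.1 x.1.2 := by
        rw [Es_swap]
        exact ha'
      exact ⟨a', ha'', b', hb', hio', hab'⟩
    · right
      rw [h']
      exact ⟨a, ha, b, hb, hio, hab⟩
    · right
      refine ⟨a, ha, b, ?_, hio, hab⟩
      rw [h']
      show b ∈ Es G y.1.2 y.1.1
      rw [Es_swap]
      exact hb
    · right
      have h1 := hE _ _ y.2 _ hb (hio.congr hab) _ ha' hio'
      exact ⟨a, ha, b', hb', hio, (hab.trans h1).trans hab'⟩

theorem exists_bound' {X : Type} (Φ : Finset X) (P : X → ℕ → Prop)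
    (hmono : ∀ x n m, n ≤ m → P x n → P x m) (h : ∀ x ∈ Φ, ∃ n, P x n) :
    ∃ n, ∀ x ∈ Φ, P x n := by
  classical
  induction Φ using Finset.induction_on with
  | empty => exact ⟨0, fun x hx => absurd hx (Finset.notMem_empty x)⟩
  | insert a Φ ha ih =>
    obtain ⟨n, hn⟩ := ih fun x hx => h x (Finset.mem_insert_of_mem hx)
    obtain ⟨m, hm⟩ := h a (Finset.mem_insert_self a Φ)
    refine ⟨max n m, fun x hx => ?_⟩
    rcases Finset.mem_insert.1 hx with rfl | hx
    · exact hmono _ _ _ (le_max_right _ _) hm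
    · exact hmono _ _ _ (le_max_left _ _) (hn x hx)

theorem Io_sub {H : Subgroup G} {x : H} : Io x ↔ Io (x : G) := by
  constructor
  · intro h N hN h1
    exact h N hN (Subtype.ext (by simpa using h1))
  · intro h N hN h1
    refine h N hN ?_
    have h2 := congrArg Subtype.val h1
    simpa using h2

/-- **groups acting on trees with virtually cyclic edge groups are in the class** -/
theorem mem_tree3 (hC : ClosedE C) (hA : AcylF C) (h : TreeAct G T)
    (hV : ∀ v : V, C (MulAction.stabilizer G v)) (hE : ∀ u v, T.Adj u v → Vcy (Es G u v))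
    (hKom : ∀ (x : G) (v u : V), T.Adj v u → Io x → x ∈ Es G v u → C (Kom x)) : C G := by
  classical
  obtain ⟨o⟩ := h.isTree.connected.nonempty
  refine of_fg hC fun H hfg => ?_
  have hactH : ∀ (g : H) (u v : V), T.Adj u v → T.Adj (g • u) (g • v) := fun g u v huv =>
    h.adj g u v huv
  obtain ⟨W, _, T', ι, Φ, hS, -, hΦ, hcov⟩ := fg_subtree (G := H) h.isTree hactH hfg o
  obtain ⟨n, hn⟩ : ∃ n : ℕ, ∀ p ∈ Φ, ∀ I : Subgroup G, I ≤ Es G (p : V × V).1 p.2 →
      (∀ x ∈ I, ¬ Io x) → ∀ F : Finset G, (∀ g ∈ F, g ∈ I) → F.card ≤ n :=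
    exists_bound' Φ (fun p n => ∀ I : Subgroup G, I ≤ Es G (p : V × V).1 p.2 →
      (∀ x ∈ I, ¬ Io x) → ∀ F : Finset G, (∀ g ∈ F, g ∈ I) → F.card ≤ n)
      (fun p n m hnm h1 I hI hx F hF => (h1 I hI hx F hF).trans hnm)
      fun p hp => (hE _ _ (hΦ p hp)).fin
  have hsub : ∀ (u v : W) (x : H), x ∈ Es H u v → (x : G) ∈ Es G (ι u) (ι v) := fun u v x hx =>
    ⟨hS.fix.1 hx.1, hS.fix.1 hx.2⟩
  have hcm : ∀ u v, T'.Adj u v → ∀ a ∈ Es H u v, Io a → ∀ b ∈ Es H u v, Io b → Cm a b := by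
    intro u v huv a ha hao b hb hbo
    rw [Cm_sub]
    exact (hE _ _ (hS.adj _ _ huv)).cm (hsub _ _ _ ha) (Io_sub.1 hao) (hsub _ _ _ hb)
      (Io_sub.1 hbo)
  have hVH : ∀ w : W, C ↥(MulAction.stabilizer H w) := by
    intro w
    rw [hS.stab]
    exact Pool.Agent.N509.TX.C_stab hC H (ι w) (hV (ι w))
  refine cylF_fg hC hA hfg hS.tree hS.act (ri_LR2 (T := T') hcm) n ?_ hVH fun y K hK => ?_
  · intro w a b ha hb hab F hF
    obtain ⟨k, hk⟩ := hcov w a ha
    obtain ⟨I, hI⟩ : ∃ I : Subgroup G, I = (Es H w a ⊓ Es H w b).map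
        ((MulAut.conj (k : G)).toMonoidHom.comp H.subtype) := ⟨_, rfl⟩
    have hIo : ∀ x ∈ I, ¬ Io x := by
      intro x hx hio
      rw [hI] at hx
      obtain ⟨y, hy, rfl⟩ := hx
      refine hab (Or.inr ⟨y, hy.1, hy.2, ?_⟩)
      rw [Io_sub]
      intro N hN h1
      refine hio N hN ?_
      show ((k : G) * (y : G) * (k : G)⁻¹) ^ N = 1
      rw [cj_zpow, h1, mul_one, mul_inv_cancel]
    have hIle : I ≤ Es G ((k : G) • ι w) ((k : G) • ι a) := by
      rw [hI]
      rintro _ ⟨y, hy, rfl⟩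
      exact Es_conj (hsub _ _ _ hy.1)
    have hcard : ∀ p ∈ Φ, I ≤ Es G (p : V × V).1 p.2 → F.card ≤ n := by
      intro p hp hIp
      have h1 := hn p hp I hIp hIo (F.map ⟨fun g : H => (k : G) * (g : G) * (k : G)⁻¹, by
        intro g g' hgg
        exact Subtype.ext (mul_left_cancel (mul_right_cancel hgg))⟩) (by
        intro x hx
        rw [Finset.mem_map] at hx
        obtain ⟨g, hg, rfl⟩ := hx
        rw [hI]
        obtain ⟨h1, h2, h3⟩ := hF g hg
        exact ⟨g, ⟨⟨h1, h2⟩, ⟨h1, h3⟩⟩, rfl⟩)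
      rwa [Finset.card_map] at h1
    rcases hk with hk | hk
    · exact hcard _ hk hIle
    · exact hcard _ hk (by
        show I ≤ Es G ((k : G) • ι a) ((k : G) • ι w)
        rw [Es_swap]
        exact hIle)
  · obtain ⟨⟨⟨v0, a0⟩, h0⟩, hy⟩ := Quotient.exists_rep y
    have h0 : T'.Adj v0 a0 := h0
    have hy : cy (ri H) h0 = y := hy
    subst hy
    have hrel : ∀ g ∈ K, Rg H (g • v0, g • a0) (v0, a0) := by
      intro g hg
      have h1 := hK g hg v0 a0 h0 rfl
      exact Rg_gen2 hcm (p := dt (hS.act g v0 a0 h0)) (q := dt h0) (Quotient.exact h1)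
    by_cases hinf : ∃ x ∈ Es H v0 a0, Io x
    · obtain ⟨x, hx, hio⟩ := hinf
      have hle : ∀ g ∈ K, (g : G) ∈ Kom (x : G) := by
        intro g hg
        rw [← Kom_sub]
        have hxg : g * x * g⁻¹ ∈ Es H (g • v0) (g • a0) := Es_conj hx
        have hcmx : Cm x (g * x * g⁻¹) := by
          rcases hrel g hg with (h1 | h1) | ⟨a, ha, b, hb, ha1, hab⟩
          · have e1 : v0 = g • v0 := congrArg Prod.fst h1
            have e2 : a0 = g • a0 := congrArg Prod.snd h1
            rw [← e1, ← e2] at hxg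
            exact hcm v0 a0 h0 _ hx hio _ hxg (hio.conj g)
          · have e1 : v0 = g • a0 := congrArg Prod.fst h1
            have e2 : a0 = g • v0 := congrArg Prod.snd h1
            rw [← e1, ← e2, Es_swap] at hxg
            exact hcm v0 a0 h0 _ hx hio _ hxg (hio.conj g)
          · have h2 := hcm v0 a0 h0 _ hx hio _ hb (ha1.congr hab)
            have h3 := hcm _ _ (hS.act g v0 a0 h0) _ ha ha1 _ hxg (hio.conj g)
            exact (h2.trans hab.symm).trans h3
        obtain ⟨p, q, hp, hq, h4⟩ := hcmx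
        rw [cj_zpow] at h4
        exact ⟨p, q, hp, hq, h4⟩
      have h5 := hKom (x : G) (ι v0) (ι a0) (hS.adj _ _ h0) (Io_sub.1 hio) (hsub _ _ _ hx)
      refine hC.base.of_injective _ _ ((H.subtype.comp K.subtype).codRestrict (Kom (x : G))
        fun g => hle g g.2) ?_ h5
      intro a b hab
      have h1 := congrArg Subtype.val hab
      exact Subtype.ext (Subtype.ext h1)
    · refine C_edge hC v0 a0 (hVH v0) K fun g hg => ?_
      rcases hrel g hg with (h1 | h1) | ⟨a, ha, b, hb, ha1, hab⟩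
      · exact Or.inl ⟨(congrArg Prod.fst h1).symm, (congrArg Prod.snd h1).symm⟩
      · exact Or.inr ⟨(congrArg Prod.snd h1).symm, (congrArg Prod.fst h1).symm⟩
      · exact absurd ⟨b, hb, ha1.congr hab⟩ hinf

theorem mem_tree2 (hC : ClosedE C) (hM : ∀ (G : Type) [Group G], derivedSeries G 2 = ⊥ → C G)
    (hA : AcylF C) (h : TreeAct G T) (hV : ∀ v : V, TV C (MulAction.stabilizer G v))
    (hE : ∀ u v, T.Adj u v → Vcy (Es G u v)) : C G :=
  mem_tree3 hC hA h (fun v => (hV v).tame.mem) hE fun x v _ _ hio hx =>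
    (ell3 hC hM hA h x hio (v0 := v) ⟨1, one_ne_zero, by
      rw [zpow_one]
      exact hx.1⟩ (fun v => (hV v).tame.mem) (fun v => (hV v).cen) (TV.at hio hV) hE).1

/-- **the class is closed under actions on trees with virtually cyclic edge groups** -/
theorem tv_tree (hC : ClosedE C) (hM : ∀ (G : Type) [Group G], derivedSeries G 2 = ⊥ → C G)
    (hA : AcylF C) (h : TreeAct G T) (hV : ∀ v : V, TV C (MulAction.stabilizer G v))
    (hE : ∀ u v, T.Adj u v → Vcy (Es G u v)) : TV C G := by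
  have key : ∀ e : G, Io e → Qe C e ∧ Ht e ∧ Cen C e := by
    intro e he
    by_cases hv : ∃ v : V, v ∈ We V e
    · obtain ⟨v0, hv0⟩ := hv
      obtain ⟨-, h1, h2⟩ := ell3 hC hM hA h e he hv0 (fun v => (hV v).tame.mem)
        (fun v => (hV v).cen) (TV.at he hV) hE
      obtain ⟨m, hm, hmv⟩ := hv0
      obtain ⟨w, hw⟩ := fix_of_pow h hm hmv
      exact ⟨h1, h2, (cen_ell hC hM hA h.isTree h.adj e he hw (fun v => (hV v).cen) hE).1⟩
    · push_neg at hv
      obtain ⟨L, l, hax⟩ := h.exists_axis (g := e) fun v hev => hv v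
        ⟨1, one_ne_zero, by rw [zpow_one]; exact hev⟩
      obtain ⟨h1, h2⟩ := hyp_all hC hM h hax hE
      exact ⟨h1, ht_hyp h hax, h2⟩
  exact ⟨⟨mem_tree2 hC hM hA h hV hE, fun e he => (key e he).1, fun e he => (key e he).2.1⟩,
    fun e he => (key e he).2.2⟩

end Pool.Agent.E14.RE
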