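import Pool.Agent.E14.RE.Com

/-!
# Virtually cyclic and virtually abelian groups, finite edge groups
-/

set_option autoImplicit false

namespace Pool.Agent.E14.RE

open SimpleGraph
open scoped commutatorElement
open Pool.Agent.Y110.FJ
open Pool.Agent.N509.TK
open Pool.Agent.R941.FJ (C_equiv C_le C_cyc mem_sup_normal)
open Pool.Agent.N431.CE (Es mem_Es)
open Pool.Agent.N509.TX (AcylF C_edge of_fg of_fg_mem fg_subtree finedge STree)
open Pool.Agent.Helper270.Tree (TreeAct IsAxis IsLine)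

variable {C : ∀ (G : Type) [Group G], Prop}

/-- virtually abelian groups -/
def VAb (G : Type) [Group G] : Prop :=
  ∃ A : Subgroup G, A.FiniteIndex ∧ ∀ x ∈ A, ∀ y ∈ A, x * y = y * x

theorem C_VAb (hC : ClosedE C) (hM : ∀ (G : Type) [Group G], derivedSeries G 2 = ⊥ → C G)
    {G : Type} [Group G] (h : VAb G) : C G := by
  obtain ⟨A, hA, h⟩ := h
  refine hC.base.finiteIndex G A hA (C_comm hM fun x y => ?_)
  rw [commutatorElement_eq_one_iff_mul_comm]
  exact Subtype.ext (h x x.2 y y.2)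

theorem VAb.sub {G B : Type} [Group G] [Group B] (h : VAb G) (f : B →* G)
    (hf : Function.Injective f) : VAb B := by
  obtain ⟨A, hA, h⟩ := h
  refine ⟨A.comap f, ?_, fun x hx y hy => hf ?_⟩
  · refine ⟨?_⟩
    rw [Subgroup.index_comap]
    exact (Subgroup.instFiniteIndex_subgroupOf A f.range).index_ne_zero
  · rw [map_mul, map_mul]
    exact h _ hx _ hy

theorem VAb.quot {G B : Type} [Group G] [Group B] (h : VAb G) (f : G →* B)
    (hf : Function.Surjective f) : VAb B := by
  obtain ⟨A, hA, h⟩ := h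
  refine ⟨A.map f, ?_, ?_⟩
  · refine ⟨fun h0 => hA.index_ne_zero ?_⟩
    have h1 : (A.map f).index ∣ A.index := Subgroup.index_map_dvd A hf
    rw [h0] at h1
    exact Nat.eq_zero_of_zero_dvd h1
  · rintro _ ⟨x, hx, rfl⟩ _ ⟨y, hy, rfl⟩
    rw [← map_mul, ← map_mul, h x hx y hy]

/-- virtually cyclic subgroups -/
def Vcy {G : Type} [Group G] (E : Subgroup G) : Prop :=
  ∃ z ∈ E, (Subgroup.zpowers z).relIndex E ≠ 0

section vc

variable {G : Type} [Group G]

theorem Vcy.pow {E : Subgroup G} {z x : G} (hz : (Subgroup.zpowers z).relIndex E ≠ 0)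
    (hx : x ∈ E) : ∃ i s : ℤ, i ≠ 0 ∧ x ^ i = z ^ s := by
  obtain ⟨m, hm, -, hxm⟩ := Subgroup.exists_pow_mem_of_relIndex_ne_zero hz hx
  obtain ⟨s, hs⟩ := Subgroup.mem_zpowers_iff.1 hxm.1
  exact ⟨m, s, by omega, by rw [zpow_natCast, hs]⟩

theorem Io.ne {x : G} (h : Io x) : x ≠ 1 := fun h1 => h 1 one_ne_zero (by rw [h1, one_zpow])

theorem Vcy.cm {E : Subgroup G} (h : Vcy E) {a b : G} (ha : a ∈ E) (hio : Io a) (hb : b ∈ E)
    (hbo : Io b) : Cm a b := by
  obtain ⟨z, hz, h⟩ := h
  obtain ⟨i, s, hi, his⟩ := Vcy.pow h ha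
  obtain ⟨j, t, hj, hjt⟩ := Vcy.pow h hb
  have hs : s ≠ 0 := fun h0 => hio i hi (by rw [his, h0, zpow_zero])
  have ht : t ≠ 0 := fun h0 => hbo j hj (by rw [hjt, h0, zpow_zero])
  refine ⟨j * s, i * t, mul_ne_zero hj hs, mul_ne_zero hi ht, ?_⟩
  rw [zpow_mul, hjt, zpow_mul, his, ← zpow_mul, ← zpow_mul, mul_comm]

theorem not_io {x : G} (h : ¬ Io x) : ∃ t : ℤ, t ≠ 0 ∧ x ^ t = 1 := by
  unfold Io at h
  push_neg at h
  exact h

/-- subgroups without elements of infinite order -/
theorem Vcy.fin {E : Subgroup G} (h : Vcy E) : ∃ n : ℕ, ∀ I : Subgroup G, I ≤ E →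
    (∀ x ∈ I, ¬ Io x) → ∀ F : Finset G, (∀ g ∈ F, g ∈ I) → F.card ≤ n := by
  classical
  obtain ⟨z, hz, h⟩ := h
  by_cases hio : Io z
  · refine ⟨(Subgroup.zpowers z).relIndex E, fun I hI hIo F hF => ?_⟩
    have hinj : Set.InjOn (fun g : G => (QuotientGroup.mk g : G ⧸ Subgroup.zpowers z)) (F : Set G) := by
      intro a ha b hb hab
      have h1 : a⁻¹ * b ∈ Subgroup.zpowers z := QuotientGroup.eq.1 hab
      obtain ⟨s, hs⟩ := Subgroup.mem_zpowers_iff.1 h1
      by_cases hs0 : s = 0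
      · rw [hs0, zpow_zero] at hs
        exact (inv_mul_eq_one.1 hs.symm)
      · have h2 : Io (a⁻¹ * b) := by
          rw [← hs]
          exact hio.pow hs0
        exact absurd h2 (hIo _ (mul_mem (inv_mem (hF a ha)) (hF b hb)))
    have hfi : ((Subgroup.zpowers z).subgroupOf E).FiniteIndex := ⟨h⟩
    have hfin : Finite (E ⧸ (Subgroup.zpowers z).subgroupOf E) := inferInstance
    let φ : F → E ⧸ (Subgroup.zpowers z).subgroupOf E := fun g =>
      QuotientGroup.mk ⟨(g : G), hI (hF g g.2)⟩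
    have hφ : Function.Injective φ := by
      intro a b hab
      have h1 : (⟨(a : G), hI (hF a a.2)⟩ : E)⁻¹ * ⟨(b : G), hI (hF b b.2)⟩ ∈
        (Subgroup.zpowers z).subgroupOf E := QuotientGroup.eq.1 hab
      rw [Subgroup.mem_subgroupOf] at h1
      have h2 : (QuotientGroup.mk (a : G) : G ⧸ Subgroup.zpowers z) = QuotientGroup.mk (b : G) :=
        QuotientGroup.eq.2 h1
      exact Subtype.ext (hinj a.2 b.2 h2)
    have h3 := Nat.card_le_card_of_injective φ hφ
    have h4 : Nat.card F = F.card := by simp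
    rw [h4] at h3
    exact h3
  · obtain ⟨t, ht, hzt⟩ := not_io hio
    have hof : IsOfFinOrder z := isOfFinOrder_iff_zpow_eq_one.2 ⟨t, ht, hzt⟩
    have hfz : Finite (Subgroup.zpowers z) := (finite_zpowers.2 hof).to_subtype
    have hfz' : Finite ((Subgroup.zpowers z).subgroupOf E) := by
      refine Finite.of_injective (β := Subgroup.zpowers z) (fun x => ⟨(x : E), x.2⟩) ?_
      intro a b hab
      have h5 : ((a : E) : G) = ((b : E) : G) := congrArg (fun x : Subgroup.zpowers z => (x : G)) hab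
      exact Subtype.ext (Subtype.ext h5)
    have hE : Finite E := by
      refine Nat.finite_of_card_ne_zero ?_
      rw [← Subgroup.card_mul_index ((Subgroup.zpowers z).subgroupOf E)]
      exact mul_ne_zero Nat.card_pos.ne' h
    refine ⟨Nat.card E, fun I hI _ F hF => ?_⟩
    have h3 := Nat.card_le_card_of_injective
      (fun g : F => (⟨(g : G), hI (hF g g.2)⟩ : E)) (fun a b hab => by
        have h5 : (a : G) = (b : G) := congrArg (fun x : E => (x : G)) hab
        exact Subtype.ext h5)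
    have h4 : Nat.card F = F.card := by simp
    rw [h4] at h3
    exact h3

/-- subgroups without elements of infinite order are finite -/
theorem Vcy.finite {E : Subgroup G} (h : Vcy E) {I : Subgroup G} (hI : I ≤ E)
    (hIo : ∀ x ∈ I, ¬ Io x) : Finite I := by
  obtain ⟨n, hn⟩ := h.fin
  exact finite_of_card fun F hF => hn I hI hIo F hF

/-- an element of infinite order generates a subgroup of finite index -/
theorem Vcy.index {E : Subgroup G} (h : Vcy E) {a : G} (ha : a ∈ E) (hio : Io a) :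
    (Subgroup.zpowers a).relIndex E ≠ 0 := by
  obtain ⟨z, hz, h⟩ := h
  obtain ⟨i, s, hi, his⟩ := Vcy.pow h ha
  have hs : s ≠ 0 := fun h0 => hio i hi (by rw [his, h0, zpow_zero])
  have h1 : (Subgroup.zpowers (z ^ s)).relIndex E ≠ 0 := by
    have h2 : (Subgroup.zpowers (z ^ s)).relIndex (Subgroup.zpowers z) ≠ 0 := by
      have h3 : Finite (Subgroup.zpowers z ⧸ (Subgroup.zpowers (z ^ s)).subgroupOf
          (Subgroup.zpowers z)) := by
        have hs' : s.natAbs ≠ 0 := Int.natAbs_ne_zero.2 hs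
        have : NeZero s.natAbs := ⟨hs'⟩
        refine Finite.of_surjective (α := Fin s.natAbs)
          (fun k => QuotientGroup.mk ⟨z ^ (k : ℕ), Subgroup.mem_zpowers_iff.2 ⟨k, by simp⟩⟩) ?_
        intro q
        obtain ⟨⟨x, hx⟩, rfl⟩ := QuotientGroup.mk_surjective q
        obtain ⟨k, rfl⟩ := Subgroup.mem_zpowers_iff.1 hx
        have h4 := Int.emod_nonneg k hs
        have h5 := Int.emod_lt_abs k hs
        rw [← Int.natCast_natAbs] at h5
        refine ⟨⟨(k % s).toNat, by omega⟩, QuotientGroup.eq.2 ?_⟩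
        rw [Subgroup.mem_subgroupOf]
        show (z ^ ((k % s).toNat : ℕ))⁻¹ * z ^ k ∈ Subgroup.zpowers (z ^ s)
        refine Subgroup.mem_zpowers_iff.2 ⟨k / s, ?_⟩
        rw [← zpow_natCast, Int.toNat_of_nonneg h4, ← zpow_neg, ← zpow_add, ← zpow_mul]
        congr 1
        have := Int.emod_add_mul_ediv k s
        linarith
      exact (Subgroup.finiteIndex_of_finite_quotient (H := (Subgroup.zpowers (z ^ s)).subgroupOf
        (Subgroup.zpowers z))).index_ne_zero
    exact Subgroup.relIndex_ne_zero_trans h2 h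
  rw [← his] at h1
  refine fun h0 => h1 ?_
  have h2 : Subgroup.zpowers (a ^ i) ≤ Subgroup.zpowers a := by
    rw [Subgroup.zpowers_le]
    exact zpow_mem (Subgroup.mem_zpowers a) i
  have h3 := Subgroup.relIndex_dvd_of_le_left E h2
  rw [h0] at h3
  exact Nat.eq_zero_of_zero_dvd h3

theorem Vcy.vab {E : Subgroup G} (h : Vcy E) : VAb E := by
  obtain ⟨z, hz, h⟩ := h
  refine ⟨(Subgroup.zpowers z).subgroupOf E, ⟨h⟩, ?_⟩
  intro x hx y hy
  rw [Subgroup.mem_subgroupOf] at hx hy
  obtain ⟨a, ha⟩ := Subgroup.mem_zpowers_iff.1 hx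
  obtain ⟨b, hb⟩ := Subgroup.mem_zpowers_iff.1 hy
  apply Subtype.ext
  show (x : G) * (y : G) = (y : G) * (x : G)
  rw [← ha, ← hb, ← zpow_add, ← zpow_add, add_comm]

end vc

theorem card_conj {G V : Type} [Group G] [MulAction G V] {H : Subgroup G} (h : H) (F : Finset H)
    {a b : V} [Finite (Es G a b)] (hg : ∀ g ∈ F, (h * g * h⁻¹) • a = a ∧ (h * g * h⁻¹) • b = b) :
    F.card ≤ Nat.card (Es G a b) := by
  have h6 : ∀ g : F, (h : G) * ((g : H) : G) * (h : G)⁻¹ ∈ Es G a b := fun g =>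
    mem_Es.2 (hg g g.2)
  have h3 := Nat.card_le_card_of_injective (fun g : F => (⟨_, h6 g⟩ : Es G a b)) (fun x y hxy => by
    have h4 : (h : G) * ((x : H) : G) * (h : G)⁻¹ = (h : G) * ((y : H) : G) * (h : G)⁻¹ :=
      congrArg (fun x : Es G a b => (x : G)) hxy
    exact Subtype.ext (Subtype.ext (mul_left_cancel (mul_right_cancel h4))))
  have h4 : Nat.card F = F.card := by simp
  rw [h4] at h3
  exact h3

theorem exists_bound {X : Type} (Φ : Finset X) (f : X → ℕ) : ∃ n, ∀ e ∈ Φ, f e ≤ n :=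
  ⟨Φ.sup f, fun _ he => Finset.le_sup he⟩

/-- groups acting on trees with finite edge stabilizers -/
theorem fin_edges (hC : ClosedE C) (hA : AcylF C) {G V : Type} [Group G] [MulAction G V]
    {T : SimpleGraph V} (hT : T.IsTree)
    (hact : ∀ (g : G) (u v : V), T.Adj u v → T.Adj (g • u) (g • v))
    (hE : ∀ u v, T.Adj u v → Finite (Es G u v))
    (hV : ∀ v : V, C ↥(MulAction.stabilizer G v)) : C G := by
  classical
  obtain ⟨o⟩ := hT.connected.nonempty
  refine of_fg hC fun H hfg => ?_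
  have hactH : ∀ (g : H) (u v : V), T.Adj u v → T.Adj (g • u) (g • v) := fun g u v h => hact g u v h
  obtain ⟨W, _, T', ι, Φ, hS, -, hΦ, hcov⟩ := fg_subtree (G := H) hT hactH hfg o
  obtain ⟨n, hn⟩ : ∃ n : ℕ, ∀ a b : V, (a, b) ∈ Φ → Nat.card (Es G a b) ≤ n := by
    obtain ⟨n, hn⟩ := exists_bound Φ fun e => Nat.card (Es G e.1 e.2)
    exact ⟨n, fun a b hab => hn (a, b) hab⟩
  refine finedge hC hA hfg hS.tree hS.act n ?_ ?_
  · intro u v huv F hF
    obtain ⟨h, hh⟩ := hcov u v huv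
    have hgu : ∀ g ∈ F, (h * g * h⁻¹) • h • ι u = h • ι u ∧ (h * g * h⁻¹) • h • ι v = h • ι v := by
      intro g hg
      obtain ⟨h1, h2⟩ := hF g hg
      have h3 : g • ι u = ι u := by rw [← hS.eqv, h1]
      have h4 : g • ι v = ι v := by rw [← hS.eqv, h2]
      constructor
      · rw [mul_smul, inv_smul_smul, mul_smul, h3]
      · rw [mul_smul, inv_smul_smul, mul_smul, h4]
    rcases hh with hh | hh
    · generalize h • ι u = a at hgu hh
      generalize h • ι v = b at hgu hh
      have hfe : Finite (Es G a b) := hE _ _ (hΦ _ hh)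
      exact le_trans (card_conj h F hgu) (hn _ _ hh)
    · generalize h • ι u = a at hgu hh
      generalize h • ι v = b at hgu hh
      have hfe : Finite (Es G b a) := hE _ _ (hΦ _ hh)
      exact le_trans (card_conj h F fun g hg => (hgu g hg).symm) (hn _ _ hh)
  · intro w
    rw [hS.stab]
    exact Pool.Agent.N509.TX.C_stab hC H (ι w) (hV (ι w))

end Pool.Agent.E14.RE
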